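import Pool.Agent.MP_418f02_an.Rd.St

/-! Fourier estimates and moment bounds for atoms that avoid planes of codimension two. -/

set_option autoImplicit false

open MeasureTheory Set
open scoped ENNReal RealInnerProductSpace

namespace Pool.Agent.MP_418f02_an

theorem rdMult_pick (n : ℕ) {t T : ℝ} (h1 : t ≤ 2 ^ (n + 1)) (h2 : t ≤ T) (h0 : 0 ≤ T) :
    ∃ i ∈ Finset.range (n + 2), t ≤ 2 ^ i ∧ 4 * (1 + 2 * T)⁻¹ ≤ 4 / 2 ^ i := by
  classical
  have ex : ∃ i : ℕ, t ≤ 2 ^ i := ⟨n + 1, h1⟩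
  refine ⟨Nat.find ex, Finset.mem_range.2 (Nat.lt_succ_of_le (Nat.find_min' ex h1)),
    Nat.find_spec ex, ?_⟩
  have h3 : (2 : ℝ) ^ Nat.find ex ≤ 1 + 2 * T := by
    rcases h : Nat.find ex with _ | m
    · rw [pow_zero]
      linarith
    · have := not_le.1 (Nat.find_min ex (show m < Nat.find ex by omega))
      rw [pow_succ]
      linarith
  rw [div_eq_mul_inv]
  exact mul_le_mul_of_nonneg_left (inv_anti₀ (by positivity) h3) (by norm_num)

theorem mult_pf {d : ℕ} : S_Mult d := by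
  refine ⟨16 * 4 ^ (d - 1), by positivity, fun k hk n ξ hξ => ?_⟩
  have h2n : (0 : ℝ) < 2 ^ n := by positivity
  have hn : 0 < ‖ξ‖ := h2n.trans_le hξ
  set u : E d := ‖ξ‖⁻¹ • ξ with hu
  have hu1 : ‖u‖ = 1 := by
    rw [hu, norm_smul, norm_inv, norm_norm, inv_mul_cancel₀ hn.ne']
  have hin : ∀ y : E d, |⟪y, ξ⟫| = ‖ξ‖ * |⟪y, u⟫| := by
    intro y
    rw [hu, real_inner_smul_right, abs_mul, abs_inv, abs_norm, ← mul_assoc,
      mul_inv_cancel₀ hn.ne', one_mul]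
  set S : ℕ → Set (E d) := fun i => {y | ‖y‖ ≤ 2 ∧ |⟪y, u⟫| ≤ 2 ^ i / 2 ^ n} with hS
  have mS : ∀ i, MeasurableSet (S i) := fun i => by
    have a1 : MeasurableSet {y : E d | ‖y‖ ≤ 2} := measurableSet_le (by fun_prop) (by fun_prop)
    have a2 : MeasurableSet {y : E d | |⟪y, u⟫| ≤ 2 ^ i / 2 ^ n} :=
      measurableSet_le (by fun_prop) (by fun_prop)
    exact a1.inter a2
  have vS : ∀ i, volume (S i) ≤ ENNReal.ofReal (2 * (2 ^ i / 2 ^ n) * (2 * 2) ^ (d - 1)) :=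
    fun i => slab_le hu1 (ρ := 2 ^ i / 2 ^ n) (R := 2) (by positivity) (by norm_num)
  have iS : ∀ i, Integrable ((S i).indicator fun _ => (4 / 2 ^ i : ℝ)) := fun i =>
    (integrable_indicator_iff (mS i)).mpr
      (integrableOn_const ((vS i).trans_lt ENNReal.ofReal_lt_top).ne)
  rw [l2_swap hk]
  refine (norm_integral_le_of_norm_le
    (g := fun y => ∑ i ∈ Finset.range (n + 2), (S i).indicator (fun _ => (4 / 2 ^ i : ℝ)) y)
    (integrable_finsetSum _ fun i _ => iS i) (Filter.Eventually.of_forall fun y => ?_)).trans ?_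
  · have p1 : ∀ i ∈ Finset.range (n + 2), 0 ≤ (S i).indicator (fun _ => (4 / 2 ^ i : ℝ)) y :=
      fun i _ => indicator_nonneg (fun _ _ => by positivity) _
    by_cases hy : 2 < ‖y‖
    · simp only [hk.supp y hy, Complex.ofReal_zero, zero_mul, norm_zero]
      exact Finset.sum_nonneg p1
    · have hy2 : ‖y‖ ≤ 2 := not_lt.mp hy
      have hb : ‖(k y : ℂ) * ∫ s in (1 : ℝ)..2, ee (s * ⟪y, ξ⟫) / s‖ ≤
          4 * (1 + 2 * |⟪y, ξ⟫|)⁻¹ := by
        rw [norm_mul, Complex.norm_real, Real.norm_eq_abs]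
        have := mul_le_mul (hk.bdd y) (l2_osc ⟪y, ξ⟫) (norm_nonneg _) zero_le_one
        linarith
      have hc : |⟪y, u⟫| ≤ 2 := by
        have := abs_real_inner_le_norm y u
        rw [hu1, mul_one] at this
        linarith
      obtain ⟨i, hi, a, b⟩ := rdMult_pick n (t := 2 ^ n * |⟪y, u⟫|) (T := |⟪y, ξ⟫|)
        (by rw [pow_succ]; exact mul_le_mul_of_nonneg_left hc h2n.le)
        (by rw [hin]; exact mul_le_mul_of_nonneg_right hξ (abs_nonneg _)) (abs_nonneg _)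
      have hm : y ∈ S i := ⟨hy2, by rw [le_div_iff₀ h2n, mul_comm]; exact a⟩
      refine hb.trans (b.trans (le_trans (le_of_eq ?_) (Finset.single_le_sum p1 hi)))
      rw [indicator_of_mem hm]
  · rw [integral_finsetSum _ fun i _ => iS i]
    have w : ∀ i ∈ Finset.range (n + 2),
        ∫ y, (S i).indicator (fun _ => (4 / 2 ^ i : ℝ)) y ≤ 8 * 4 ^ (d - 1) / 2 ^ n := by
      intro i _
      rw [integral_indicator_const _ (mS i), smul_eq_mul]
      have wS : volume.real (S i) ≤ 2 * (2 ^ i / 2 ^ n) * (2 * 2) ^ (d - 1) :=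
        ENNReal.toReal_le_of_le_ofReal (by positivity) (vS i)
      rw [show (2 * 2 : ℝ) = 4 by norm_num] at wS
      calc volume.real (S i) * (4 / 2 ^ i)
          ≤ 2 * (2 ^ i / 2 ^ n) * 4 ^ (d - 1) * (4 / 2 ^ i) := by gcongr
        _ = _ := by field_simp; norm_num
    refine (Finset.sum_le_sum w).trans ?_
    rw [Finset.sum_const, Finset.card_range, nsmul_eq_mul, ← mul_div_assoc]
    refine div_le_div_of_nonneg_right ?_ h2n.le
    have h4 : (0 : ℝ) < 4 ^ (d - 1) := by positivity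
    have h5 : (0 : ℝ) ≤ n := Nat.cast_nonneg n
    push_cast
    nlinarith [mul_nonneg h5 h4.le]

theorem rdVol3_pow (d : ℕ) : (3 : ℝ) ^ d ≤ 2 * (4 * d) ^ d := by
  rcases Nat.eq_zero_or_pos d with rfl | h
  · simp
  · have h1 : (1 : ℝ) ≤ d := by exact_mod_cast h
    have h2 : (3 : ℝ) ^ d ≤ (4 * d) ^ d := pow_le_pow_left₀ (by norm_num) (by linarith) d
    have h3 : (0 : ℝ) ≤ (4 * d) ^ d := by positivity
    linarith

theorem vol_pf {d : ℕ} : S_Vol d := by
  rintro c n T (⟨rfl, rfl⟩ | ⟨u, v, a, b, hu, -, -, rfl⟩)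
  · rw [inter_univ, volume_big, pow_zero, mul_one]
    exact ENNReal.ofReal_le_ofReal (mul_le_mul_of_nonneg_right (rdVol3_pow d) (sz_pos _).le)
  · have hd := geo_pos hu
    obtain ⟨y₀, hy₀⟩ := cube_nonempty c
    obtain ⟨R, -, hR⟩ := geo_rot hu ⟨0, hd⟩
    have hb := geo_box R ⟨0, hd⟩ (fun i => if i = ⟨0, hd⟩ then a else R y₀ i)
      (p := 2 ^ (c.1 - n)) (q := 2 * d * 2 ^ c.1) (by positivity) (by positivity)
    refine le_trans (measure_mono ?_) (hb.le.trans (ENNReal.ofReal_le_ofReal ?_))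
    · rintro y ⟨hy, h1, -⟩
      refine ⟨?_, fun i hi => ?_⟩
      · rw [if_pos rfl, hR]
        exact h1
      · rw [if_neg hi, abs_sub_comm, ← PiLp.sub_apply, ← map_sub]
        exact (geo_coord _ i).trans ((R.norm_map _).le.trans (norm_sub_le_of_big hy₀ hy))
    · obtain ⟨e, rfl⟩ : ∃ e, d = e + 1 := ⟨d - 1, by omega⟩
      have h1 : (1 : ℝ) ≤ 4 * ((e + 1 : ℕ) : ℝ) := by
        have : (1 : ℝ) ≤ ((e + 1 : ℕ) : ℝ) := by exact_mod_cast hd
        linarith
      have h2 := pow_le_pow_right₀ h1 (Nat.le_succ e)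
      have h3 : (0 : ℝ) < 2 ^ c.1 := cube_two _
      calc 2 * (2 : ℝ) ^ (c.1 - n) * (2 * (2 * ((e + 1 : ℕ) : ℝ) * 2 ^ c.1)) ^ (e + 1 - 1)
          = 2 * (4 * ((e + 1 : ℕ) : ℝ)) ^ e * (1 / 2) ^ n * sz (e + 1) c.1 := by
            rw [Nat.add_sub_cancel, sz, zpow_sub₀ two_ne_zero, zpow_natCast, one_div, inv_pow,
              show 2 * (2 * ((e + 1 : ℕ) : ℝ) * 2 ^ c.1) = 4 * ((e + 1 : ℕ) : ℝ) * 2 ^ c.1 by ring,
              mul_pow _ ((2 : ℝ) ^ c.1), pow_succ]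
            ring
        _ ≤ _ := by
            have := (sz_pos (d := e + 1) c.1).le
            gcongr

theorem tube_pf {d : ℕ} : S_Tube d := by
  intro u a b hu ha hb
  obtain ⟨R, hRu, hR⟩ := geo_rot hu ⟨0, geo_pos hu⟩
  rw [← geo_box R ⟨0, geo_pos hu⟩ 0 ha hb]
  refine measure_mono fun y hy => ⟨?_, fun i hi => ?_⟩
  · rw [Pi.zero_apply, sub_zero]
    exact (geo_coord _ _).trans ((R.norm_map y).le.trans hy.1)
  · rw [Pi.zero_apply, sub_zero]
    have e : R y i = R (y - ⟪y, u⟫ • u) i := by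
      rw [map_sub, map_smul, hRu]
      simp [hi]
    rw [e]
    exact (geo_coord _ i).trans ((R.norm_map _).le.trans hy.2)

theorem rdAvg3_mul {α : Type*} [MeasurableSpace α] {m : Measure α} {g c : α → ℝ}
    (hg : Integrable g m) (hc : AEStronglyMeasurable c m) (h1 : ∀ᵐ y ∂m, |c y| ≤ 1) :
    Integrable (fun y => g y * c y) m := by
  refine hg.norm.mono' (hg.aestronglyMeasurable.mul hc) (h1.mono fun y hy => ?_)
  rw [norm_mul]
  exact mul_le_of_le_one_right (norm_nonneg _) hy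

theorem rdAvg3_sq {d : ℕ} {H : E d → ℝ} (hH : Nice H) (ζ : E d) :
    ‖FT H ζ‖ ^ 2 = ∫ p : E d × E d, H p.1 * H p.2 *
      Real.cos (2 * Real.pi * (⟪p.2, ζ⟫ - ⟪p.1, ζ⟫)) ∂(volume.prod volume) := by
  have ic : Integrable fun y => H y * Real.cos (-2 * Real.pi * ⟪y, ζ⟫) :=
    rdAvg3_mul hH.integrable (by fun_prop) (.of_forall fun _ => Real.abs_cos_le_one _)
  have is : Integrable fun y => H y * Real.sin (-2 * Real.pi * ⟪y, ζ⟫) :=
    rdAvg3_mul hH.integrable (by fun_prop) (.of_forall fun _ => Real.abs_sin_le_one _)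
  have e : FT H ζ = ((∫ y, H y * Real.cos (-2 * Real.pi * ⟪y, ζ⟫) : ℝ) : ℂ) +
      ((∫ y, H y * Real.sin (-2 * Real.pi * ⟪y, ζ⟫) : ℝ) : ℂ) * Complex.I := by
    rw [FT_apply, ← integral_complex_ofReal, ← integral_complex_ofReal, ← integral_mul_const,
      ← integral_add ic.ofReal (is.ofReal.mul_const _)]
    refine integral_congr_ae (.of_forall fun y => ?_)
    simp only [ee]
    rw [Complex.exp_mul_I, ← Complex.ofReal_cos, ← Complex.ofReal_sin]
    simp only [Complex.ofReal_mul (H y)]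
    ring
  rw [e, Complex.sq_norm, Complex.normSq_add_mul_I, sq, sq, ← integral_prod_mul, ← integral_prod_mul,
    ← integral_add (ic.mul_prod ic) (is.mul_prod is)]
  refine integral_congr_ae (.of_forall fun p => ?_)
  simp only
  rw [show 2 * Real.pi * (⟪p.2, ζ⟫ - ⟪p.1, ζ⟫) =
    -2 * Real.pi * ⟪p.1, ζ⟫ - -2 * Real.pi * ⟪p.2, ζ⟫ by ring, Real.cos_sub]
  ring

theorem rdAvg3_le {a s : ℝ} (hs : 1 ≤ s) : |Real.cos (a * s⁻¹) * (s ^ 2)⁻¹| ≤ 1 := by
  rw [abs_mul]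
  refine mul_le_one₀ (Real.abs_cos_le_one _) (abs_nonneg _) ?_
  rw [abs_of_nonneg (by positivity)]
  exact inv_le_one_of_one_le₀ (one_le_pow₀ hs)

theorem rdAvg3_kap {τ l : ℝ} (hl : 0 < l) :
    |∫ s in (1 : ℝ)..2, Real.cos (2 * Real.pi * τ * s⁻¹) * (s ^ 2)⁻¹| ≤
      (if |τ| ≤ l then 1 else 0) + 1 / l := by
  split_ifs with h
  · have := intervalIntegral.norm_integral_le_of_norm_le_const (a := (1 : ℝ)) (b := 2) (C := 1)
      (f := fun s => Real.cos (2 * Real.pi * τ * s⁻¹) * (s ^ 2)⁻¹) fun s hs => by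
        rw [uIoc_of_le (by norm_num)] at hs
        exact rdAvg3_le hs.1.le
    rw [Real.norm_eq_abs] at this
    have h2 : 0 < 1 / l := by positivity
    norm_num at this
    linarith
  · have hτ : l < |τ| := not_le.1 h
    have h0 : τ ≠ 0 := abs_pos.1 (hl.trans hτ)
    have hp := Real.pi_gt_three
    have ha : 2 * Real.pi * τ ≠ 0 := by positivity
    have hab : 2 * l ≤ |2 * Real.pi * τ| := by
      rw [abs_mul, abs_of_pos (by positivity : 0 < 2 * Real.pi)]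
      nlinarith
    generalize 2 * Real.pi * τ = a at ha hab
    rw [intervalIntegral.integral_eq_sub_of_hasDerivAt (f := fun s => -Real.sin (a * s⁻¹) / a)
      (fun s hs => ?_) ?_]
    · rw [zero_add, ← sub_div, abs_div, div_le_div_iff₀ (abs_pos.2 ha) hl]
      have b1 := abs_le.1 (Real.abs_sin_le_one (a * (2 : ℝ)⁻¹))
      have b2 := abs_le.1 (Real.abs_sin_le_one (a * (1 : ℝ)⁻¹))
      have b3 : |-Real.sin (a * (2 : ℝ)⁻¹) - -Real.sin (a * (1 : ℝ)⁻¹)| ≤ 2 :=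
        abs_le.2 ⟨by linarith, by linarith⟩
      nlinarith
    · refine ContinuousOn.intervalIntegrable fun s hs => ?_
      rw [uIcc_of_le (by norm_num)] at hs
      have hs0 : s ≠ 0 := by linarith [hs.1]
      have hs1 : s ^ 2 ≠ 0 := pow_ne_zero 2 hs0
      exact ContinuousAt.continuousWithinAt (by fun_prop (disch := assumption))
    · rw [uIcc_of_le (by norm_num)] at hs
      have hs0 : s ≠ 0 := by linarith [hs.1]
      refine ((((hasDerivAt_inv hs0).const_mul a).sin.fun_neg).div_const a).congr_deriv ?_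
      generalize Real.cos (a * s⁻¹) = c
      field_simp

theorem avg_pf {d : ℕ} : S_Avg d := by
  intro H ξ l η μ hH hl hμ hη
  have i1 := hH.integrable
  have iP : Integrable (fun p : E d × E d => H p.1 * H p.2) (volume.prod volume) := i1.mul_prod i1
  have iA : Integrable (fun p : E d × E d => |H p.1| * |H p.2|) (volume.prod volume) :=
    i1.abs.mul_prod i1.abs
  have hη0 : 0 ≤ η := (integral_nonneg fun _ => abs_nonneg _).trans (hη 0)
  have hν : 0 ≤ ∫ y, |H y| := integral_nonneg fun _ => abs_nonneg _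
  have cF : ContinuousOn (fun s : ℝ => ‖FT H (s⁻¹ • ξ)‖ ^ 2) (uIcc 1 2) := fun s hs => by
    rw [uIcc_of_le (by norm_num)] at hs
    have hs0 : s ≠ 0 := by linarith [hs.1]
    have := FT_cont hH
    exact ContinuousAt.continuousWithinAt (by fun_prop (disch := assumption))
  have cG : ContinuousOn (fun s : ℝ => (s ^ 2)⁻¹) (uIcc 1 2) := fun s hs => by
    rw [uIcc_of_le (by norm_num)] at hs
    have hs1 : s ^ 2 ≠ 0 := pow_ne_zero 2 (by linarith [hs.1])
    exact ContinuousAt.continuousWithinAt (by fun_prop (disch := assumption))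
  have hS : MeasurableSet {p : E d × E d | |⟪p.2, ξ⟫ - ⟪p.1, ξ⟫| ≤ l} :=
    measurableSet_le (by fun_prop) (by fun_prop)
  have s1 : ∫ s in (1 : ℝ)..2, ‖FT H (s⁻¹ • ξ)‖ ^ 2 ≤
      4 * ∫ s in (1 : ℝ)..2, ‖FT H (s⁻¹ • ξ)‖ ^ 2 * (s ^ 2)⁻¹ := by
    rw [← intervalIntegral.integral_const_mul]
    refine intervalIntegral.integral_mono_on (by norm_num) cF.intervalIntegrable
      ((cF.mul cG).intervalIntegrable.const_mul 4) fun s hs => ?_
    have h0 : 0 < s := by linarith [hs.1]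
    have h1 : 1 ≤ 4 * (s ^ 2)⁻¹ := by
      rw [← div_eq_mul_inv, le_div_iff₀ (by positivity)]
      nlinarith [hs.1, hs.2]
    nlinarith [sq_nonneg ‖FT H (s⁻¹ • ξ)‖]
  have s2 : ∫ s in (1 : ℝ)..2, ‖FT H (s⁻¹ • ξ)‖ ^ 2 * (s ^ 2)⁻¹ =
      ∫ p : E d × E d, (H p.1 * H p.2 * ∫ s in (1 : ℝ)..2,
        Real.cos (2 * Real.pi * (⟪p.2, ξ⟫ - ⟪p.1, ξ⟫) * s⁻¹) * (s ^ 2)⁻¹) ∂(volume.prod volume) := by
    simp only [intervalIntegral.integral_of_le (show (1 : ℝ) ≤ 2 by norm_num),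
      ← integral_const_mul]
    rw [integral_integral_swap]
    · refine integral_congr_ae (.of_forall fun s => ?_)
      simp only
      rw [rdAvg3_sq hH, ← integral_mul_const]
      refine integral_congr_ae (.of_forall fun p => ?_)
      simp only [real_inner_smul_right]
      rw [mul_assoc _ _ (s ^ 2)⁻¹]
      congr 3
      ring
    · have h1 : Integrable (fun _ : ℝ => (1 : ℝ)) (volume.restrict (Ioc (1 : ℝ) 2)) :=
        integrable_const _
      have h2 := iP.mul_prod h1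
      simp only [mul_one] at h2
      refine rdAvg3_mul h2 (Measurable.aestronglyMeasurable (by fun_prop)) ?_
      filter_upwards [Measure.quasiMeasurePreserving_snd.ae (ae_restrict_mem measurableSet_Ioc)]
        with q hq
      exact rdAvg3_le hq.1.le
  have iI := iA.indicator hS
  have s3 : ∫ p : E d × E d, (H p.1 * H p.2 * ∫ s in (1 : ℝ)..2,
        Real.cos (2 * Real.pi * (⟪p.2, ξ⟫ - ⟪p.1, ξ⟫) * s⁻¹) * (s ^ 2)⁻¹) ∂(volume.prod volume) ≤
      ∫ p : E d × E d, {p : E d × E d | |⟪p.2, ξ⟫ - ⟪p.1, ξ⟫| ≤ l}.indicator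
        (fun p => |H p.1| * |H p.2|) p + |H p.1| * |H p.2| * (1 / l) ∂(volume.prod volume) := by
    refine (Real.le_norm_self _).trans (norm_integral_le_of_norm_le (iI.add (iA.mul_const _))
      (.of_forall fun p => ?_))
    rw [Real.norm_eq_abs, abs_mul, abs_mul]
    refine (mul_le_mul_of_nonneg_left (rdAvg3_kap hl) (by positivity)).trans (le_of_eq ?_)
    simp only [indicator, mem_ofPred_eq]
    split_ifs <;> ring
  have s4 : ∫ p : E d × E d, {p : E d × E d | |⟪p.2, ξ⟫ - ⟪p.1, ξ⟫| ≤ l}.indicator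
      (fun p => |H p.1| * |H p.2|) p ∂(volume.prod volume) ≤ μ * η := by
    rw [integral_prod _ iI]
    refine (integral_mono iI.integral_prod_left (i1.abs.mul_const η) fun y => ?_).trans ?_
    · refine le_trans (le_of_eq ?_) (mul_le_mul_of_nonneg_left (hη ⟪y, ξ⟫) (abs_nonneg (H y)))
      rw [← integral_indicator (slab_meas ξ _ l), ← integral_const_mul]
      refine integral_congr_ae (.of_forall fun y' => ?_)
      simp only [indicator, mem_ofPred_eq]
      split_ifs <;> simp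
    · rw [integral_mul_const]
      exact mul_le_mul_of_nonneg_right hμ hη0
  rw [integral_add iI (iA.mul_const _), integral_mul_const,
    integral_prod_mul (fun y => |H y|) (fun y => |H y|)] at s3
  have s5 : (∫ y, |H y|) * (∫ y, |H y|) * (1 / l) ≤ μ ^ 2 / l := by
    rw [mul_one_div, sq]
    exact div_le_div_of_nonneg_right (mul_le_mul hμ hμ hν (hν.trans hμ)) hl.le
  linarith

theorem rdGood3_cs {f : ℝ → ℝ} (hf : Continuous f) :
    (∫ σ in (1 : ℝ)..2, f σ) ^ 2 ≤ ∫ σ in (1 : ℝ)..2, f σ ^ 2 := by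
  set I := ∫ σ in (1 : ℝ)..2, f σ with hI
  have h0 : 0 ≤ ∫ σ in (1 : ℝ)..2, (f σ - I) ^ 2 :=
    intervalIntegral.integral_nonneg (by norm_num) fun _ _ => sq_nonneg _
  have e : ∀ σ, (f σ - I) ^ 2 = f σ ^ 2 - (2 * I) * f σ + I ^ 2 := by
    intro σ; ring
  have i1 : IntervalIntegrable (fun σ => f σ ^ 2) volume 1 2 :=
    (hf.pow 2).intervalIntegrable _ _
  have i2 : IntervalIntegrable (fun σ => (2 * I) * f σ) volume 1 2 :=
    (continuous_const.mul hf).intervalIntegrable _ _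
  simp only [e] at h0
  rw [intervalIntegral.integral_add (i1.sub i2) intervalIntegrable_const,
    intervalIntegral.integral_sub i1 i2, intervalIntegral.integral_const_mul,
    intervalIntegral.integral_const, ← hI, smul_eq_mul] at h0
  nlinarith

theorem rdGood3_KK {d : ℕ} {k : E d → ℝ} (hk : IsKer k) {l : ℝ} (hl : 0 < l) (ξ : E d) :
    ‖FT (KK k l) ξ‖ ^ 2 ≤ ∫ s in (1 : ℝ)..2, ‖FT k (l • s • ξ)‖ ^ 2 := by
  have hc := FT_cont hk.nice
  have c1 : Continuous fun s : ℝ => ‖FT k (l • s • ξ)‖ := by fun_prop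
  refine le_trans ?_ (rdGood3_cs c1)
  refine pow_le_pow_left₀ (norm_nonneg _) ?_ 2
  rw [FT_KK hk hl]
  refine intervalIntegral.norm_integral_le_of_norm_le (by norm_num)
    (Filter.Eventually.of_forall fun s hs => ?_) (c1.intervalIntegrable _ _)
  rw [norm_div, mul_smul, Complex.norm_real, Real.norm_eq_abs, abs_of_pos (by linarith [hs.1])]
  exact div_le_self (norm_nonneg _) hs.1.le

theorem rdGood3_scale {d : ℕ} {f : E d → ℝ≥0∞} (hf : Measurable f) {t : ℝ} (ht : 0 < t) :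
    ∫⁻ ξ, f (t • ξ) = ENNReal.ofReal (t ^ d)⁻¹ * ∫⁻ η, f η := by
  have h := lintegral_map (μ := (volume : Measure (E d))) hf (measurable_const_smul t)
  rw [Measure.map_addHaar_smul volume ht.ne', lintegral_smul_measure, finrank_euclideanSpace_fin,
    abs_of_pos (by positivity), smul_eq_mul] at h
  exact h.symm

theorem rdGood3_abs {d : ℕ} {A K : E d → ℝ≥0∞} (hA : Measurable A) (hK : Measurable K)
    {G : Set (E d)} (hG : MeasurableSet G) {B : ℝ≥0∞}
    (h : ∀ ξ ∈ G, ∀ t ∈ Icc (1 : ℝ) 2, ∫⁻ s in Ioc (1 : ℝ) 2, K (s⁻¹ • t • ξ) ≤ B) :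
    ∫⁻ ξ in G, (∫⁻ s in Ioc (1 : ℝ) 2, A (s • ξ)) * K ξ ≤ B * ∫⁻ η, A η := by
  have hI : Measurable (G.indicator K) := hK.indicator hG
  have m1 : Measurable fun p : E d × ℝ => G.indicator K p.1 * A (p.2 • p.1) :=
    (hI.comp measurable_fst).mul (hA.comp (measurable_snd.smul measurable_fst))
  have m2 : Measurable fun p : ℝ × E d => G.indicator K (p.1⁻¹ • p.2) * A p.2 :=
    (hI.comp (measurable_fst.inv.smul measurable_snd)).mul (hA.comp measurable_snd)
  calc ∫⁻ ξ in G, (∫⁻ s in Ioc (1 : ℝ) 2, A (s • ξ)) * K ξ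
      = ∫⁻ ξ, ∫⁻ s in Ioc (1 : ℝ) 2, G.indicator K ξ * A (s • ξ) := by
        rw [← lintegral_indicator hG]
        refine lintegral_congr fun ξ => ?_
        rw [lintegral_const_mul _ (show Measurable fun s : ℝ => A (s • ξ) from
          hA.comp (measurable_id.smul measurable_const))]
        by_cases hξ : ξ ∈ G
        · rw [indicator_of_mem hξ, indicator_of_mem hξ, mul_comm]
        · rw [indicator_of_notMem hξ, indicator_of_notMem hξ, zero_mul]
    _ = ∫⁻ s in Ioc (1 : ℝ) 2, ∫⁻ ξ, G.indicator K ξ * A (s • ξ) :=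
        lintegral_lintegral_swap m1.aemeasurable
    _ ≤ ∫⁻ s in Ioc (1 : ℝ) 2, ∫⁻ η, G.indicator K (s⁻¹ • η) * A η := by
        refine setLIntegral_mono' measurableSet_Ioc fun s hs => ?_
        have hs0 : 0 < s := by linarith [hs.1]
        have e := rdGood3_scale (f := fun η => G.indicator K (s⁻¹ • η) * A η)
          ((hI.comp (measurable_const_smul s⁻¹)).mul hA) hs0
        simp only [inv_smul_smul₀ hs0.ne'] at e
        rw [e]
        refine mul_le_of_le_one_left' ?_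
        rw [← ENNReal.ofReal_one]
        exact ENNReal.ofReal_le_ofReal (inv_le_one_of_one_le₀ (one_le_pow₀ hs.1.le))
    _ = ∫⁻ η, ∫⁻ s in Ioc (1 : ℝ) 2, G.indicator K (s⁻¹ • η) * A η :=
        lintegral_lintegral_swap m2.aemeasurable
    _ ≤ ∫⁻ η, B * A η := by
        refine lintegral_mono fun η => ?_
        rw [lintegral_mul_const _ (show Measurable fun s : ℝ => G.indicator K (s⁻¹ • η) from
          hI.comp (measurable_inv.smul measurable_const))]
        refine mul_le_mul_left ?_ _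
        by_cases hη : ∃ t ∈ Icc (1 : ℝ) 2, t⁻¹ • η ∈ G
        · obtain ⟨t, ht, hm⟩ := hη
          have h1 := h _ hm t ht
          have ht0 : t ≠ 0 := (lt_of_lt_of_le one_pos ht.1).ne'
          simp only [smul_inv_smul₀ ht0] at h1
          exact le_trans (lintegral_mono fun s => indicator_le_self G K _) h1
        · push Not at hη
          refine le_trans (le_of_eq ?_) zero_le
          refine (setLIntegral_congr_fun measurableSet_Ioc (g := fun _ => 0) fun s hs => ?_).trans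
            lintegral_zero
          exact indicator_of_notMem (hη s (Ioc_subset_Icc_self hs)) K
    _ = B * ∫⁻ η, A η := lintegral_const_mul _ hA

theorem rdGood3_of {f : ℝ → ℝ} (hf : ContinuousOn f (Icc 1 2)) (h0 : ∀ s, 0 ≤ f s) :
    ENNReal.ofReal (∫ s in (1 : ℝ)..2, f s) = ∫⁻ s in Ioc (1 : ℝ) 2, ENNReal.ofReal (f s) := by
  rw [intervalIntegral.integral_of_le (by norm_num)]
  exact ofReal_integral_eq_lintegral_ofReal
    (hf.integrableOn_Icc.mono_set Ioc_subset_Icc_self) (Filter.Eventually.of_forall h0)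

theorem good_pf {d : ℕ} : S_Good d := by
  intro k H l B G hk hH hl hB hG h
  have ck := FT_cont hk.nice
  have cH := FT_cont hH
  have hA : Measurable fun η : E d => ENNReal.ofReal (‖FT k (l • η)‖ ^ 2) :=
    (show Continuous fun η : E d => ‖FT k (l • η)‖ ^ 2 by fun_prop).measurable.ennreal_ofReal
  have hK : Measurable fun η : E d => ENNReal.ofReal (‖FT H η‖ ^ 2) :=
    (show Continuous fun η : E d => ‖FT H η‖ ^ 2 by fun_prop).measurable.ennreal_ofReal
  have main := rdGood3_abs hA hK hG (B := ENNReal.ofReal B) fun ξ hξ t ht => by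
    rw [← rdGood3_of (f := fun s => ‖FT H (s⁻¹ • t • ξ)‖ ^ 2) ?_ fun _ => sq_nonneg _]
    · exact ENNReal.ofReal_le_ofReal (h ξ hξ t ht)
    · refine ((cH.comp_continuousOn ?_).norm).pow 2
      exact (continuousOn_id.inv₀ fun s hs => (lt_of_lt_of_le one_pos hs.1).ne').smul
        continuousOn_const
  have tot : ∫⁻ η : E d, ENNReal.ofReal (‖FT k (l • η)‖ ^ 2) ≤ ENNReal.ofReal (4 ^ d / l ^ d) := by
    have m : Measurable fun η : E d => ENNReal.ofReal (‖FT k η‖ ^ 2) :=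
      (show Continuous fun η : E d => ‖FT k η‖ ^ 2 by fun_prop).measurable.ennreal_ofReal
    rw [rdGood3_scale m hl, ← ofReal_integral_eq_lintegral_ofReal (planch hk.nice).1
      (Filter.Eventually.of_forall fun _ => sq_nonneg _), (planch hk.nice).2,
      ← ENNReal.ofReal_mul (by positivity), div_eq_inv_mul]
    exact ENNReal.ofReal_le_ofReal (mul_le_mul_of_nonneg_left hk.sq_le (by positivity))
  refine le_trans (lintegral_mono fun ξ => ?_) (main.trans ?_)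
  · rw [ENNReal.ofReal_mul (sq_nonneg _),
      ← rdGood3_of (f := fun s => ‖FT k (l • s • ξ)‖ ^ 2) (by fun_prop) fun _ => sq_nonneg _]
    exact mul_le_mul_left (ENNReal.ofReal_le_ofReal (rdGood3_KK hk hl ξ)) _
  · refine (mul_le_mul_right tot _).trans (le_of_eq ?_)
    rw [← ENNReal.ofReal_mul hB]
    congr 1
    ring

theorem rdCov3_greedy {α : Type} (B : α → Prop) (Sp : α → α → Prop) (N : ℕ)
    (h : ∀ G : Finset α, G.card ≤ N → (∀ a ∈ G, B a) → ∃ b, B b ∧ ∀ a ∈ G, Sp a b) (n : ℕ)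
    (hn : n ≤ N) : ∃ f : ℕ → α, (∀ i < n, B (f i)) ∧ ∀ j < n, ∀ i < j, Sp (f i) (f j) := by
  classical
  induction n with
  | zero =>
    obtain ⟨b, -⟩ := h ∅ (by simp) (by simp)
    exact ⟨fun _ => b, by simp, by simp⟩
  | succ n ih =>
    obtain ⟨f, h1, h2⟩ := ih (by omega)
    obtain ⟨b, hb, hs⟩ := h ((Finset.range n).image f)
      (Finset.card_image_le.trans (by simp; omega)) (by
        intro a ha
        obtain ⟨i, hi, rfl⟩ := Finset.mem_image.1 ha
        exact h1 i (Finset.mem_range.1 hi))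
    refine ⟨fun i => if i < n then f i else b, fun i _ => ?_, fun j hj i hi => ?_⟩
    · by_cases e : i < n
      · simpa only [if_pos e] using h1 i e
      · simpa only [if_neg e] using hb
    · have e : i < n := by omega
      by_cases e' : j < n
      · simpa only [if_pos e, if_pos e'] using h2 j e' i hi
      · simpa only [if_pos e, if_neg e'] using
          hs (f i) (Finset.mem_image_of_mem f (Finset.mem_range.2 e))

theorem rdCov3_point {α : Type} (S : ℕ → Set α) (h : α → ℝ) (hh : ∀ y, 0 ≤ h y) (n : ℕ) (y : α) :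
    ∑ j ∈ Finset.range n, (S j).indicator h y ≤
      h y + ∑ j ∈ Finset.range n, ∑ i ∈ Finset.range j, (S i ∩ S j).indicator h y := by
  classical
  have hnn : ∀ i j, 0 ≤ (S i ∩ S j).indicator h y := fun i j =>
    indicator_nonneg (fun z _ => hh z) y
  have hs : ∀ j, 0 ≤ ∑ i ∈ Finset.range j, (S i ∩ S j).indicator h y := fun j =>
    Finset.sum_nonneg fun i _ => hnn i j
  by_cases hy : ∃ j, y ∈ S j
  · have key : ∀ j, (S j).indicator h y ≤ (if j = Nat.find hy then h y else 0) +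
        ∑ i ∈ Finset.range j, (S i ∩ S j).indicator h y := fun j => by
      by_cases hj : y ∈ S j
      · rw [indicator_of_mem hj]
        by_cases e : j = Nat.find hy
        · rw [if_pos e]; linarith [hs j]
        · rw [if_neg e, zero_add]
          have hlt : Nat.find hy < j := lt_of_le_of_ne (Nat.find_min' hy hj) (Ne.symm e)
          have := Finset.single_le_sum (f := fun i => (S i ∩ S j).indicator h y)
            (fun i _ => hnn i j) (Finset.mem_range.2 hlt)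
          rwa [indicator_of_mem (show y ∈ S (Nat.find hy) ∩ S j from
            ⟨Nat.find_spec hy, hj⟩)] at this
      · rw [indicator_of_notMem hj]
        refine add_nonneg ?_ (hs j)
        split_ifs
        · exact hh y
        · exact le_rfl
    refine (Finset.sum_le_sum fun j _ => key j).trans ?_
    rw [Finset.sum_add_distrib, Finset.sum_ite_eq']
    refine add_le_add ?_ le_rfl
    split_ifs
    · exact le_rfl
    · exact hh y
  · rw [Finset.sum_eq_zero fun j _ => indicator_of_notMem (fun hj => hy ⟨j, hj⟩) h]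
    exact add_nonneg (hh y) (Finset.sum_nonneg fun j _ => hs j)

theorem rdCov3_int {d : ℕ} (S : ℕ → Set (E d)) (hS : ∀ j, MeasurableSet (S j)) (h : E d → ℝ)
    (hh : ∀ y, 0 ≤ h y) (hi : Integrable h) (n : ℕ) :
    ∑ j ∈ Finset.range n, ∫ y in S j, h y ≤
      (∫ y, h y) + ∑ j ∈ Finset.range n, ∑ i ∈ Finset.range j, ∫ y in S i ∩ S j, h y := by
  have h1 : ∀ j, Integrable ((S j).indicator h) := fun j => hi.indicator (hS j)
  have h2 : ∀ i j, Integrable ((S i ∩ S j).indicator h) := fun i j =>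
    hi.indicator ((hS i).inter (hS j))
  have h3 : ∀ j, Integrable fun y => ∑ i ∈ Finset.range j, (S i ∩ S j).indicator h y := fun j =>
    integrable_finsetSum _ fun i _ => h2 i j
  have h4 : Integrable fun y =>
      ∑ j ∈ Finset.range n, ∑ i ∈ Finset.range j, (S i ∩ S j).indicator h y :=
    integrable_finsetSum _ fun j _ => h3 j
  have := integral_mono (integrable_finsetSum (Finset.range n) fun j _ => h1 j) (hi.add h4)
    fun y => rdCov3_point S h hh n y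
  rw [integral_finsetSum _ fun j _ => h1 j] at this
  simp only [Pi.add_apply] at this
  rw [integral_add hi h4, integral_finsetSum _ fun j _ => h3 j] at this
  simp only [integral_finsetSum _ fun i _ => h2 i _, integral_indicator (hS _),
    integral_indicator ((hS _).inter (hS _))] at this
  exact this

theorem rdCov3_geo {d : ℕ} {a b u : E d} {ρ l R c c' : ℝ} (hρ : 0 < ρ) (hl : 0 < l) (hR : 0 < R)
    (ha : ρ ≤ ‖a‖) (hb : ‖b‖ ≤ 2 * ρ) (hu : u = ‖a‖⁻¹ • a) (hw : R < ‖b - ⟪b, u⟫ • u‖) :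
    ∃ (v : E d) (α β : ℝ), ‖u‖ = 1 ∧ ‖v‖ = 1 ∧ ⟪u, v⟫ = 0 ∧
      {y : E d | |⟪y, a⟫ - c| ≤ l} ∩ {y : E d | |⟪y, b⟫ - c'| ≤ l} ⊆ pl u v α β (3 * l / R) := by
  have ha0 : 0 < ‖a‖ := hρ.trans_le ha
  have hu1 : ‖u‖ = 1 := by
    rw [hu, norm_smul, norm_inv, norm_norm, inv_mul_cancel₀ ha0.ne']
  obtain ⟨t, ht⟩ : ∃ t : ℝ, t = ⟪b, u⟫ := ⟨_, rfl⟩
  rw [← ht] at hw
  obtain ⟨w, hwd⟩ : ∃ w : E d, w = b - t • u := ⟨_, rfl⟩
  rw [← hwd] at hw
  have hw0 : 0 < ‖w‖ := hR.trans hw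
  have htb : |t| ≤ 2 * ρ := by
    have := abs_real_inner_le_norm b u
    rw [hu1, mul_one, ← ht] at this
    exact this.trans hb
  have hwb : ‖w‖ ≤ ‖b‖ := by
    have e : ‖w‖ ^ 2 = ‖b‖ ^ 2 - t ^ 2 := by
      rw [hwd, norm_sub_sq_real, real_inner_smul_right, ← ht, norm_smul, hu1, mul_one,
        Real.norm_eq_abs, sq_abs]
      ring
    exact (pow_le_pow_iff_left₀ (norm_nonneg _) (norm_nonneg _) two_ne_zero).1
      (by rw [e]; linarith [sq_nonneg t])
  refine ⟨‖w‖⁻¹ • w, c / ‖a‖, (c' - t * (c / ‖a‖)) / ‖w‖, hu1, ?_, ?_, ?_⟩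
  · rw [norm_smul, norm_inv, norm_norm, inv_mul_cancel₀ hw0.ne']
  · rw [real_inner_smul_right, hwd, inner_sub_right, real_inner_smul_right,
      real_inner_self_eq_norm_sq, hu1, real_inner_comm, ← ht]
    ring
  · rintro y ⟨h1, h2⟩
    simp only [mem_ofPred_eq] at h1 h2
    have e1 : |⟪y, u⟫ - c / ‖a‖| ≤ l / ρ := by
      have : ⟪y, u⟫ - c / ‖a‖ = (⟪y, a⟫ - c) / ‖a‖ := by
        rw [hu, real_inner_smul_right]; ring
      rw [this, abs_div, abs_of_pos ha0]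
      exact div_le_div₀ hl.le h1 hρ ha
    refine ⟨e1.trans ?_, ?_⟩
    · rw [div_le_div_iff₀ hρ hR]
      nlinarith
    · have : ⟪y, ‖w‖⁻¹ • w⟫ - (c' - t * (c / ‖a‖)) / ‖w‖ =
          ((⟪y, b⟫ - c') - t * (⟪y, u⟫ - c / ‖a‖)) / ‖w‖ := by
        rw [real_inner_smul_right]
        have : ⟪y, w⟫ = ⟪y, b⟫ - t * ⟪y, u⟫ := by
          rw [hwd, inner_sub_right, real_inner_smul_right]
        rw [this]; ring
      rw [this, abs_div, abs_of_pos hw0]
      refine div_le_div₀ (by positivity) ((abs_sub _ _).trans ?_) hR hw.le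
      rw [abs_mul]
      have e2 : |t| * |⟪y, u⟫ - c / ‖a‖| ≤ 2 * ρ * (l / ρ) :=
        mul_le_mul htb e1 (abs_nonneg _) (by positivity)
      have e3 : 2 * ρ * (l / ρ) = 2 * l := by field_simp
      linarith

theorem cov_pf {d : ℕ} : S_Cov d := by
  classical
  intro H μ ε ρ l R N hH hρ hl hR hN hμ hε hNε
  by_contra hcon
  obtain ⟨f, h1, h2⟩ := rdCov3_greedy
    (fun p : E d × ℝ => ρ ≤ ‖p.1‖ ∧ ‖p.1‖ ≤ 2 * ρ ∧
      2 * μ / N < ∫ y in {y : E d | |⟪y, p.1⟫ - p.2| ≤ l}, |H y|)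
    (fun p q => R < ‖q.1 - ⟪q.1, ‖p.1‖⁻¹ • p.1⟫ • ‖p.1‖⁻¹ • p.1‖) N (by
      intro G hG hB
      by_contra hno
      refine hcon ⟨G.image fun p => ‖p.1‖⁻¹ • p.1, Finset.card_image_le.trans hG, ?_, ?_⟩
      · intro u hu
        obtain ⟨p, hp, rfl⟩ := Finset.mem_image.1 hu
        rw [norm_smul, norm_inv, norm_norm, inv_mul_cancel₀ (hρ.trans_le (hB p hp).1).ne']
      · rintro ξ a1 a2 ⟨c, a3⟩
        by_contra hu
        exact hno ⟨(ξ, c), ⟨a1, a2, a3⟩, fun p hp =>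
          not_le.1 fun hle => hu ⟨_, Finset.mem_image_of_mem _ hp, hle⟩⟩) N le_rfl
  have hi : Integrable fun y => |H y| := hH.abs.integrable
  have hμ0 : 0 ≤ μ := (integral_nonneg fun y => abs_nonneg _).trans hμ
  have hN0 : (0 : ℝ) < N := by exact_mod_cast hN
  have h3 := rdCov3_int (fun j => {y : E d | |⟪y, (f j).1⟫ - (f j).2| ≤ l})
    (fun j => slab_meas _ _ _) (fun y => |H y|) (fun y => abs_nonneg _) hi N
  have h4 : ∑ j ∈ Finset.range N, 2 * μ / N <
      ∑ j ∈ Finset.range N, ∫ y in {y : E d | |⟪y, (f j).1⟫ - (f j).2| ≤ l}, |H y| :=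
    Finset.sum_lt_sum_of_nonempty (Finset.nonempty_range_iff.2 hN.ne')
      fun j hj => (h1 j (Finset.mem_range.1 hj)).2.2
  rw [Finset.sum_const, Finset.card_range, nsmul_eq_mul, mul_div_cancel₀ _ hN0.ne'] at h4
  have h5 : ∑ j ∈ Finset.range N, ∑ i ∈ Finset.range j,
      ∫ y in {y : E d | |⟪y, (f i).1⟫ - (f i).2| ≤ l} ∩ {y : E d | |⟪y, (f j).1⟫ - (f j).2| ≤ l},
        |H y| ≤ ∑ j ∈ Finset.range N, ∑ i ∈ Finset.range j, ε := by
    refine Finset.sum_le_sum fun j hj => Finset.sum_le_sum fun i hi' => ?_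
    have hj' := Finset.mem_range.1 hj
    have hij := Finset.mem_range.1 hi'
    obtain ⟨v, α, β, b1, b2, b3, b4⟩ := rdCov3_geo (c := (f i).2) (c' := (f j).2) hρ hl hR
      (h1 i (hij.trans hj')).1 (h1 j hj').2.1 rfl (h2 j hj' i hij)
    exact (setIntegral_mono_set hi.integrableOn (Filter.Eventually.of_forall fun _ => abs_nonneg _)
      b4.eventuallyLE).trans (hε _ v α β b1 b2 b3)
  have h6 : ∀ n : ℕ, ∑ j ∈ Finset.range n, ∑ i ∈ Finset.range j, ε = (n ^ 2 - n) / 2 * ε := by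
    intro n
    induction n with
    | zero => simp
    | succ n ih =>
      rw [Finset.sum_range_succ, ih, Finset.sum_const, Finset.card_range, nsmul_eq_mul]
      push_cast
      ring
  rw [h6] at h5
  have h7 : (1 : ℝ) ≤ N := by exact_mod_cast hN
  have h8 : ((N : ℝ) ^ 2 - N) / 2 * ε ≤ μ := by
    rcases le_total 0 ε with e | e
    · nlinarith [mul_nonneg hN0.le e]
    · exact (mul_nonpos_of_nonneg_of_nonpos (by nlinarith) e).trans hμ0
  linarith

theorem rdHigh3_poly (n : ℕ) : ((n : ℝ) + 1) ^ 2 / 2 ^ n ≤ 64 * (2 / 3) ^ n := by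
  have h1 : (1 : ℝ) + n * (1 / 8) ≤ (1 + 1 / 8) ^ n := one_add_mul_le_pow (by norm_num) n
  have h2 : ((n : ℝ) + 1) ≤ 8 * (9 / 8) ^ n := by
    rw [show (1 + 1 / 8 : ℝ) = 9 / 8 by norm_num] at h1
    linarith
  have h3 : ((n : ℝ) + 1) ^ 2 ≤ 64 * (4 / 3) ^ n :=
    calc ((n : ℝ) + 1) ^ 2 ≤ (8 * (9 / 8) ^ n) ^ 2 := by gcongr
      _ = 64 * ((9 / 8) ^ 2) ^ n := by
        rw [mul_pow, ← pow_mul, mul_comm n 2, pow_mul]
        norm_num
      _ ≤ 64 * (4 / 3) ^ n := by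
        gcongr
        norm_num
  rw [div_le_iff₀ (by positivity), mul_assoc, ← mul_pow, show (2 / 3 * 2 : ℝ) = 4 / 3 by norm_num]
  exact h3

theorem rdHigh3_FT {d : ℕ} (H : E d → ℝ) (ξ : E d) : ‖FT H ξ‖ ≤ ∫ y, |H y| := by
  rw [FT_apply]
  refine (norm_integral_le_integral_norm _).trans (le_of_eq ?_)
  simp only [norm_mul, l2_ee_norm, one_mul, Complex.norm_real, Real.norm_eq_abs]

/-- a finite union of tubes -/
def rdHigh3_tu {d : ℕ} (F : Finset (E d)) (a R : ℝ) : Set (E d) :=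
  ⋃ u ∈ F, {ξ : E d | ‖ξ‖ ≤ a ∧ ‖ξ - ⟪ξ, u⟫ • u‖ ≤ R}

/-- a dyadic shell -/
def rdHigh3_sh (d : ℕ) (l : ℝ) (n : ℕ) : Set (E d) :=
  {ξ : E d | 2 ^ n ≤ l * ‖ξ‖ ∧ l * ‖ξ‖ ≤ 2 ^ (n + 1)}

theorem rdHigh3_tu_meas {d : ℕ} (F : Finset (E d)) (a R : ℝ) :
    MeasurableSet (rdHigh3_tu F a R) :=
  Finset.measurableSet_biUnion _ fun u _ =>
    (measurableSet_le (f := fun ξ : E d => ‖ξ‖) (by fun_prop) measurable_const).inter
      (measurableSet_le (f := fun ξ : E d => ‖ξ - ⟪ξ, u⟫ • u‖) (by fun_prop) measurable_const)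

theorem rdHigh3_sh_meas (d : ℕ) (l : ℝ) (n : ℕ) : MeasurableSet (rdHigh3_sh d l n) :=
  (measurableSet_le (g := fun ξ : E d => l * ‖ξ‖) measurable_const (by fun_prop)).inter
    (measurableSet_le (f := fun ξ : E d => l * ‖ξ‖) (by fun_prop) measurable_const)

theorem rdHigh3_vol {d : ℕ} (h2 : S_Tube d) {F : Finset (E d)} (hF : ∀ u ∈ F, ‖u‖ = 1) {N : ℕ}
    (hN : F.card ≤ N) {l : ℝ} (hl : 0 < l) (n b : ℕ) :
    volume (rdHigh3_tu F (2 * (2 ^ n / l)) (3 / 4 * 2 ^ b / l)) ≤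
      ENNReal.ofReal (N * (4 * 2 ^ n * 2 ^ d * (2 ^ b) ^ d / l ^ d)) := by
  refine (measure_biUnion_finset_le _ _).trans ?_
  refine (Finset.sum_le_card_nsmul _ _
    (ENNReal.ofReal (4 * 2 ^ n * 2 ^ d * (2 ^ b) ^ d / l ^ d)) fun u hu => ?_).trans ?_
  · refine (h2 u _ _ (hF u hu) (by positivity) (by positivity)).trans
      (ENNReal.ofReal_le_ofReal ?_)
    obtain ⟨e, rfl⟩ : ∃ e, d = e + 1 := ⟨d - 1, by have := geo_pos (hF u hu); omega⟩
    have hb : (1 : ℝ) ≤ 2 ^ b := one_le_pow₀ one_le_two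
    have h3 : (2 * (3 / 4 * 2 ^ b / l) : ℝ) ^ e ≤ (2 * 2 ^ b / l) ^ e := by
      rw [← mul_div_assoc]
      gcongr
      linarith
    have h4 : (2 : ℝ) ^ e * (2 ^ b) ^ e ≤ 2 ^ (e + 1) * (2 ^ b) ^ (e + 1) := by
      gcongr
      · exact one_le_two
      · omega
      · omega
    calc 2 * (2 * (2 ^ n / l)) * (2 * (3 / 4 * 2 ^ b / l) : ℝ) ^ (e + 1 - 1)
        ≤ 2 * (2 * (2 ^ n / l)) * (2 * 2 ^ b / l) ^ e := by
          rw [Nat.add_sub_cancel]
          gcongr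
      _ = 4 * 2 ^ n * (2 ^ e * (2 ^ b) ^ e) / l ^ (e + 1) := by
          rw [div_pow, mul_pow]
          field_simp
          ring
      _ ≤ 4 * 2 ^ n * (2 ^ (e + 1) * (2 ^ b) ^ (e + 1)) / l ^ (e + 1) := by gcongr
      _ = _ := by ring
  · rw [nsmul_eq_mul, ENNReal.ofReal_mul (Nat.cast_nonneg N), ENNReal.ofReal_natCast]
    gcongr

theorem rdHigh3_slab {d : ℕ} (ξ : E d) {t : ℝ} (ht : 1 ≤ t) (c r : ℝ) :
    {y : E d | |⟪y, t • ξ⟫ - c| ≤ r} ⊆ {y : E d | |⟪y, ξ⟫ - c / t| ≤ r} := fun y hy => by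
  have h0 : 0 < t := lt_of_lt_of_le one_pos ht
  have h1 : |⟪y, t • ξ⟫ - c| ≤ r := hy
  have h2 : ⟪y, t • ξ⟫ - c = t * (⟪y, ξ⟫ - c / t) := by
    rw [real_inner_smul_right]
    field_simp
  rw [h2, abs_mul, abs_of_pos h0] at h1
  exact (le_mul_of_one_le_left (abs_nonneg _) ht).trans h1

theorem rdHigh3_shell {d : ℕ} {l : ℝ} {n₀ : ℕ} {ξ : E d} (h : 2 ^ n₀ ≤ l * ‖ξ‖) :
    ∃ m : ℕ, ξ ∈ rdHigh3_sh d l (n₀ + m) := by
  have h0 : (0 : ℝ) < 2 ^ n₀ := by positivity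
  obtain ⟨m, h1, h2⟩ := exists_nat_pow_near (x := l * ‖ξ‖ / 2 ^ n₀) (y := (2 : ℝ))
    ((one_le_div h0).2 h) one_lt_two
  refine ⟨m, ?_, ?_⟩
  · rw [le_div_iff₀ h0] at h1
    rw [pow_add, mul_comm]
    exact h1
  · rw [div_lt_iff₀ h0] at h2
    rw [add_assoc, pow_add, mul_comm ((2 : ℝ) ^ n₀)]
    exact h2.le

theorem rdHigh3_piece {d : ℕ} (h2 : S_Tube d) {C₁ : ℝ}
    (h1 : ∀ k : E d → ℝ, IsKer k → ∀ (n : ℕ) (ξ : E d),
      (2 : ℝ) ^ n ≤ ‖ξ‖ → ‖FT (KK k 1) ξ‖ ≤ C₁ * (n + 1) / 2 ^ n)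
    {k H : E d → ℝ} (hk : IsKer k) {l μ : ℝ} (hl : 0 < l) (hμ : ∫ y, |H y| ≤ μ)
    {F : Finset (E d)} (hF : ∀ u ∈ F, ‖u‖ = 1) {i : ℕ} (hN : F.card ≤ 2 ^ i) (n b : ℕ) :
    ∫⁻ ξ in rdHigh3_sh d l n ∩ rdHigh3_tu F (2 * (2 ^ n / l)) (3 / 4 * 2 ^ b / l),
      ENNReal.ofReal (‖FT (KK k l) ξ‖ ^ 2 * ‖FT H ξ‖ ^ 2) ≤
      ENNReal.ofReal (256 * 2 ^ d * C₁ ^ 2 * (μ ^ 2 / l ^ d) * (2 ^ i * (2 ^ b) ^ d) *
        (2 / 3) ^ n) := by
  have hb : ∀ ξ ∈ rdHigh3_sh d l n ∩ rdHigh3_tu F (2 * (2 ^ n / l)) (3 / 4 * 2 ^ b / l),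
      ENNReal.ofReal (‖FT (KK k l) ξ‖ ^ 2 * ‖FT H ξ‖ ^ 2) ≤
        ENNReal.ofReal ((C₁ * (n + 1) / 2 ^ n) ^ 2 * μ ^ 2) := fun ξ hξ => by
    refine ENNReal.ofReal_le_ofReal ?_
    have e1 : ‖FT (KK k l) ξ‖ ≤ C₁ * (n + 1) / 2 ^ n := by
      rw [l2_scale hk hl]
      refine h1 k hk n _ ?_
      rw [norm_smul, Real.norm_eq_abs, abs_of_pos hl]
      exact hξ.1.1
    have e2 : ‖FT H ξ‖ ≤ μ := (rdHigh3_FT H ξ).trans hμ
    gcongr
  refine (setLIntegral_mono' ((rdHigh3_sh_meas d l n).inter (rdHigh3_tu_meas _ _ _)) hb).trans ?_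
  rw [setLIntegral_const]
  refine (mul_le_mul_right ((measure_mono inter_subset_right).trans
    (rdHigh3_vol h2 hF hN hl n b)) _).trans ?_
  rw [← ENNReal.ofReal_mul (by positivity)]
  refine ENNReal.ofReal_le_ofReal ?_
  calc (C₁ * (n + 1) / 2 ^ n) ^ 2 * μ ^ 2 *
        (((2 ^ i : ℕ) : ℝ) * (4 * 2 ^ n * 2 ^ d * (2 ^ b) ^ d / l ^ d))
      = 4 * 2 ^ d * C₁ ^ 2 * (μ ^ 2 / l ^ d) * (2 ^ i * (2 ^ b) ^ d) *
          (((n : ℝ) + 1) ^ 2 / 2 ^ n) := by
        push_cast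
        field_simp
    _ ≤ 4 * 2 ^ d * C₁ ^ 2 * (μ ^ 2 / l ^ d) * (2 ^ i * (2 ^ b) ^ d) * (64 * (2 / 3) ^ n) := by
        gcongr
        exact rdHigh3_poly n
    _ = _ := by ring

theorem rdHigh3_geo {K : ℝ} (hK : 0 ≤ K) (n₀ : ℕ) :
    ∑' m : ℕ, ENNReal.ofReal (K * (2 / 3) ^ (n₀ + m)) = ENNReal.ofReal (3 * K * (2 / 3) ^ n₀) := by
  have hs : HasSum (fun m : ℕ => K * (2 / 3 : ℝ) ^ (n₀ + m)) (3 * K * (2 / 3) ^ n₀) := by
    have h := (hasSum_geometric_of_lt_one (r := (2 / 3 : ℝ)) (by norm_num) (by norm_num)).mul_left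
      (K * (2 / 3) ^ n₀)
    have e : K * (2 / 3 : ℝ) ^ n₀ * (1 - 2 / 3)⁻¹ = 3 * K * (2 / 3) ^ n₀ := by
      norm_num
      ring
    rw [e] at h
    simpa only [pow_add, mul_assoc] using h
  rw [← ENNReal.ofReal_tsum_of_nonneg (fun m => by positivity) hs.summable, hs.tsum_eq]

theorem high_pf {d : ℕ} (h1 : S_Mult d) (h2 : S_Tube d) (h3 : S_Avg d) (h4 : S_Good d)
    (h5 : S_Cov d) : S_High d := by
  obtain ⟨C₁, -, h1⟩ := h1
  refine ⟨12 * 4 ^ d + 768 * 2 ^ d * C₁ ^ 2, by positivity,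
    fun k H l μ ε i b n₀ hk hH hl hμ hε hi => ?_⟩
  have hc : ∀ n : ℕ, ∃ F : Finset (E d), F.card ≤ 2 ^ i ∧ (∀ u ∈ F, ‖u‖ = 1) ∧
      ∀ ξ : E d, 2 ^ n / l ≤ ‖ξ‖ → ‖ξ‖ ≤ 2 * (2 ^ n / l) →
      (∃ c : ℝ, 2 * μ / ((2 ^ i : ℕ) : ℝ) < ∫ y in {y : E d | |⟪y, ξ⟫ - c| ≤ 2 ^ i}, |H y|) →
      ∃ u ∈ F, ‖ξ - ⟪ξ, u⟫ • u‖ ≤ 3 / 4 * 2 ^ b / l := fun n => by
    refine h5 H μ ε (2 ^ n / l) (2 ^ i) (3 / 4 * 2 ^ b / l) (2 ^ i) hH (by positivity)
      (by positivity) (by positivity) (by positivity) hμ (fun u v a a' hu hv huv => ?_) ?_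
    · rw [show (3 * 2 ^ i / (3 / 4 * 2 ^ b / l) : ℝ) = 4 * l * 2 ^ i / 2 ^ b by field_simp]
      exact hε u v a a' hu hv huv
    · rw [show (((2 ^ i : ℕ) : ℝ)) ^ 2 = 4 ^ i by
        push_cast
        rw [← pow_mul, mul_comm, pow_mul]
        norm_num]
      exact hi
  choose F hF1 hF2 hF3 using hc
  set Z : Set (E d) := ⋃ m : ℕ, rdHigh3_sh d l (n₀ + m) ∩
    rdHigh3_tu (F (n₀ + m)) (2 * (2 ^ (n₀ + m) / l)) (3 / 4 * 2 ^ b / l) with hZ
  have mZ : MeasurableSet Z :=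
    MeasurableSet.iUnion fun m => (rdHigh3_sh_meas d l _).inter (rdHigh3_tu_meas _ _ _)
  have mS : MeasurableSet {ξ : E d | 2 ^ n₀ ≤ l * ‖ξ‖} :=
    measurableSet_le measurable_const (by fun_prop)
  have good := h4 k H l (12 * μ ^ 2 / 2 ^ i) ({ξ : E d | 2 ^ n₀ ≤ l * ‖ξ‖} \ Z) hk hH hl
    (by positivity) (mS.diff mZ) fun ξ hξ t ht => by
    obtain ⟨m, hm⟩ := rdHigh3_shell (d := d) hξ.1
    have hs : ∀ c : ℝ, ∫ y in {y : E d | |⟪y, ξ⟫ - c| ≤ 2 ^ i}, |H y| ≤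
        2 * μ / ((2 ^ i : ℕ) : ℝ) := fun c => by
      by_contra hlt
      have a1 : 2 ^ (n₀ + m) / l ≤ ‖ξ‖ := by
        rw [div_le_iff₀ hl, mul_comm]
        exact hm.1
      have a2 : ‖ξ‖ ≤ 2 * (2 ^ (n₀ + m) / l) := by
        rw [← mul_div_assoc, le_div_iff₀ hl, mul_comm, ← pow_succ']
        exact hm.2
      obtain ⟨u, hu, hu'⟩ := hF3 (n₀ + m) ξ a1 a2 ⟨c, not_le.1 hlt⟩
      exact hξ.2 (mem_iUnion.2 ⟨m, hm, mem_iUnion₂.2 ⟨u, hu, a2, hu'⟩⟩)
    refine (h3 H (t • ξ) (2 ^ i) (2 * μ / ((2 ^ i : ℕ) : ℝ)) μ hH (by positivity) hμ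
      fun c => le_trans ?_ (hs (c / t))).trans (le_of_eq ?_)
    · exact setIntegral_mono_set hH.abs.integrable.integrableOn
        (Filter.Eventually.of_forall fun _ => abs_nonneg _)
        (rdHigh3_slab ξ ht.1 c _).eventuallyLE
    · push_cast
      field_simp
      ring
  have bad : ∫⁻ ξ in Z, ENNReal.ofReal (‖FT (KK k l) ξ‖ ^ 2 * ‖FT H ξ‖ ^ 2) ≤
      ENNReal.ofReal (3 * (256 * 2 ^ d * C₁ ^ 2 * (μ ^ 2 / l ^ d) * (2 ^ i * (2 ^ b) ^ d)) *
        (2 / 3) ^ n₀) := by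
    rw [← rdHigh3_geo (by positivity)]
    exact (lintegral_iUnion_le _ _).trans (ENNReal.tsum_le_tsum fun m =>
      rdHigh3_piece h2 h1 hk hl hμ (hF2 _) (hF1 _) (n₀ + m) b)
  refine (lintegral_mono_set (subset_sdiff_union _ Z)).trans ?_
  refine (lintegral_union_le _ _ _).trans ((add_le_add good bad).trans ?_)
  rw [← ENNReal.ofReal_add (by positivity) (by positivity)]
  refine ENNReal.ofReal_le_ofReal ?_
  have e1 : (4 : ℝ) ^ d * (12 * μ ^ 2 / 2 ^ i) / l ^ d =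
      12 * 4 ^ d * (μ ^ 2 / l ^ d * (1 / 2) ^ i) := by
    rw [one_div, inv_pow]
    field_simp
  rw [e1]
  have p1 : (0 : ℝ) ≤ μ ^ 2 / l ^ d * (1 / 2) ^ i := by positivity
  have p2 : (0 : ℝ) ≤ μ ^ 2 / l ^ d * (2 ^ i * (2 ^ b) ^ d * (2 / 3) ^ n₀) := by positivity
  have p3 : (0 : ℝ) ≤ 12 * 4 ^ d := by positivity
  have p4 : (0 : ℝ) ≤ 768 * 2 ^ d * C₁ ^ 2 := by positivity
  nlinarith [mul_nonneg p3 p2, mul_nonneg p4 p1]

theorem rdShift3_num (L d : ℕ) : ∃ t : ℝ, 0 < t ∧ t < 1 ∧ ∀ u : ℕ, ∃ i n : ℕ,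
    (1 / 2 : ℝ) ^ i + 2 ^ i * (2 ^ (i + L * i)) ^ d * (2 / 3) ^ n ≤ 4 * t ^ u ∧
      ((2 : ℝ) ^ n / 2 ^ u) ^ 2 ≤ t ^ u := by
  obtain ⟨M, hM⟩ := pow_unbounded_of_one_lt (2 * ((2 : ℝ) ^ (L + 1)) ^ d)
    (by norm_num : (1 : ℝ) < 9 / 8)
  have M0 : 0 < M := by
    refine Nat.pos_of_ne_zero fun h => ?_
    have : (1 : ℝ) ≤ (2 ^ (L + 1)) ^ d := one_le_pow₀ (one_le_pow₀ one_le_two)
    rw [h, pow_zero] at hM
    linarith
  have M1 : (1 : ℝ) ≤ M := by exact_mod_cast M0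
  obtain ⟨e, he⟩ : ∃ e : ℝ, e = 1 / (8 * M) := ⟨_, rfl⟩
  have e0 : 0 < e := by rw [he]; positivity
  have e1 : e * M = 1 / 8 := by rw [he]; field_simp
  have e2 : e ≤ 1 / 8 := by nlinarith
  obtain ⟨t, ht⟩ : ∃ t : ℝ, t = 1 + -e := ⟨_, rfl⟩
  have t0 : 7 / 8 ≤ t := by linarith
  have t1 : t < 1 := by linarith
  have tp : 0 < t := by linarith
  have t2 : 1 / 2 ≤ t ^ (2 * M) := by
    have := one_add_mul_le_pow (a := -e) (by linarith) (2 * M)
    rw [← ht] at this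
    push_cast at this
    nlinarith
  refine ⟨t, tp, t1, fun u => ⟨u / 2 / M, u / 2, ?_, ?_⟩⟩
  · obtain ⟨n, hn⟩ : ∃ n, n = u / 2 := ⟨_, rfl⟩
    rw [← hn]
    obtain ⟨i, hi⟩ : ∃ i, i = n / M := ⟨_, rfl⟩
    have a1 : n < M * (i + 1) := hi ▸ Nat.lt_mul_div_succ n M0
    have a2 : M * i ≤ n := hi ▸ Nat.mul_div_le n M
    rw [← hi]
    have b1 : (1 / 2 : ℝ) ^ (i + 1) ≤ t ^ u :=
      calc (1 / 2 : ℝ) ^ (i + 1) ≤ (t ^ (2 * M)) ^ (i + 1) :=
            pow_le_pow_left₀ (by norm_num) t2 _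
        _ = t ^ (2 * (M * (i + 1))) := by rw [← pow_mul, mul_assoc]
        _ ≤ t ^ u := pow_le_pow_of_le_one tp.le t1.le (by omega)
    have b2 : (2 : ℝ) ^ i * (2 ^ (i + L * i)) ^ d ≤ (9 / 8) ^ n :=
      calc (2 : ℝ) ^ i * (2 ^ (i + L * i)) ^ d = (2 * (2 ^ (L + 1)) ^ d) ^ i := by
            rw [mul_pow, ← pow_mul, ← pow_mul, ← pow_mul]
            congr 2
            ring
        _ ≤ ((9 / 8) ^ M) ^ i := pow_le_pow_left₀ (by positivity) hM.le _
        _ ≤ (9 / 8) ^ n := by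
            rw [← pow_mul]
            exact pow_le_pow_right₀ (by norm_num) a2
    have b3 : (9 / 8 : ℝ) ^ n * (2 / 3) ^ n ≤ t ^ (2 * n) := by
      rw [← mul_pow, pow_mul]
      exact pow_le_pow_left₀ (by norm_num) (by nlinarith) _
    have b4 : t ^ (2 * n + 1) ≤ t ^ u := pow_le_pow_of_le_one tp.le t1.le (by omega)
    have b5 := mul_le_mul_of_nonneg_right b2 (by positivity : (0 : ℝ) ≤ (2 / 3) ^ n)
    have b6 := pow_pos tp (2 * n)
    rw [pow_succ] at b1 b4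
    nlinarith
  · have c1 : ((2 : ℝ) ^ (u / 2)) ^ 2 ≤ 2 ^ u := by
      rw [← pow_mul]
      exact pow_le_pow_right₀ one_le_two (by omega)
    calc ((2 : ℝ) ^ (u / 2) / 2 ^ u) ^ 2 ≤ 2 ^ u / (2 ^ u) ^ 2 := by
          rw [div_pow]
          gcongr
      _ = (1 / 2) ^ u := by
          rw [one_div, inv_pow]
          field_simp
      _ ≤ t ^ u := pow_le_pow_left₀ (by norm_num) (by linarith) _

theorem rdShift3_split {d : ℕ} {g A B : E d → ℝ} {S : Set (E d)} {c b : ℝ} (hg : Integrable g)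
    (g0 : ∀ x, 0 ≤ g x) (hA : Integrable A) (A0 : ∀ x, 0 ≤ A x) (hS : MeasurableSet S)
    (c0 : 0 ≤ c) (b0 : 0 ≤ b) (h1 : ∀ x, x ∉ S → g x ≤ c * A x) (h2 : ∀ x, g x ≤ 4 * B x)
    (hb : ∫⁻ x in S, ENNReal.ofReal (B x) ≤ ENNReal.ofReal b) :
    ∫ x, g x ≤ c * (∫ x, A x) + 4 * b := by
  have k1 : ∫ x in Sᶜ, g x ≤ c * ∫ x, A x := by
    refine (setIntegral_mono_on hg.integrableOn (hA.const_mul c).integrableOn hS.compl
      fun x hx => h1 x hx).trans ?_
    rw [← integral_const_mul]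
    exact setIntegral_le_integral (hA.const_mul c)
      (Filter.Eventually.of_forall fun x => mul_nonneg c0 (A0 x))
  have k2 : ∫ x in S, g x ≤ 4 * b := by
    rw [← ENNReal.ofReal_le_ofReal_iff (by positivity),
      ofReal_integral_eq_lintegral_ofReal hg.integrableOn (Filter.Eventually.of_forall g0),
      ENNReal.ofReal_mul (by norm_num)]
    calc ∫⁻ x in S, ENNReal.ofReal (g x)
        ≤ ∫⁻ x in S, ENNReal.ofReal 4 * ENNReal.ofReal (B x) := by
          refine lintegral_mono fun x => ?_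
          rw [← ENNReal.ofReal_mul (by norm_num)]
          exact ENNReal.ofReal_le_ofReal (h2 x)
      _ = ENNReal.ofReal 4 * ∫⁻ x in S, ENNReal.ofReal (B x) :=
          lintegral_const_mul' _ _ ENNReal.ofReal_ne_top
      _ ≤ _ := by gcongr
  rw [← integral_add_compl hS hg]
  linarith

theorem rdShift3_ft {d : ℕ} (H : E d → ℝ) (η : E d) : ‖FT H η‖ ≤ ∫ y, |H y| := by
  rw [FT_apply]
  refine (norm_integral_le_integral_norm _).trans (le_of_eq ?_)
  congr 1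
  funext y
  rw [norm_mul, l2_ee_norm, one_mul, Complex.norm_real, Real.norm_eq_abs]

theorem rdShift3_sq {d : ℕ} {k : E d → ℝ} (hk : IsKer k) {l : ℝ} (hl : 0 < l) :
    ∫ ξ, ‖FT (KK k l) ξ‖ ^ 2 ≤ (l ^ d)⁻¹ * 8 ^ d := by
  have hK := KK_nice hk hl
  rw [(planch hK).2]
  refine le_trans ?_ (mul_le_mul_of_nonneg_left (KK_l1 hk hl) (by positivity))
  rw [← integral_const_mul]
  refine integral_mono hK.sq.integrable (hK.abs.integrable.const_mul _) fun y => ?_
  show KK k l y ^ 2 ≤ (l ^ d)⁻¹ * |KK k l y|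
  rw [← sq_abs, sq]
  exact mul_le_mul_of_nonneg_right (KK_le hk hl y) (abs_nonneg _)

theorem shift_pf {d : ℕ} {θ : ℝ} (h0 : 0 < θ) (h1 : θ < 1) (h2 : S_High d) : S_Shift d θ := by
  obtain ⟨C, Cp, h2⟩ := h2
  obtain ⟨L, hL⟩ := exists_pow_lt_of_lt_one (by norm_num : (0 : ℝ) < 1 / 4) h1
  obtain ⟨t, tp, t1, ht⟩ := rdShift3_num L d
  refine ⟨((28 * d) ^ 2 * 8 ^ d + 16 * C) * 4 ^ d, t, by positivity, tp, t1,
    fun k H hk hH j Λ hΛ hM u v hv => ?_⟩
  obtain ⟨i, n, n1, n2⟩ := ht u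
  have hF := cv_nice hk hH j
  have hP := planch ((hF.shift (-v)).sub hF)
  have lp : (0 : ℝ) < 2 ^ (j - 2) := by positivity
  have sp : 0 < sz d j := sz_pos j
  have hμ : ∫ y, |H y| ≤ Λ * sz d j := by simpa using hM.mass
  have hb := h2 k H (2 ^ (j - 2)) (Λ * sz d j) (Λ * θ ^ (L * i) * sz d j) i (i + L * i) n hk hH lp
    hμ (fun p q a a' k1 k2 k3 => by
      have e : (4 : ℝ) * 2 ^ (j - 2) * 2 ^ i / 2 ^ (i + L * i) = 2 ^ (j - (L * i : ℕ)) := by
        rw [cv_four, zpow_sub₀ two_ne_zero, zpow_natCast, pow_add]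
        field_simp
      have := hM (L * i) _ (Or.inr ⟨p, q, a, a', k1, k2, k3, rfl⟩)
      rwa [univ_inter, ← e] at this) (by
      have e : (4 : ℝ) ^ i * θ ^ (L * i) ≤ 1 := by
        rw [pow_mul, ← mul_pow]
        exact pow_le_one₀ (by positivity) (by linarith)
      have := mul_nonneg hΛ sp.le
      nlinarith)
  have e : ∀ ξ, ‖FT (fun x => cv k j H (x - -v) - cv k j H x) ξ‖ ^ 2 =
      ‖ee ⟪-v, ξ⟫ - 1‖ ^ 2 * (‖FT (KK k (2 ^ (j - 2))) ξ‖ ^ 2 * ‖FT H ξ‖ ^ 2) := fun ξ => by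
    rw [FT_sub (hF.shift (-v)) hF, FT_shift, FT_cv hk hH, ← mul_pow, ← mul_pow, ← norm_mul,
      ← norm_mul]
    congr 2
    ring
  have key := rdShift3_split (c := (28 * d * (2 ^ n / 2 ^ u)) ^ 2 * (Λ * sz d j) ^ 2) hP.1
    (fun _ => by positivity) (planch (KK_nice hk lp)).1 (fun _ => by positivity)
    (measurableSet_le measurable_const (measurable_norm.const_mul _)) (by positivity)
    (by positivity) (fun ξ hξ => by
      have a : (2 : ℝ) ^ (j - 2) * ‖ξ‖ ≤ 2 ^ n := (not_le.1 hξ).le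
      have b3 : ‖ee ⟪-v, ξ⟫ - 1‖ ≤ 28 * d * (2 ^ n / 2 ^ u) := by
        refine (l2_ee_sub _).trans ?_
        have i1 := abs_real_inner_le_norm (-v) ξ
        rw [norm_neg] at i1
        have e2 : (2 : ℝ) ^ (j - u) = 4 * 2 ^ (j - 2) / 2 ^ u := by
          rw [cv_four, zpow_sub₀ two_ne_zero, zpow_natCast]
        have i2 : ‖v‖ * ‖ξ‖ ≤ d * 2 ^ (j - u) * ‖ξ‖ :=
          mul_le_mul_of_nonneg_right hv (norm_nonneg _)
        have i3 : (d : ℝ) * 2 ^ (j - u) * ‖ξ‖ ≤ 4 * d * (2 ^ n / 2 ^ u) := by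
          rw [e2]
          calc (d : ℝ) * (4 * 2 ^ (j - 2) / 2 ^ u) * ‖ξ‖
              = 4 * d / 2 ^ u * (2 ^ (j - 2) * ‖ξ‖) := by ring
            _ ≤ 4 * d / 2 ^ u * 2 ^ n := mul_le_mul_of_nonneg_left a (by positivity)
            _ = 4 * d * (2 ^ n / 2 ^ u) := by ring
        linarith
      have b4 := pow_le_pow_left₀ (norm_nonneg _) ((rdShift3_ft H ξ).trans hμ) 2
      rw [e, mul_assoc ((28 * (d : ℝ) * (2 ^ n / 2 ^ u)) ^ 2), mul_comm ((Λ * sz d j) ^ 2)]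
      exact mul_le_mul (pow_le_pow_left₀ (norm_nonneg _) b3 2)
        (mul_le_mul_of_nonneg_left b4 (by positivity)) (by positivity) (by positivity))
    (fun ξ => by
      have b2 : ‖ee ⟪-v, ξ⟫ - 1‖ ≤ 2 := by
        refine (norm_sub_le _ _).trans (le_of_eq ?_)
        rw [l2_ee_norm, norm_one]
        norm_num
      rw [e]
      refine mul_le_mul_of_nonneg_right ?_ (by positivity)
      nlinarith [norm_nonneg (ee ⟪-v, ξ⟫ - 1)]) hb
  rw [hP.2] at key
  simp only [sub_neg_eq_add] at key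
  refine key.trans ?_
  have q := rdShift3_sq hk lp
  have w : (Λ * sz d j) ^ 2 * (((2 : ℝ) ^ (j - 2)) ^ d)⁻¹ = 4 ^ d * Λ ^ 2 * sz d j := by
    rw [cv_size]
    field_simp
  have w0 : 0 ≤ 4 ^ d * Λ ^ 2 * sz d j := by positivity
  calc _ ≤ (28 * d) ^ 2 * t ^ u * (Λ * sz d j) ^ 2 * ((((2 : ℝ) ^ (j - 2)) ^ d)⁻¹ * 8 ^ d) +
        4 * (C * ((Λ * sz d j) ^ 2 / (2 ^ (j - 2)) ^ d) * (4 * t ^ u)) := by
        rw [mul_pow (28 * (d : ℝ))]
        gcongr
    _ = _ := by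
        rw [div_eq_mul_inv, w]
        linear_combination ((28 * (d : ℝ)) ^ 2 * t ^ u * 8 ^ d) * w

theorem rdWin3_atom {d : ℕ} {θ : ℝ} {g : E d → ℝ} (hg : Nice g) {Q : Cb d}
    (hM : Mor θ g (cube Q) Q.1 1) {j : ℤ} {t n : ℕ} {T : Set (E d)} (hT : Tst j n T)
    (h1 : j - t ≤ Q.1) (h2 : Q.1 < j) :
    ∃ m : ℕ, n ≤ m + t ∧ ∫ y in cube Q ∩ T, |g y| ≤ θ ^ m * sz d Q.1 := by
  rcases le_or_gt n t with h | h
  · refine ⟨0, by omega, ?_⟩
    rw [pow_zero]
    exact (setIntegral_mono_set hg.abs.integrable.integrableOn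
      (Filter.Eventually.of_forall fun _ => abs_nonneg _)
      inter_subset_left.eventuallyLE).trans hM.mass
  · rcases hT with ⟨h0, -⟩ | ⟨u, v, a, b, hu, hv, huv, rfl⟩
    · omega
    · refine ⟨n - (j - Q.1).toNat, by omega, ?_⟩
      have := hM (n - (j - Q.1).toNat) (pl u v a b (2 ^ (j - n)))
        (Or.inr ⟨u, v, a, b, hu, hv, huv, by congr 2; omega⟩)
      rwa [one_mul] at this

theorem rdWin3_cut {d : ℕ} {g : E d → ℝ} (hg : Nice g) {Q : Cb d} (hs : ∀ x, x ∉ cube Q → g x = 0)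
    {S T : Set (E d)} (hT : MeasurableSet T) :
    ∫ y in S ∩ T, |g y| ≤ ∫ y in cube Q ∩ T, |g y| := by
  rw [← setIntegral_eq_of_subset_of_forall_sdiff_eq_zero hT (inter_subset_right (s := cube Q))
    (fun x hx => by rw [hs x fun h => hx.2 ⟨h, hx.1⟩, abs_zero])]
  exact setIntegral_mono_set hg.abs.integrable.integrableOn
    (Filter.Eventually.of_forall fun _ => abs_nonneg _) inter_subset_right.eventuallyLE

theorem win_pf {d : ℕ} {θ : ℝ} (h0 : 0 < θ) (h1 : θ ≤ 1) : S_Win d θ := by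
  classical
  intro P b hP hM c t n T hT
  have ht : 0 < θ ^ t := pow_pos h0 t
  have hk : 0 ≤ (θ ^ t)⁻¹ * θ ^ n := by positivity
  have key : ∀ m : ℕ, n ≤ m + t → θ ^ m ≤ (θ ^ t)⁻¹ * θ ^ n := fun m h => by
    rw [le_inv_mul_iff₀ ht, ← pow_add]
    exact pow_le_pow_of_le_one h0.le h1 (by omega)
  have hint : ∀ Q ∈ P.filter fun Q => c.1 - t ≤ Q.1 ∧ Q.1 < c.1,
      Integrable (fun y => |b Q y|) (volume.restrict (big c ∩ T)) := fun Q hQ =>
    (hP.nice Q (Finset.mem_filter.1 hQ).1).abs.integrable.integrableOn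
  have hone : ∀ Q ∈ P.filter fun Q => c.1 - t ≤ Q.1 ∧ Q.1 < c.1, ∫ y in big c ∩ T, |b Q y| ≤
      (θ ^ t)⁻¹ * θ ^ n * if (cube Q ∩ big c).Nonempty then sz d Q.1 else 0 := by
    intro Q hQ
    obtain ⟨hQP, q1, q2⟩ := Finset.mem_filter.1 hQ
    split_ifs with hne
    · obtain ⟨m, hm, hb⟩ := rdWin3_atom (hP.nice Q hQP) (hM Q hQP) hT q1 q2
      exact (rdWin3_cut (hP.nice Q hQP) (hP.supp Q hQP) hT.meas).trans
        (hb.trans (mul_le_mul_of_nonneg_right (key m hm) (sz_pos _).le))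
    · rw [mul_zero, setIntegral_eq_zero_of_forall_eq_zero fun y hy => by
        rw [hP.supp Q hQP y fun h => hne ⟨y, h, hy.1⟩, abs_zero]]
  have htot : ∑ Q ∈ P with c.1 - t ≤ Q.1 ∧ Q.1 < c.1,
      (if (cube Q ∩ big c).Nonempty then sz d Q.1 else 0) ≤ 3 ^ d * sz d c.1 := by
    rw [← Finset.sum_filter]
    refine le_trans (Finset.sum_le_sum_of_subset_of_nonneg (fun Q hQ => ?_)
      fun Q _ _ => (sz_pos _).le) (run2_tot hP.dj c)
    simp only [Finset.mem_filter] at hQ ⊢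
    exact ⟨hQ.1.1, hQ.1.2.2.le, hQ.2⟩
  calc ∫ y in big c ∩ T, |Bw P b (c.1 - t) c.1 y|
      ≤ ∫ y in big c ∩ T, ∑ Q ∈ P with c.1 - t ≤ Q.1 ∧ Q.1 < c.1, |b Q y| :=
        integral_mono (hP.nice_Bw _ _).abs.integrable.integrableOn
          (integrable_finsetSum _ hint) fun y => Finset.abs_sum_le_sum_abs _ _
    _ = ∑ Q ∈ P with c.1 - t ≤ Q.1 ∧ Q.1 < c.1, ∫ y in big c ∩ T, |b Q y| :=
        integral_finsetSum _ hint
    _ ≤ (θ ^ t)⁻¹ * θ ^ n * (3 ^ d * sz d c.1) := by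
        refine (Finset.sum_le_sum hone).trans ?_
        rw [← Finset.mul_sum]
        exact mul_le_mul_of_nonneg_left htot hk
    _ = _ := by ring

theorem rdPe3_pt (a : ℝ) {η : ℝ} (hη : 0 < η) : |a| ≤ η + a ^ 2 / η := by
  rw [← sq_abs a, add_div' _ _ _ hη.ne', le_div_iff₀ hη]
  nlinarith [sq_nonneg (|a| - η), abs_nonneg a]

theorem rdPe3_shift {d : ℕ} {F : E d → ℝ} (hF : Nice F) {S : Set (E d)} (hS : MeasurableSet S)
    (hFS : ∀ x, x ∉ S → F x = 0) {η s e : ℝ} (hη : 0 < η) (hs0 : 0 ≤ s)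
    (hs : volume S ≤ ENNReal.ofReal s) (v : E d) (he : ∫ x, (F (x + v) - F x) ^ 2 ≤ e) :
    ∫⁻ x, ENNReal.ofReal |F (x + v) - F x| ≤ ENNReal.ofReal (2 * η * s + e / η) := by
  have hn : Nice fun x => (F (x + v) - F x) ^ 2 := by
    simpa using ((hF.shift (-v)).sub hF).sq
  have he0 : 0 ≤ e := le_trans (integral_nonneg fun _ => sq_nonneg _) he
  set I : E d → ℝ≥0∞ := S.indicator fun _ => ENNReal.ofReal η with hI
  have hIm : Measurable I := measurable_const.indicator hS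
  have hpt : ∀ x, ENNReal.ofReal |F (x + v) - F x| ≤
      I (x + v) + (I x + ENNReal.ofReal ((F (x + v) - F x) ^ 2 / η)) := fun x => by
    have h1 : ENNReal.ofReal |F (x + v) - F x| ≤
        ENNReal.ofReal η + ENNReal.ofReal ((F (x + v) - F x) ^ 2 / η) := by
      rw [← ENNReal.ofReal_add hη.le (by positivity)]
      exact ENNReal.ofReal_le_ofReal (rdPe3_pt _ hη)
    by_cases hx : x ∈ S
    · refine h1.trans (le_trans (le_of_eq ?_) le_add_self)
      rw [hI, indicator_of_mem hx]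
    by_cases hx' : x + v ∈ S
    · refine h1.trans ?_
      rw [hI, indicator_of_mem hx', indicator_of_notMem hx, zero_add]
    · simp [hFS x hx, hFS _ hx']
  have hIv : ∫⁻ x, I x ≤ ENNReal.ofReal (η * s) := by
    rw [hI, lintegral_indicator_const hS, ENNReal.ofReal_mul hη.le]
    exact mul_le_mul_right hs _
  have h3 : ∫⁻ x, ENNReal.ofReal ((F (x + v) - F x) ^ 2 / η) ≤ ENNReal.ofReal (e / η) := by
    rw [← ofReal_integral_eq_lintegral_ofReal (hn.integrable.div_const η)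
      (Filter.Eventually.of_forall fun x => by positivity), integral_div]
    exact ENNReal.ofReal_le_ofReal (div_le_div_of_nonneg_right he hη.le)
  refine (lintegral_mono hpt).trans ?_
  have hIm' : Measurable fun x => I (x + v) := hIm.comp (measurable_add_const v)
  rw [lintegral_add_left hIm', lintegral_add_left hIm, lintegral_add_right_eq_self I v]
  refine (add_le_add hIv (add_le_add hIv h3)).trans (le_of_eq ?_)
  rw [← ENNReal.ofReal_add (by positivity) (by positivity),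
    ← ENNReal.ofReal_add (by positivity) (by positivity)]
  congr 1
  ring

theorem rdPe3_supp {d : ℕ} {k : E d → ℝ} {P T : Finset (Cb d)} {b : Cb d → E d → ℝ} (hk : IsKer k)
    (hP : Atoms P b 1) (t : ℕ) {j : ℤ} {c : Cb d} (hj : j ≤ c.1)
    (hT : ∀ Q ∈ P, Q.1 ≤ c.1 → (cube Q ∩ big c).Nonempty → Q ∈ T) :
    ∃ S : Set (E d), LM j S ∧ (∀ x ∈ cube c, x ∉ S → cv k j (Bw P b (j - t) j) x = 0) ∧
      volume S ≤ ENNReal.ofReal (3 ^ d * (2 ^ t) ^ d *
        ∑ Q ∈ T, if j - t ≤ Q.1 ∧ Q.1 < j then sz d Q.1 else 0) := by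
  refine ⟨⋃ Q ∈ T.filter fun Q => j - t ≤ Q.1 ∧ Q.1 < j, big (cb j (cube_nonempty Q).some),
    fun x y e hx => ?_, fun x hc hx => ?_, ?_⟩
  · obtain ⟨Q, hQ, h⟩ := mem_iUnion₂.1 hx
    exact mem_iUnion₂.2 ⟨Q, hQ, lm_big (cb j _) x y e h⟩
  · have e : cv k j (Bw P b (j - t) j) x = cv k j (fun _ => 0) x := by
      refine cv_congr hk fun y hy => ?_
      by_contra hne
      obtain ⟨Q, hQ, hb⟩ := Finset.exists_ne_zero_of_sum_ne_zero hne
      obtain ⟨hQP, h1, h2⟩ := Finset.mem_filter.1 hQ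
      have hyQ : y ∈ cube Q := by
        by_contra h
        exact hb (hP.supp Q hQP y h)
      refine hx (mem_iUnion₂.2 ⟨Q, Finset.mem_filter.2
        ⟨hT Q hQP (h2.le.trans hj) ⟨y, hyQ, big_subset_big hj hc hy⟩, h1, h2⟩, ?_⟩)
      have e1 : ix j y = ix j (cube_nonempty Q).some :=
        ix_mono h2.le (Eq.trans hyQ (Eq.symm (cube_nonempty Q).some_mem))
      have e2 : cb j (cube_nonempty Q).some = cb j y := by simp only [cb, e1]
      rw [e2]
      exact mem_big_symm.1 hy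
    rw [e]
    simp [cv]
  · refine (measure_biUnion_finset_le _ _).trans ?_
    rw [← Finset.sum_filter, Finset.mul_sum, ENNReal.ofReal_sum_of_nonneg fun Q _ =>
      mul_nonneg (by positivity) (sz_pos _).le]
    refine Finset.sum_le_sum fun Q hQ => ?_
    obtain ⟨-, h1, -⟩ := Finset.mem_filter.1 hQ
    rw [volume_big, mul_assoc, ← sz_add]
    exact ENNReal.ofReal_le_ofReal (mul_le_mul_of_nonneg_left
      (sz_mono (show j ≤ Q.1 + t by omega)) (by positivity))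

theorem rdPe3_cube {d : ℕ} {θ C ϑ δ : ℝ} {N : ℕ} (h0 : 0 < θ) (hC : 0 < C) (hϑ : 0 < ϑ)
    (hδ : 0 < δ) (hN : ϑ ^ N ≤ (θ * δ) ^ 2)
    (h1 : ∀ k H : E d → ℝ, IsKer k → Nice H → ∀ (j : ℤ) (Λ : ℝ), 0 ≤ Λ → Mor θ H univ j Λ →
      ∀ (u : ℕ) (v : E d), ‖v‖ ≤ d * 2 ^ (j - u) →
      ∫ x, (cv k j H (x + v) - cv k j H x) ^ 2 ≤ C * Λ ^ 2 * ϑ ^ u * sz d j)
    {k : E d → ℝ} {P : Finset (Cb d)} {b : Cb d → E d → ℝ} (hk : IsKer k)
    (hP : Atoms P b 1) (t : ℕ) (c : Cb d)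
    (hM : Mor θ (Bw P b (c.1 - t) c.1) (big c) c.1 (3 ^ d * (θ ^ t)⁻¹)) :
    ∫⁻ x in cube c, ENNReal.ofReal |pe k P b N c.1 t x| ≤
      ENNReal.ofReal (2 ^ d * (2 * (8 * d) ^ d + C * 9 ^ d) * δ ^ t * sz d c.1) := by
  have hH := hP.nice_Bw (c.1 - t) c.1
  have hz := sz_pos (d := d) c.1
  have h2 := cube_two c.1
  set H := Bw P b (c.1 - t) c.1 with hHd
  set H' := (big c).indicator H with hH'
  have hn : Nice H' := hH.indicator (measurableSet_big c)
  have e : ∀ y ∈ cube c, cv k c.1 H y = cv k c.1 H' y := fun y hy =>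
    cv_congr hk fun z hz => (indicator_of_mem (big_subset_big le_rfl hy hz) _).symm
  have hM' : Mor θ H' univ c.1 (3 ^ d * (θ ^ t)⁻¹) := fun n T hT => by
    refine le_of_eq_of_le ?_ (hM n T hT)
    rw [univ_inter, inter_comm, ← setIntegral_indicator (measurableSet_big c)]
    congr 1
    funext y
    by_cases hy : y ∈ big c <;> simp [hH', hy]
  obtain ⟨y₀, hy₀⟩ := cube_nonempty c
  have hFS : ∀ x, x ∉ {y : E d | ‖y - y₀‖ ≤ 4 * d * 2 ^ c.1} → cv k c.1 H' x = 0 := fun x hx => by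
    have e : cv k c.1 H' x = cv k c.1 (fun _ => 0) x := by
      refine cv_congr hk fun y hy => indicator_of_notMem (fun h => hx ?_) _
      have a := norm_sub_le_of_big (mem_cube_cb c.1 x) hy
      have a' := norm_sub_le_of_big hy₀ h
      have := norm_sub_le_norm_sub_add_norm_sub x y y₀
      rw [norm_sub_rev y] at this
      change ‖x - y‖ ≤ 2 * d * 2 ^ c.1 at a
      change ‖x - y₀‖ ≤ _
      linarith
    rw [e]
    simp [cv]
  have hv := volume_norm_le y₀ (R := 4 * d * 2 ^ c.1) (by positivity)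
  have hp : ϑ ^ (N * t) ≤ (θ ^ t * δ ^ t) ^ 2 := by
    rw [pow_mul, ← mul_pow, ← pow_mul _ t, mul_comm t, pow_mul]
    exact pow_le_pow_left₀ (by positivity) hN t
  calc _ = ∫⁻ x in cube c, ENNReal.ofReal
          |cv k c.1 H' x - ce (c.1 - (N * t : ℕ)) (cv k c.1 H') x| :=
        setLIntegral_congr_fun (measurableSet_cube c) fun x hx => by
          simp only [pe, pc, pv, ← hHd, e x hx,
            ce_local (l := c.1 - (N * t : ℕ)) (by omega) e hx]
    _ ≤ 2 ^ d * ENNReal.ofReal ((2 * (8 * d) ^ d + C * 9 ^ d) * δ ^ t * sz d c.1) := by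
        refine (setLIntegral_le_lintegral _ _).trans (ce_err (cv_nice hk hn c.1) _ fun v hv' => ?_)
        refine (rdPe3_shift (cv_nice hk hn c.1) (measurableSet_le (by fun_prop) (by fun_prop)) hFS
          (η := δ ^ t) (by positivity) (by positivity) hv v
          (h1 k H' hk hn c.1 _ (by positivity) hM' (N * t) v hv')).trans
          (ENNReal.ofReal_le_ofReal ?_)
        calc _ ≤ 2 * δ ^ t * (2 * (4 * d * 2 ^ c.1)) ^ d +
              C * (3 ^ d * (θ ^ t)⁻¹) ^ 2 * (θ ^ t * δ ^ t) ^ 2 * sz d c.1 / δ ^ t := by gcongr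
          _ = _ := by
            rw [show (2 : ℝ) * (4 * d * 2 ^ c.1) = 8 * d * 2 ^ c.1 by ring, mul_pow _ (2 ^ c.1),
              show (9 : ℝ) = 3 * 3 by norm_num, mul_pow 3 3, sz]
            field_simp
    _ = _ := by
        rw [mul_assoc (2 ^ d), mul_assoc (2 ^ d), ENNReal.ofReal_mul (p := 2 ^ d) (by positivity),
          ENNReal.ofReal_pow zero_le_two, ENNReal.ofReal_ofNat]

theorem rdPe3_one {d : ℕ} {K : ℝ} {N : ℕ} (hK : 0 ≤ K) {k : E d → ℝ} {P T : Finset (Cb d)}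
    {b : Cb d → E d → ℝ} (hk : IsKer k) (hP : Atoms P b 1) (t : ℕ) {j : ℤ} {c : Cb d}
    (hj : j ≤ c.1) (hT : ∀ Q ∈ P, Q.1 ≤ c.1 → (cube Q ∩ big c).Nonempty → Q ∈ T)
    (h : ∀ c' : Cb d, ∫⁻ x in cube c', ENNReal.ofReal |pe k P b N c'.1 t x| ≤
      ENNReal.ofReal (K * sz d c'.1)) :
    ∫⁻ x in cube c, ENNReal.ofReal |pe k P b N j t x| ≤ ENNReal.ofReal (K * (3 ^ d * (2 ^ t) ^ d) *
      ∑ Q ∈ T, if j - t ≤ Q.1 ∧ Q.1 < j then sz d Q.1 else 0) := by
  obtain ⟨S, hS, hFS, hv⟩ := rdPe3_supp (k := k) hk hP t hj hT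
  refine (((lm_cube c).mono hj).lintegral_le (H := S.indicator fun _ => ENNReal.ofReal K)
    fun c' e hc => ?_).trans ?_
  · subst e
    by_cases hx : ∃ x ∈ cube c', x ∈ S
    · obtain ⟨x, hx, hx'⟩ := hx
      refine (h c').trans_eq ?_
      rw [setLIntegral_congr_fun (measurableSet_cube c') (g := fun _ => ENNReal.ofReal K)
        fun y hy => indicator_of_mem (hS.cube_subset le_rfl hx hx' hy) _, setLIntegral_const,
        volume_cube, ← ENNReal.ofReal_mul hK]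
    · have z : ∀ y ∈ cube c', cv k c'.1 (Bw P b (c'.1 - t) c'.1) y = (fun _ => (0 : ℝ)) y :=
        fun y hy => hFS y (hc hy) fun h => hx ⟨y, hy, h⟩
      rw [setLIntegral_congr_fun (measurableSet_cube c') (g := fun _ => 0) fun y hy => by
        simp only [pe, pc, pv, z y hy, ce_local (l := c'.1 - (N * t : ℕ)) (by omega) z hy]
        simp [ce]]
      simp
  · refine (setLIntegral_le_lintegral _ _).trans ?_
    rw [lintegral_indicator_const hS.meas, mul_assoc, ENNReal.ofReal_mul hK]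
    exact mul_le_mul_right hv _

theorem pe_pf {d : ℕ} {θ : ℝ} (h0 : 0 < θ) (h1 : S_Shift d θ) (h2 : S_Win d θ) : S_Pe d θ := by
  classical
  obtain ⟨C, ϑ, hC, hϑ, hϑ1, h1⟩ := h1
  obtain ⟨n, hn⟩ := exists_pow_lt_of_lt_one
    (show 0 < (θ * ((2 : ℝ) ^ (d + 2))⁻¹) ^ 2 by positivity) hϑ1
  have hN := (pow_le_pow_of_le_one hϑ.le hϑ1.le (Nat.le_add_right n 1)).trans hn.le
  refine ⟨n + 1, 9 ^ d * (2 ^ d * (2 * (8 * d) ^ d + C * 9 ^ d)), Nat.le_add_left 1 n,
    by positivity, fun k P b hk hP hA t a c => ?_⟩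
  have hz := sz_pos (d := d) c.1
  refine (Finset.sum_le_sum fun j hj => rdPe3_one
    (T := P.filter fun Q => Q.1 ≤ c.1 ∧ (cube Q ∩ big c).Nonempty) (by positivity) hk hP t
    (Finset.mem_Icc.1 hj).2 (fun Q hQ h3 h4 => Finset.mem_filter.2 ⟨hQ, h3, h4⟩) fun c' =>
    rdPe3_cube h0 hC hϑ (by positivity) hN h1 hk hP t c' (h2 P b hP hA c' t)).trans ?_
  rw [← ENNReal.ofReal_sum_of_nonneg fun j _ => mul_nonneg (by positivity)
    (Finset.sum_nonneg fun Q _ => by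
      split_ifs
      exacts [(sz_pos _).le, le_rfl]), ← Finset.mul_sum]
  refine ENNReal.ofReal_le_ofReal ?_
  have h3 := (run2_count _ (Finset.Icc a c.1) t).trans
    (mul_le_mul_of_nonneg_left (run2_tot hP.dj c) (Nat.cast_nonneg (α := ℝ) t))
  have h4 : (t : ℝ) ≤ 2 ^ t := by exact_mod_cast Nat.lt_two_pow_self.le
  have e1 : ((2 : ℝ) ^ (d + 2))⁻¹ ^ t * (2 ^ t) ^ d * 2 ^ t = (1 / 2) ^ t := by
    rw [← pow_mul, mul_comm t d, pow_mul, ← mul_pow, ← mul_pow]
    congr 1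
    field_simp
    ring
  refine (mul_le_mul_of_nonneg_left (h3.trans (mul_le_mul_of_nonneg_right h4 (by positivity)))
    (by positivity)).trans_eq ?_
  rw [← e1, show (9 : ℝ) = 3 * 3 by norm_num, mul_pow 3 3]
  ring

theorem run_pf {d : ℕ} {θ : ℝ} (hd : 1 ≤ d) (hpe : S_Pe d θ) : S_Run d θ := by
  obtain ⟨N, Λ₁, hN, hΛ₁0, hpe⟩ := hpe
  obtain ⟨C₁, hC₁, h1⟩ := farT_l1 hd
  obtain ⟨C₂, hC₂, h2⟩ := pu_sum hd
  set C₃ : ℝ := 4 * C₂ + 4 * Λ₁ with hC₃
  have hC₃0 : 0 < C₃ := by positivity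
  set K : ℝ := 42 * C₃ + 1 with hK
  have hK1 : 1 ≤ K := by linarith
  set C₄ : ℝ := 2 * C₁ + 2 * Λ₁ + 2 * 12 ^ d * C₃ with hC₄
  have hC₄0 : 0 < C₄ := by positivity
  have hN0 : (1 : ℝ) ≤ N := by exact_mod_cast hN
  set l : ℝ := Real.log (21 / 20) / N with hl
  have hl0 : 0 < l := div_pos (Real.log_pos (by norm_num)) (by linarith)
  refine ⟨24 * (3 * C₄ + K) * N ^ 2 * 15600 + (12 ^ d + 20 * K) * (2 / l) + 1, by positivity,
    fun k hk m hm P b hP hmod G hG W j₀ H => ?_⟩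
  set τ : ℕ → ℝ := fun t => K * (19 / 20) ^ t with hτ
  have hτ0 : ∀ t, 0 < τ t := fun t => by positivity
  set V : ℤ → ℕ → Set (E d) := fun j t => {x | τ t < |pD k P b N j t x|} with hV
  have he := fun t (c : Cb d) => hpe k P b hk hP hmod t j₀ c
  have he' : ∀ t (c : Cb d), _ ≤ ENNReal.ofReal (Λ₁ * (1 / 2) ^ t * sz d c.1) := fun t c =>
    (he (t + 1) c).trans (ENNReal.ofReal_le_ofReal (mul_le_mul_of_nonneg_right
      (mul_le_mul_of_nonneg_left (pow_le_pow_of_le_one (by norm_num) (by norm_num)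
        (Nat.le_succ t)) hΛ₁0) (sz_pos _).le))
  have hv : ∀ t (c : Cb d), ∑ j ∈ Finset.Icc j₀ c.1, volume (V j t ∩ cube c) ≤
      ENNReal.ofReal (C₃ / K * (9 / 10) ^ t * sz d c.1) := fun t c => by
    have hz := sz_pos (d := d) c.1
    exact (big_vol hk hP (hτ0 t) (by positivity) (by positivity) (h2 k hk P b hP t j₀ c) (he t c)
      (he' t c)).trans (ENNReal.ofReal_le_ofReal (r6_num hK1 hC₂.le hΛ₁0 hz.le t))
  have hL : ∀ t, 1 ≤ N * (t + 1) := fun t => Nat.mul_pos hN t.succ_pos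
  have small : ∀ (t : ℕ) (r : ℕ), Mom (ps (fun j => (G j).indicator (pS k P b N t (τ t) r j))
      j₀ W.1) W m (24 * (3 * (C₄ * (19 / 20) ^ t) + τ t * (N * (t + 1) : ℕ)) * m) := fun t r => by
    refine class_mom (r := r) (hL t) (hτ0 t).le (by positivity) hm
      (fun j x y e => by simp only [pS, pD_congr e]) (fun j x hx => ?_) (fun j x => ?_)
      (fun G' hG' c => ?_) hG W
    · by_contra h
      exact hx (if_neg fun hh => h hh.1)
    · unfold pS
      split_ifs with h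
      · exact h.2
      · simpa using (hτ0 t).le
    · have hz := sz_pos (d := d) c.1
      refine (small_l1 (f := C₁ * (9 / 10) ^ t * sz d c.1) hk hP (by positivity) (by positivity)
        (by positivity) hG' r (fun P' hP' s hs => ?_) (he t c) (he' t c) (hv t c)).trans
        (ENNReal.ofReal_le_ofReal ?_)
      · have := h1 k hk P' b (hP.subset hP') G' hG' s c j₀
        simp only [Mom, ENNReal.rpow_one, Real.rpow_one] at this
        exact this.trans (ENNReal.ofReal_le_ofReal (mul_le_mul_of_nonneg_right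
          (mul_le_mul_of_nonneg_left (pow_le_pow_of_le_one (by norm_num) (by norm_num) hs)
            hC₁.le) hz.le))
      · have p1 : (9 / 10 : ℝ) ^ t ≤ (19 / 20) ^ t := pow_le_pow_left₀ (by norm_num) (by norm_num) t
        have p2 : (1 / 2 : ℝ) ^ t ≤ (19 / 20) ^ t := pow_le_pow_left₀ (by norm_num) (by norm_num) t
        have p3 : C₃ / K ≤ C₃ := div_le_self hC₃0.le hK1
        calc _ ≤ 2 * (C₁ * (19 / 20) ^ t * sz d c.1) + 2 * (Λ₁ * (19 / 20) ^ t * sz d c.1) +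
              2 * 12 ^ d * (C₃ * (19 / 20) ^ t * sz d c.1) := by gcongr
          _ = _ := by rw [hC₄]; ring
  obtain ⟨S, hS⟩ : ∃ S : ℕ, ∀ Q ∈ P, W.1 - S ≤ Q.1 := by
    obtain ⟨l, hl⟩ := (P.image fun Q => Q.1).bddBelow
    refine ⟨(W.1 - l).toNat, fun Q hQ => ?_⟩
    have := hl (Finset.mem_coe.2 (Finset.mem_image_of_mem (fun Q : Cb d => Q.1) hQ))
    omega
  set β : ℝ := (Finset.Icc j₀ W.1).card * (2 * 12 ^ d) + 1 with hβ
  have hβ1 : 1 ≤ β := le_add_of_nonneg_left (by positivity)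
  obtain ⟨T, hTS, hT⟩ : ∃ T : ℕ, S ≤ T ∧ Λ₁ * (1 / 2) ^ T ≤ β⁻¹ ^ (2 * m) := by
    obtain ⟨n, hn⟩ := exists_pow_lt_of_lt_one (show 0 < β⁻¹ ^ (2 * m) / (Λ₁ + 1) by positivity)
      (show (1 / 2 : ℝ) < 1 by norm_num)
    refine ⟨S + n, Nat.le_add_right _ _, ?_⟩
    rw [lt_div_iff₀ (by positivity)] at hn
    have p1 : (1 / 2 : ℝ) ^ (S + n) ≤ (1 / 2) ^ n :=
      pow_le_pow_of_le_one (by norm_num) (by norm_num) (Nat.le_add_left _ _)
    have p2 : (0 : ℝ) < (1 / 2) ^ n := by positivity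
    nlinarith
  set Y₃ := ps (fun j x => |pe k P b N j T x|) j₀ W.1 with hY₃
  have hY₃m : Measurable Y₃ := by
    unfold Y₃ ps
    exact Finset.measurable_sum _ fun j _ => (pe_meas hk hP j T).abs
  have hY₃0 : ∀ x, 0 ≤ Y₃ x := fun x => Finset.sum_nonneg fun j _ => abs_nonneg _
  have m3 : Mom Y₃ W m 1 := by
    have a1 : Mom Y₃ W 1 (Λ₁ * (1 / 2) ^ T) := by
      simp only [Mom, ENNReal.rpow_one, Real.rpow_one, fun x => abs_of_nonneg (hY₃0 x)]
      refine le_trans (le_of_eq ?_) (he T W)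
      rw [← lintegral_finsetSum _ fun j _ => (pe_meas hk hP j T).abs.ennreal_ofReal]
      exact lintegral_congr fun x => ENNReal.ofReal_sum_of_nonneg fun j _ => abs_nonneg _
    have a2 : Mom Y₃ W (2 * m - 1) β := mom_bdd (by linarith) (by linarith) fun x => by
      rw [abs_of_nonneg (hY₃0 x)]
      refine le_add_of_le_of_nonneg ?_ zero_le_one
      rw [← nsmul_eq_mul]
      exact Finset.sum_le_card_nsmul _ _ _ fun j _ => pe_le hk hP j T x
    refine (mom_interp hY₃m hm (by positivity) hβ1 a1 a2).mono (by linarith) (by positivity) ?_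
      fun x _ => le_rfl
    refine (mul_le_mul_of_nonneg_right (Real.rpow_le_rpow (by positivity) hT (by positivity))
      (by linarith)).trans (le_of_eq ?_)
    rw [one_div, Real.rpow_rpow_inv (by positivity) (by positivity),
      inv_mul_cancel₀ (by positivity)]
  have hlm : ∀ j t, LM (j - (N * (t + 1) : ℕ)) (V j t) := fun j t x y e hx => by
    simp only [hV, mem_ofPred_eq] at hx ⊢
    rwa [← pD_congr e]
  have m2 := (mom_of_exp hl0 hm (cnt_nonneg V T j₀ W.1) (cnt_exp (n := fun t => N * (t + 1)) hL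
    hlm hl0.le (η := fun t => C₃ / K * (9 / 10) ^ t) (fun t => by positivity) ?_ hv W)).const_mul
    (by linarith) (by positivity) (c := 12 ^ d + 20 * K) (by positivity)
  swap
  · have e : ∀ t : ℕ, Real.exp (l * (N * (t + 1) : ℕ)) = (21 / 20) ^ (t + 1) := fun t => by
      rw [← Real.exp_log (show (0 : ℝ) < 21 / 20 by norm_num), ← Real.exp_nat_mul, hl]
      congr 1
      push_cast
      field_simp
    have p1 : C₃ / K ≤ 1 / 42 := by
      rw [div_le_div_iff₀ (by positivity) (by norm_num)]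
      linarith
    calc _ ≤ ∑ t ∈ Finset.range T, 1 / 40 * (19 / 20 : ℝ) ^ t := by
          refine Finset.sum_le_sum fun t _ => ?_
          have p2 : (21 / 20 : ℝ) ^ t * (9 / 10) ^ t ≤ (19 / 20) ^ t := by
            rw [← mul_pow]
            exact pow_le_pow_left₀ (by norm_num) (by norm_num) t
          calc _ = 21 / 20 * (C₃ / K) * ((21 / 20) ^ t * (9 / 10) ^ t) := by rw [e]; ring
            _ ≤ 21 / 20 * (1 / 42) * (19 / 20) ^ t := by gcongr
            _ = _ := by norm_num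
      _ ≤ _ := by
          rw [← Finset.mul_sum]
          linarith [r6_geo T]
  have hsm : ∀ (t r : ℕ), Measurable (ps (fun j => (G j).indicator (pS k P b N t (τ t) r j))
      j₀ W.1) := fun t r => by
    unfold ps
    exact Finset.measurable_sum _ fun j _ => (measurable_of_ix (k := j - (N * (t + 1) : ℕ))
      fun x y e => by simp only [pS, pD_congr e]).indicator (hG.lm j).meas
  have m1 := mom_sum (s := Finset.range T) (fun t _ => mom_sum (s := Finset.range (N * (t + 1)))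
    (fun r _ => small t r) (fun r _ => hsm t r) hm fun r _ => by have := hτ0 t; positivity)
    (fun t _ => Finset.measurable_sum _ fun r _ => hsm t r) hm
    fun t _ => Finset.sum_nonneg fun r _ => by have := hτ0 t; positivity
  have hY₁m := Finset.measurable_sum (Finset.range T) fun t _ =>
    Finset.measurable_sum (Finset.range (N * (t + 1))) fun r _ => hsm t r
  have m1' := m1.mono (B' := 24 * (3 * C₄ + K) * N ^ 2 * 15600 * m) (by linarith)
    (Finset.sum_nonneg fun t _ => Finset.sum_nonneg fun r _ => by have := hτ0 t; positivity)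
    ?_ fun x _ => (abs_abs _).le
  swap
  · calc _ ≤ ∑ t ∈ Finset.range T, 24 * (3 * C₄ + K) * N ^ 2 * m *
          (((t : ℝ) + 1) ^ 2 * (19 / 20) ^ t) := by
          refine Finset.sum_le_sum fun t _ => ?_
          have p1 : (1 : ℝ) ≤ (N * (t + 1) : ℕ) := by exact_mod_cast hL t
          rw [Finset.sum_const, Finset.card_range, nsmul_eq_mul]
          calc _ ≤ ((N * (t + 1) : ℕ) : ℝ) * (24 * (3 * (C₄ * (19 / 20) ^ t) * (N * (t + 1) : ℕ) +
                τ t * (N * (t + 1) : ℕ)) * m) := by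
                have p2 := le_mul_of_one_le_right
                  (show 0 ≤ 3 * (C₄ * (19 / 20) ^ t) by positivity) p1
                gcongr ?_ * (24 * (?_ + _) * m)
            _ = _ := by
                simp only [hτ]
                push_cast
                ring
      _ ≤ _ := by
          rw [← Finset.mul_sum]
          exact (mul_le_mul_of_nonneg_left (r6_sq T) (by positivity)).trans_eq (by ring)
  have hcm := (cnt_meas (fun j t => (hlm j t).meas) T j₀ W.1).const_mul (12 ^ d + 20 * K)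
  refine ((m1'.add m2 hY₁m.abs hcm hm (by positivity) (by positivity)).add m3
    (hY₁m.abs.add hcm) hY₃m hm (by positivity) zero_le_one).mono (by linarith) (by positivity)
    ?_ fun x hx => le_trans ?_ (le_abs_self _)
  · have : (12 ^ d + 20 * K) * (2 * (m / l)) = (12 ^ d + 20 * K) * (2 / l) * m := by ring
    linarith
  have hj : ∀ j ∈ Finset.Icc j₀ W.1, |(G j).indicator (cv k j fun x => ∑ Q ∈ P, b Q x) x -
      ∑ t ∈ Finset.range T, ∑ r ∈ Finset.range (N * (t + 1)),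
        (G j).indicator (pS k P b N t (τ t) r j) x| ≤ (12 ^ d + 20 * K) *
      (⋃ t ∈ Finset.range T, V j t).indicator (fun _ => (1 : ℝ)) x + |pe k P b N j T x| := by
    intro j hj
    obtain ⟨hj1, hj2⟩ := Finset.mem_Icc.1 hj
    by_cases hxG : x ∈ G j
    swap
    · simp only [indicator_of_notMem hxG, Finset.sum_const_zero, sub_zero, abs_zero]
      have := indicator_nonneg (s := ⋃ t ∈ Finset.range T, V j t)
        (f := fun _ => (1 : ℝ)) (fun _ _ => zero_le_one) x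
      positivity
    have e0 : Bl P b (j - T) = fun _ => 0 := funext fun y => Finset.sum_eq_zero fun Q hQ => by
      rw [Finset.mem_filter] at hQ
      have := hS Q hQ.1
      omega
    have e1 : cv k j (fun x => ∑ Q ∈ P, b Q x) x = pc k P b N j T x + pe k P b N j T x := by
      rw [hP.cv_eq_Bl hk (H j hj1 hj2 x hx hxG), pe, pv, cv_Bw hk hP j (by omega), e0]
      simp [cv]
    have e2 : pc k P b N j T x = ∑ t ∈ Finset.range T, pD k P b N j t x := by
      have : pv k P b j 0 = fun _ => 0 := funext fun y => by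
        rw [pv, cv_Bw hk hP j (by omega)]
        simp
      unfold pD
      rw [Finset.sum_range_sub fun t => pc k P b N j t x]
      simp [pc, this, ce]
    simp only [indicator_of_mem hxG, r6_class hN, e1]
    rw [add_sub_right_comm]
    refine (abs_add_le _ _).trans (add_le_add_left ?_ _)
    by_cases hU : x ∈ ⋃ t ∈ Finset.range T, V j t
    · rw [indicator_of_mem hU, mul_one]
      refine (abs_sub _ _).trans (add_le_add (pc_le hk hP j T x)
        ((Finset.abs_sum_le_sum_abs _ _).trans ((Finset.sum_le_sum (g := τ) fun t _ => ?_).trans ?_)))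
      · split_ifs with h
        · exact h
        · simpa using (hτ0 t).le
      · simp only [hτ, ← Finset.mul_sum]
        nlinarith [r6_geo T]
    · rw [indicator_of_notMem hU, mul_zero, e2, Finset.sum_congr rfl fun t ht =>
        if_pos (not_lt.1 fun h => hU (mem_iUnion₂.2 ⟨t, ht, h⟩)), sub_self, abs_zero]
  have h5 := (Finset.abs_sum_le_sum_abs _ _).trans (Finset.sum_le_sum hj)
  rw [Finset.sum_sub_distrib, Finset.sum_add_distrib, ← Finset.mul_sum, Finset.sum_comm] at h5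
  simp only [Finset.sum_comm (s := Finset.Icc j₀ W.1)] at h5
  simp only [TG, ps, cnt, hY₃]
  linarith [abs_sub_abs_le_abs_sub (∑ j ∈ Finset.Icc j₀ W.1,
    (G j).indicator (cv k j fun x => ∑ Q ∈ P, b Q x) x) (∑ t ∈ Finset.range T,
      ∑ r ∈ Finset.range (N * (t + 1)), ∑ j ∈ Finset.Icc j₀ W.1,
        (G j).indicator (pS k P b N t (τ t) r j) x)]

end Pool.Agent.MP_418f02_an
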