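import Pool.Agent.MP_418f02_an.Rd.A

/-! Stopping times, weights and the main bound. -/

set_option autoImplicit false

open MeasureTheory Set
open scoped ENNReal RealInnerProductSpace

namespace Pool.Agent.MP_418f02_an

theorem cz_pf {d : ℕ} : S_Cz d := by
  intro B W j₀ hj hW
  let S : Set (Cb d) := {c | (j₀ - 1 ≤ c.1 ∧ c.1 ≤ W.1 ∧ cube c ⊆ big W) ∧ (c.1 = j₀ - 1 ∨ B c)}
  have hSf : S.Finite := (finite_sub (j₀ - 1) W).subset (fun c hc => hc.1)
  obtain ⟨T, hTS, hTd, hT1, hT2⟩ := exists_maximal S W.1 (fun c hc => hc.1.2.1)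
  have hTf : T.Finite := hSf.subset hTS
  have hlt : ∀ c ∈ S, c.1 < W.1 := by
    intro c hc
    refine lt_of_le_of_ne hc.1.2.1 (fun he => ?_)
    rcases hc.2 with h1 | h1
    · omega
    · exact hW c he hc.1.2.2 h1
  refine ⟨hTf.toFinset, ?_, ?_, ?_⟩
  · unfold Dj
    rw [hTf.coe_toFinset]
    exact hTd
  · ext x
    simp only [mem_iUnion, hTf.mem_toFinset, exists_prop]
    constructor
    · intro hx
      have h1 : cb (j₀ - 1) x ∈ S := by
        refine ⟨⟨le_rfl, by simp only [cb]; omega, ?_⟩, Or.inl rfl⟩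
        exact (lm_big W).cube_subset (by simp only [cb]; omega) (mem_cube_cb _ x) hx
      obtain ⟨c', hc', -, h2⟩ := hT1 _ h1
      exact ⟨c', hc', h2 (mem_cube_cb _ x)⟩
    · rintro ⟨Q, hQ, hx⟩
      exact (hTS hQ).1.2.2 hx
  · intro Q hQ
    rw [hTf.mem_toFinset] at hQ
    have hQS := hTS hQ
    have hQW := hlt Q hQS
    refine ⟨hQW, fun h1 => hQS.2.resolve_left (by omega), fun x hx hc => ?_⟩
    have hl : (cb (Q.1 + 1) x).1 = Q.1 + 1 := rfl
    have hsub : cube Q ⊆ cube (cb (Q.1 + 1) x) :=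
      (lm_cube (cb (Q.1 + 1) x)).cube_subset (by omega) hx (mem_cube_cb _ x)
    have hin : cube (cb (Q.1 + 1) x) ⊆ big W :=
      (lm_big W).cube_subset (by omega) (mem_cube_cb _ x) (hQS.1.2.2 hx)
    have h1 : cb (Q.1 + 1) x ∈ S :=
      ⟨⟨by have := hQS.1.1; omega, by omega, hin⟩, Or.inr hc⟩
    have h2 := congrArg Prod.fst (hT2 Q hQ _ h1 (by omega) hsub)
    omega

theorem rdSingle3_up {d : ℕ} {θ μ : ℝ} (h0 : 0 < θ) (h1 : θ ≤ 1) (hμ : 0 < μ) {g : E d → ℝ}
    (hg : Nice g) {Q : Cb d} {x : E d} (hx : x ∈ cube Q)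
    (h : Mor θ g (cube (cb (Q.1 + 1) x)) (Q.1 + 1) μ) : Mor θ g (cube Q) Q.1 (2 ^ d * μ) := by
  have hl : (cb (Q.1 + 1) x).1 = Q.1 + 1 := rfl
  have hsub : cube Q ⊆ cube (cb (Q.1 + 1) x) :=
    (lm_cube (cb (Q.1 + 1) x)).cube_subset (by omega) hx (mem_cube_cb _ x)
  have h' := h.subset hg hsub
  have h3 := sz_add (d := d) Q.1 1
  rw [Nat.cast_one, pow_one] at h3
  intro n T hT
  rcases hT with ⟨rfl, rfl⟩ | ⟨u, v, a, b, hu, hv, huv, rfl⟩
  · refine (h' 0 univ (Or.inl ⟨rfl, rfl⟩)).trans (le_of_eq ?_)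
    rw [h3]
    ring
  · have e : Q.1 - (n : ℤ) = Q.1 + 1 - ((n + 1 : ℕ) : ℤ) := by
      push_cast
      ring
    refine (h' (n + 1) _ (Or.inr ⟨u, v, a, b, hu, hv, huv, by rw [e]⟩)).trans ?_
    have h4 : 0 ≤ 2 ^ d * μ * θ ^ n * sz d Q.1 := by
      have := sz_pos (d := d) Q.1
      positivity
    rw [h3, pow_succ]
    calc μ * (θ ^ n * θ) * (2 ^ d * sz d Q.1) = θ * (2 ^ d * μ * θ ^ n * sz d Q.1) := by ring
      _ ≤ _ := mul_le_of_le_one_left h4 h1

theorem rdSingle3_cd {d : ℕ} (hd : 1 ≤ d) : (1 : ℝ) ≤ 2 * (4 * d) ^ d := by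
  have h1 : (1 : ℝ) ≤ d := by exact_mod_cast hd
  have h2 : (1 : ℝ) ≤ (4 * d) ^ d := one_le_pow₀ (by linarith)
  linarith

theorem rdSingle3_atom {d : ℕ} {θ M a : ℝ} (hd : 1 ≤ d) (h0 : 1 / 2 ≤ θ) (h2 : S_Vol d)
    (hM : 0 < M) (ha : |a| ≤ M) {g : E d → ℝ} (hg : Nice g) {Q : Cb d}
    (h : Mor θ g (cube Q) Q.1 M) :
    Mor θ ((cube Q).indicator fun x => (2 * (M * (2 * (4 * d) ^ d)))⁻¹ * (g x - a))
      (cube Q) Q.1 1 := by
  intro n T hT
  have hcd := rdSingle3_cd hd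
  have hθ : 0 < θ := by linarith
  have hsz := sz_pos (d := d) Q.1
  have e0 := h2 Q n T hT
  generalize (2 * (4 * d) ^ d : ℝ) = c at hcd e0 ⊢
  have hc0 : 0 < c := by linarith
  have hi : IntegrableOn (fun x => |g x|) (cube Q ∩ T) := hg.abs.integrable.integrableOn
  have hc : IntegrableOn (fun _ : E d => M) (cube Q ∩ T) :=
    integrableOn_const (ne_top_of_le_ne_top (cube_fin Q) (measure_mono inter_subset_left))
  have e1 : volume.real (cube Q ∩ T) ≤ c * θ ^ n * sz d Q.1 := by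
    refine (ENNReal.toReal_le_of_le_ofReal (by positivity)
      ((measure_mono (inter_subset_inter_left T (cube_subset_big Q))).trans e0)).trans ?_
    gcongr
  have e2 : ∫ y in cube Q ∩ T, |g y| ≤ c * (M * θ ^ n * sz d Q.1) :=
    (h n T hT).trans (le_mul_of_one_le_left (by positivity) hcd)
  calc ∫ y in cube Q ∩ T, |(cube Q).indicator (fun x => (2 * (M * c))⁻¹ * (g x - a)) y|
      ≤ ∫ y in cube Q ∩ T, (2 * (M * c))⁻¹ * (|g y| + M) := by
        refine integral_mono_of_nonneg (Filter.Eventually.of_forall fun y => abs_nonneg _)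
          ((hi.add hc).const_mul _) ?_
        filter_upwards [ae_restrict_mem ((measurableSet_cube Q).inter hT.meas)] with y hy
        rw [indicator_of_mem hy.1, abs_mul, abs_of_pos (by positivity)]
        exact mul_le_mul_of_nonneg_left ((abs_sub _ _).trans (by linarith)) (by positivity)
    _ = (2 * (M * c))⁻¹ * ((∫ y in cube Q ∩ T, |g y|) + volume.real (cube Q ∩ T) * M) := by
        rw [integral_const_mul, integral_add hi hc, setIntegral_const, smul_eq_mul]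
    _ ≤ (2 * (M * c))⁻¹ * (c * (M * θ ^ n * sz d Q.1) + c * θ ^ n * sz d Q.1 * M) := by gcongr
    _ = _ := by field_simp; ring

theorem single_pf {d : ℕ} {θ : ℝ} (hd : 1 ≤ d) (h0 : 1 / 2 ≤ θ) (h1 : θ ≤ 1) (h2 : S_Vol d) :
    S_Single d θ := by
  obtain ⟨C₁, hC₁, r1⟩ := run1 hd
  have hcd := rdSingle3_cd hd
  have hcd0 : (0 : ℝ) < 2 * (4 * d) ^ d := by linarith
  have hθ : 0 < θ := by linarith
  refine ⟨2 ^ d * (2 * (4 * d) ^ d) * (C₁ + 2), by positivity, ?_⟩
  intro k m β hk hm hβ r3 g hg G hG W j₀ μ hμ hav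
  by_cases hx : j₀ ≤ W.1 ∧ ∃ x ∈ cube W, x ∈ G W.1
  swap
  · refine mom_zero (by linarith) fun x hxW => ?_
    unfold TG ps
    refine Finset.sum_eq_zero fun j hj => ?_
    rw [Finset.mem_Icc] at hj
    exact indicator_of_notMem (fun h => hx ⟨hj.1.trans hj.2, x, hxW, hG.mono _ _ hj.2 h⟩) _
  obtain ⟨hj, x₀, hx₀, hx₀G⟩ := hx
  have hW := hav W.1 hj le_rfl x₀ hx₀ hx₀G
  rw [cb_eq_of_mem hx₀] at hW
  obtain ⟨P, hP, hPW, hPl⟩ := cz_pf (fun Q => ¬ Mor θ g (cube Q) Q.1 μ) W j₀ hj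
    fun Q e hQ hc => hc (by rw [e]; exact hW.subset hg hQ)
  have hM0 : 0 < 2 ^ d * μ := by positivity
  set M : ℝ := 2 ^ d * μ * (2 * (4 * d) ^ d) with hMdef
  have hM : 0 < M := mul_pos hM0 hcd0
  have hMM : 2 ^ d * μ ≤ M := le_mul_of_one_le_right hM0.le hcd
  have hPM : ∀ Q ∈ P, Mor θ g (cube Q) Q.1 (2 ^ d * μ) := fun Q hQ => by
    obtain ⟨x, hx⟩ := cube_nonempty Q
    exact rdSingle3_up hθ h1 hμ hg hx (not_not.1 ((hPl Q hQ).2.2 x hx))
  have hPm : ∀ Q ∈ P, ∫ x in cube Q, |g x| ≤ M * sz d Q.1 := fun Q hQ =>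
    (hPM Q hQ).mass.trans (mul_le_mul_of_nonneg_right hMM (sz_pos _).le)
  have hA := single_atoms hg hP hM hPm
  set a : Cb d → ℝ := fun Q => (∫ y in cube Q, g y) / sz d Q.1 with hadef
  have ha0 : ∀ Q ∈ P, |a Q| ≤ 2 ^ d * μ := fun Q hQ => single_mean (hPM Q hQ).mass
  have ha : ∀ Q ∈ P, |a Q| ≤ M := fun Q hQ => (ha0 Q hQ).trans hMM
  set b : Cb d → E d → ℝ := fun Q => (cube Q).indicator fun x => (2 * M)⁻¹ * (g x - a Q)
    with hbdef
  have hB : MorA θ P b := fun Q hQ => rdSingle3_atom hd h0 h2 hM0 (ha0 Q hQ) hg (hPM Q hQ)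
  set γ : E d → ℝ := fun x => ∑ R ∈ P, (cube R).indicator (fun _ => a R / M) x with hγdef
  have hγn : Nice γ := nice_sum fun R _ => single_const R _
  have hbn : Nice fun x => ∑ Q ∈ P, b Q x := nice_sum hA.nice
  have hγ1 : ∀ x, |γ x| ≤ 1 := single_abs hP _ fun Q hQ => by
    rw [abs_div, abs_of_pos hM, div_le_one hM]; exact ha Q hQ
  have hcomp : ∀ j, j₀ ≤ j → j ≤ W.1 → ∀ x ∈ cube W, x ∈ G j → ∀ Q ∈ P,
      (cube Q ∩ big (cb j x)).Nonempty → Q.1 < j := by
    intro j hj₀ _ x hxW hxG Q hQ ⟨y, hyQ, hy⟩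
    by_contra hlt
    have hle : j ≤ Q.1 := not_lt.1 hlt
    have k1 := hav Q.1 (hj₀.trans hle) (hPl Q hQ).1.le x hxW (hG.mono _ _ hle hxG)
    have k2 : cube Q ⊆ big (cb Q.1 x) :=
      (lm_big (cb Q.1 x)).cube_subset le_rfl hyQ (big_mono hle x hy)
    exact (hPl Q hQ).2.1 (hj₀.trans hle) (k1.subset hg k2)
  have m1 := (r1 k γ hk hγn hγ1 G hG W j₀ m hm).const_mul (by linarith) (by positivity) hM.le
  have m3 := (r3 P b hA hB G hG W j₀ hcomp).const_mul (by linarith) hβ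
    (by positivity : 0 ≤ 2 * M)
  have m4 := m1.add m3 ((TG_nice hk hγn hG _ _).const_mul M).meas
    ((TG_nice hk hbn hG _ _).const_mul (2 * M)).meas hm (by positivity) (by positivity)
  refine m4.mono (by linarith) (by positivity) ?_ fun x hx => le_of_eq ?_
  · have k1 : 0 ≤ M * (C₁ * β) + M * (2 * m) := by positivity
    calc M * (C₁ * m) + 2 * M * β ≤ M * (C₁ * m) + 2 * M * β + (M * (C₁ * β) + M * (2 * m)) :=
          le_add_of_nonneg_right k1
      _ = _ := by rw [hMdef]; ring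
  · rw [← TG_const_mul, ← TG_const_mul, ← TG_add hk (hγn.const_mul M) (hbn.const_mul (2 * M))]
    congr 1
    refine TG_congr hk G j₀ hx fun y hy => ?_
    rw [hPW] at hy
    simp only [mem_iUnion] at hy
    obtain ⟨Q, hQ, hyQ⟩ := hy
    simp only [hγdef, hbdef]
    rw [single_sum hP (fun R _ => a R / M) hQ hyQ,
      single_sum hP (fun R x => (2 * M)⁻¹ * (g x - a R)) hQ hyQ]
    field_simp
    ring

/-- truncation along the level sets -/
noncomputable def rdGlue_T {d : ℕ} (φ : ℤ → E d → ℝ) (Y : ℤ → E d → ℝ≥0∞) (u : ℝ≥0∞) (a b : ℤ) :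
    E d → ℝ :=
  ps (fun j => {x | Y j x ≤ u}.indicator (φ j)) a b

/-- the points that drop below `t` after the level `κ` -/
def rdGlue_S {d : ℕ} (Y : ℤ → E d → ℝ≥0∞) (t : ℝ≥0∞) (κ : ℤ) : Set (E d) :=
  {x | t < Y κ x ∧ Y (κ + 1) x ≤ t}

theorem rdGlue_meas {d : ℕ} {φ : ℤ → E d → ℝ} {Y : ℤ → E d → ℝ≥0∞} (hφ : ∀ j, Measurable (φ j))
    (hY : ∀ j, Lc j (Y j)) (u : ℝ≥0∞) (a b : ℤ) : Measurable (rdGlue_T φ Y u a b) := by
  unfold rdGlue_T ps
  exact Finset.measurable_fun_sum _ fun j _ =>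
    (hφ j).indicator (measurableSet_le (measurable_of_ix (hY j)) measurable_const)

theorem rdGlue_union {d : ℕ} {Y : ℤ → E d → ℝ≥0∞} {b : ℤ} (an : ∀ i j x, i ≤ j → Y j x ≤ Y i x)
    (h0 : ∀ x, Y (b + 1) x = 0) (a : ℤ) (t : ℝ≥0∞) :
    {x | t < Y a x} = ⋃ κ ∈ Finset.Icc a b, rdGlue_S Y t κ := by
  classical
  ext x
  simp only [mem_ofPred_eq, mem_iUnion, Finset.mem_Icc, exists_prop]
  have h1 : ∀ j, b < j → Y j x ≤ t := fun j hj =>
    (an (b + 1) j x hj).trans ((h0 x).trans_le bot_le)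
  constructor
  · intro hx
    have hab : a ≤ b := not_lt.1 fun hab => (h1 a hab).not_gt hx
    obtain ⟨κ, hκ, hmax⟩ := Finset.exists_max_image
      ((Finset.Icc a b).filter fun j => t < Y j x) id ⟨a, by simp [hab, hx]⟩
    simp only [Finset.mem_filter, Finset.mem_Icc, id] at hκ hmax
    refine ⟨κ, hκ.1, hκ.2, ?_⟩
    by_contra hc
    rcases le_or_gt (κ + 1) b with h | h
    · have := hmax (κ + 1) ⟨⟨by omega, h⟩, not_le.1 hc⟩
      omega
    · exact hc (h1 _ h)
  · rintro ⟨κ, hκ, hx⟩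
    exact hx.1.trans_le (an _ _ x hκ.1)

theorem rdGlue_high {d : ℕ} (φ : ℤ → E d → ℝ) {Y : ℤ → E d → ℝ≥0∞}
    (an : ∀ i j x, i ≤ j → Y j x ≤ Y i x) {a : ℤ} (b : ℤ) {u : ℝ≥0∞} {x : E d} (h : Y a x ≤ u) :
    rdGlue_T φ Y u a b x = ps φ a b x := by
  unfold rdGlue_T ps
  refine Finset.sum_congr rfl fun j hj => ?_
  exact indicator_of_mem
    (show x ∈ {x | Y j x ≤ u} from (an a j x (Finset.mem_Icc.1 hj).1).trans h) _

theorem rdGlue_on {d : ℕ} (φ : ℤ → E d → ℝ) {Y : ℤ → E d → ℝ≥0∞}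
    (an : ∀ i j x, i ≤ j → Y j x ≤ Y i x) {a b κ : ℤ} (hκ : κ ≤ b) {t u : ℝ≥0∞} (htu : t ≤ u)
    {x : E d} (hx : x ∈ rdGlue_S Y t κ) :
    rdGlue_T φ Y u a b x - rdGlue_T φ Y t a b x = rdGlue_T φ Y u a κ x := by
  unfold rdGlue_T ps
  beta_reduce
  rw [← Finset.sum_sub_distrib]
  symm
  refine Finset.sum_subset_zero_on_sdiff (Finset.Icc_subset_Icc_right hκ) ?_ ?_
  · intro j hj
    simp only [Finset.mem_sdiff, Finset.mem_Icc] at hj
    have h1 : Y j x ≤ t := (an (κ + 1) j x (by omega)).trans hx.2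
    rw [indicator_of_mem (show x ∈ {x | Y j x ≤ u} from h1.trans htu),
      indicator_of_mem (show x ∈ {x | Y j x ≤ t} from h1), sub_self]
  · intro j hj
    have h1 : t < Y j x := hx.1.trans_le (an _ _ x (Finset.mem_Icc.1 hj).2)
    rw [indicator_of_notMem (show x ∉ {x | Y j x ≤ t} from not_le.2 h1), sub_zero]

theorem rdGlue_lev {d : ℕ} {φ : ℤ → E d → ℝ} {Y : ℤ → E d → ℝ≥0∞} (hφ : ∀ j, Measurable (φ j))
    (hY : ∀ j, Lc j (Y j)) (an : ∀ i j x, i ≤ j → Y j x ≤ Y i x) {a b : ℤ}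
    (h0 : ∀ x, Y (b + 1) x = 0) {m B M : ℝ} {V : E d → ℝ≥0∞} {t u : ℝ≥0∞} (hB0 : 0 ≤ B)
    (hm : 1 ≤ m) (hV : Flat V a b M) (ht : t ≤ u)
    (hS : ∀ W : Cb d, a ≤ W.1 → W.1 ≤ b → (∀ x ∈ cube W, Y W.1 x ≠ 0) →
      Mom (rdGlue_T φ Y u a W.1) W m B) :
    ∫⁻ x, ENNReal.ofReal |rdGlue_T φ Y u a b x - rdGlue_T φ Y t a b x| ^ m * V x ≤
      ENNReal.ofReal (B ^ m * M) * ∫⁻ x in {x | t < Y a x}, V x := by
  set H : E d → ℝ≥0∞ := fun x =>
    ENNReal.ofReal |rdGlue_T φ Y u a b x - rdGlue_T φ Y t a b x| ^ m * V x with hH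
  have hU : MeasurableSet {x | t < Y a x} :=
    measurableSet_lt measurable_const (measurable_of_ix (hY a))
  have lm : ∀ κ, LM κ (rdGlue_S Y t κ) := fun κ x y e hx =>
    ⟨hY κ x y e ▸ hx.1, (hY (κ + 1)).mono (by omega : κ ≤ κ + 1) x y e ▸ hx.2⟩
  have dj : (Finset.Icc a b : Set ℤ).PairwiseDisjoint (rdGlue_S Y t) := by
    intro i _ j _ hij
    refine Set.disjoint_left.2 fun x hi hj => ?_
    rcases lt_or_gt_of_ne hij with h | h
    · exact ((an (i + 1) j x h).trans hi.2).not_gt hj.1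
    · exact ((an (j + 1) i x h).trans hj.2).not_gt hi.1
  have h1 : ∫⁻ x, H x = ∫⁻ x in {x | t < Y a x}, H x := by
    rw [← lintegral_indicator hU]
    congr 1; funext x
    by_cases hx : x ∈ {x | t < Y a x}
    · rw [indicator_of_mem hx]
    · rw [indicator_of_notMem hx, hH]
      simp only [rdGlue_high φ an b (not_lt.1 hx), rdGlue_high φ an b ((not_lt.1 hx).trans ht),
        sub_self, abs_zero, ENNReal.ofReal_zero]
      rw [ENNReal.zero_rpow_of_pos (by linarith), zero_mul]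
  rw [h1, rdGlue_union an h0, lintegral_biUnion_finset dj (fun κ _ => (lm κ).meas),
    lintegral_biUnion_finset dj (fun κ _ => (lm κ).meas), Finset.mul_sum]
  refine Finset.sum_le_sum fun κ hκ => ?_
  obtain ⟨hκa, hκb⟩ := Finset.mem_Icc.1 hκ
  rw [← lintegral_const_mul' _ _ ENNReal.ofReal_ne_top]
  refine (lm κ).lintegral_le fun W hW hWS => ?_
  subst hW
  obtain ⟨β, hβ, hβV⟩ := hV W hκa hκb
  have hmom := hS W hκa hκb fun x hx => (bot_le.trans_lt (hWS hx).1).ne'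
  have hme : Measurable fun x => ENNReal.ofReal |rdGlue_T φ Y u a W.1 x| ^ m :=
    ((rdGlue_meas hφ hY u a W.1).abs.ennreal_ofReal).pow_const m
  calc ∫⁻ x in cube W, H x
      ≤ ∫⁻ x in cube W, ENNReal.ofReal |rdGlue_T φ Y u a W.1 x| ^ m * β := by
        refine setLIntegral_mono' (measurableSet_cube W) fun x hx => ?_
        rw [hH]
        simp only [rdGlue_on φ an hκb ht (hWS hx)]
        exact mul_le_mul_right (hβ x hx) _
    _ ≤ ENNReal.ofReal (B ^ m * sz d W.1) * β := by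
        rw [lintegral_mul_const _ hme]
        exact mul_le_mul_left hmom _
    _ = ENNReal.ofReal (B ^ m) * (β * ENNReal.ofReal (sz d W.1)) := by
        rw [ENNReal.ofReal_mul (by positivity)]; ring
    _ ≤ ENNReal.ofReal (B ^ m) * (ENNReal.ofReal M * ∫⁻ x in cube W, V x) :=
        mul_le_mul_right hβV _
    _ = ∫⁻ x in cube W, ENNReal.ofReal (B ^ m * M) * V x := by
        rw [lintegral_const_mul' _ _ ENNReal.ofReal_ne_top, ENNReal.ofReal_mul (by positivity),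
          mul_assoc]

theorem rdGlue_pow {u : ℝ≥0∞} (hu : u ≠ ∞) {q : ℝ} (hq : 0 ≤ q) :
    u ^ q = ENNReal.ofReal (u.toReal ^ q) := by
  rw [← ENNReal.ofReal_rpow_of_nonneg ENNReal.toReal_nonneg hq, ENNReal.ofReal_toReal hu]

theorem rdGlue_low {d : ℕ} {φ : ℤ → E d → ℝ} {Y : ℤ → E d → ℝ≥0∞}
    (an : ∀ i j x, i ≤ j → Y j x ≤ Y i x) {a b : ℤ} (ht : ∀ x, Y a x ≠ ∞)
    (hz : ∀ j x, a ≤ j → j ≤ b → Y j x = 0 → φ j x = 0) (x : E d) :
    ∀ᶠ n : ℤ in Filter.atBot, rdGlue_T φ Y (ENNReal.ofReal ((2 : ℝ) ^ n)) a b x = 0 := by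
  have h : ∀ᶠ n : ℤ in Filter.atBot, ∀ j ∈ Finset.Icc a b,
      ({x | Y j x ≤ ENNReal.ofReal ((2 : ℝ) ^ n)} : Set (E d)).indicator (φ j) x = 0 := by
    rw [Filter.eventually_all_finset]
    intro j hj
    obtain ⟨h1, h2⟩ := Finset.mem_Icc.1 hj
    by_cases h0 : Y j x = 0
    · exact .of_forall fun n => Set.indicator_apply_eq_zero.2 fun _ => hz j x h1 h2 h0
    · have hu := ne_top_of_le_ne_top (ht x) (an a j x h1)
      obtain ⟨m, hm, -⟩ := exists_mem_Ioc_zpow (ENNReal.toReal_pos h0 hu) (one_lt_two (α := ℝ))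
      filter_upwards [Filter.eventually_le_atBot m] with n hn
      refine Set.indicator_of_notMem ?_ _
      simp only [Set.mem_ofPred_eq]
      rw [ENNReal.le_ofReal_iff_toReal_le hu (by positivity), not_le]
      exact (zpow_le_zpow_right₀ one_le_two hn).trans_lt hm
  filter_upwards [h] with n hn
  exact Finset.sum_eq_zero hn

theorem rdGlue_point {A : ℝ≥0∞} (hu : A ≠ ∞) {T : ℤ → ℝ} {s q τ : ℝ} (hq : 1 ≤ q) (hτ : 0 < τ)
    (low : ∀ᶠ n in Filter.atBot, T n = 0)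
    (high : ∀ n : ℤ, A ≤ ENNReal.ofReal ((2 : ℝ) ^ n) → T n = s) :
    ENNReal.ofReal |s| ^ q ≤ ENNReal.ofReal ((11 * τ) ^ q) *
      (A ^ q + ∑' n : ℤ, ENNReal.ofReal (((2 : ℝ) ^ n / ((2 : ℝ) ^ n * τ) ^ 2) ^ q) *
        ENNReal.ofReal |T n - T (n - 1)| ^ (2 * q)) := by
  have hq0 : 0 < q := by linarith
  obtain ⟨n₀, hn₀⟩ := Filter.eventually_atBot.1 low
  by_cases h0 : A = 0
  · rw [← high n₀ (h0.trans_le bot_le), hn₀ n₀ le_rfl, abs_zero, ENNReal.ofReal_zero,
      ENNReal.zero_rpow_of_pos hq0]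
    exact bot_le
  have hw : 0 < A.toReal := ENNReal.toReal_pos h0 hu
  obtain ⟨m, hm1, hm2⟩ := exists_mem_Ioc_zpow hw (one_lt_two (α := ℝ))
  have hT : T (m + 1) = s := high _ ((ENNReal.le_ofReal_iff_toReal_le hu (by positivity)).2 hm2)
  set L := (m + 1 - n₀).toNat with hL
  have hlow : T (m + 1 - (L : ℕ)) = 0 := hn₀ _ (by omega)
  have tel := Finset.sum_range_sub' (fun i : ℕ => T (m + 1 - i)) L
  simp only [Nat.cast_zero, sub_zero, hlow, hT] at tel
  have hP : (0 : ℝ) < 2 ^ (m + 1) := by positivity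
  have hPA : (2 : ℝ) ^ (m + 1) ≤ 2 * A.toReal := by
    rw [zpow_add_one₀ two_ne_zero]; linarith
  have key := glue_real hτ hq hw.le hP hPA
    (fun i : ℕ => T (m + 1 - i) - T (m + 1 - ((i + 1 : ℕ) : ℤ))) L
  rw [tel] at key
  rw [ENNReal.ofReal_rpow_of_nonneg (abs_nonneg _) hq0.le, rdGlue_pow hu hq0.le]
  refine (ENNReal.ofReal_le_ofReal key).trans ?_
  rw [ENNReal.ofReal_mul (by positivity), ENNReal.ofReal_add (by positivity)
    (Finset.sum_nonneg fun i _ => by positivity)]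
  gcongr
  rw [ENNReal.ofReal_sum_of_nonneg fun i _ => by positivity]
  have hinj : Function.Injective fun i : ℕ => m + 1 - (i : ℤ) := fun i j h => by
    simp only at h; omega
  refine le_trans ?_ (ENNReal.tsum_comp_le_tsum_of_injective hinj _)
  refine le_trans (Finset.sum_le_sum fun i _ => le_of_eq ?_) (ENNReal.sum_le_tsum (Finset.range L))
  have e1 : (2 : ℝ) ^ (m + 1) / 2 ^ i = 2 ^ (m + 1 - (i : ℤ)) := by
    rw [zpow_sub₀ two_ne_zero, zpow_natCast]
  have e2 : m + 1 - ((i + 1 : ℕ) : ℤ) = m + 1 - (i : ℤ) - 1 := by push_cast; ring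
  rw [e1, e2, ENNReal.ofReal_rpow_of_nonneg (abs_nonneg _) (by positivity),
    ← ENNReal.ofReal_mul (by positivity), Real.rpow_mul (abs_nonneg _), Real.rpow_two,
    ← Real.mul_rpow (by positivity) (by positivity)]
  congr 2
  rw [div_pow]
  ring

theorem glue_pf {d : ℕ} : S_Glue d := by
  intro φ Y a b q τ M V hφ hY an h0 ht hz hq hτ0 hM hV hF hS'
  have hq0 : 0 < q := by linarith
  have hM0 : 0 < M := by linarith
  set I := ∫⁻ x, Y a x ^ q * V x with hI
  obtain ⟨T, hT⟩ : ∃ T : ℤ → E d → ℝ,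
      ∀ n, T n = rdGlue_T φ Y (ENNReal.ofReal ((2 : ℝ) ^ n)) a b := ⟨_, fun _ => rfl⟩
  have hmx : Measurable (Y a) := measurable_of_ix (hY a)
  have hTm : ∀ n, Measurable (T n) := fun n => hT n ▸ rdGlue_meas hφ hY _ a b
  have hZ : ∀ n : ℤ, Measurable fun x => ENNReal.ofReal |T n x - T (n - 1) x| ^ (2 * q) := fun n =>
    (ENNReal.measurable_ofReal.comp (continuous_abs.measurable.comp
      ((hTm n).sub (hTm (n - 1))))).pow_const _
  have hS : ∀ n : ℤ, MeasurableSet {x | ENNReal.ofReal ((2 : ℝ) ^ (n - 1)) < Y a x} :=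
    fun n => measurableSet_lt measurable_const hmx
  have lev : ∀ n : ℤ, ∫⁻ x, ENNReal.ofReal (((2 : ℝ) ^ n / ((2 : ℝ) ^ n * τ) ^ 2) ^ q) *
      ENNReal.ofReal |T n x - T (n - 1) x| ^ (2 * q) * V x ≤
      ENNReal.ofReal (M ^ q) * ∫⁻ x, (if (2 : ℝ) ^ (n - 1) < (Y a x).toReal then
        ENNReal.ofReal (((2 : ℝ) ^ n) ^ q) else 0) * V x := by
    intro n
    have h := rdGlue_lev hφ hY an h0 (B := 2 ^ n * τ) (m := 2 * q)
      (t := ENNReal.ofReal ((2 : ℝ) ^ (n - 1))) (u := ENNReal.ofReal ((2 : ℝ) ^ n))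
      (by positivity) (by linarith) hF
      (ENNReal.ofReal_le_ofReal (zpow_le_zpow_right₀ one_le_two (by omega)))
      fun W => hS' W (2 ^ n) (by positivity)
    rw [← hT, ← hT] at h
    have e : ∫⁻ x, (if (2 : ℝ) ^ (n - 1) < (Y a x).toReal then
        ENNReal.ofReal (((2 : ℝ) ^ n) ^ q) else 0) * V x = ENNReal.ofReal (((2 : ℝ) ^ n) ^ q) *
        ∫⁻ x in {x | ENNReal.ofReal ((2 : ℝ) ^ (n - 1)) < Y a x}, V x := by
      rw [← lintegral_const_mul _ hV, ← lintegral_indicator (hS n)]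
      refine lintegral_congr fun x => ?_
      have hiff := ENNReal.le_ofReal_iff_toReal_le (ht x)
        (show (0 : ℝ) ≤ (2 : ℝ) ^ (n - 1) by positivity)
      by_cases hx : (2 : ℝ) ^ (n - 1) < (Y a x).toReal
      · rw [if_pos hx, Set.indicator_of_mem]
        exact not_le.1 fun h' => absurd (hiff.1 h') (not_le.2 hx)
      · rw [if_neg hx, zero_mul, Set.indicator_of_notMem]
        exact fun h' => absurd (hiff.2 (not_lt.1 hx)) (not_le.2 h')
    simp_rw [mul_assoc (ENNReal.ofReal (((2 : ℝ) ^ n / ((2 : ℝ) ^ n * τ) ^ 2) ^ q))]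
    rw [lintegral_const_mul' _ _ ENNReal.ofReal_ne_top, e]
    refine (mul_le_mul_right h _).trans (le_of_eq ?_)
    rw [← mul_assoc, ← mul_assoc (ENNReal.ofReal (M ^ q)), ← ENNReal.ofReal_mul (by positivity),
      ← ENNReal.ofReal_mul (by positivity)]
    congr 2
    rw [Real.rpow_mul (by positivity), Real.rpow_two, ← mul_assoc,
      ← Real.mul_rpow (by positivity) (by positivity), div_mul_cancel₀ _ (by positivity), mul_comm]
  have hif : ∀ n : ℤ, Measurable fun x => (if (2 : ℝ) ^ (n - 1) < (Y a x).toReal then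
      ENNReal.ofReal (((2 : ℝ) ^ n) ^ q) else 0) * V x := fun n =>
    (Measurable.ite (measurableSet_lt measurable_const hmx.ennreal_toReal)
      measurable_const measurable_const).mul hV
  have tail : ∑' n : ℤ, ∫⁻ x, (if (2 : ℝ) ^ (n - 1) < (Y a x).toReal then
      ENNReal.ofReal (((2 : ℝ) ^ n) ^ q) else 0) * V x ≤ ENNReal.ofReal (2 * 2 ^ q) * I := by
    rw [← lintegral_tsum fun n => (hif n).aemeasurable, hI,
      ← lintegral_const_mul' _ _ ENNReal.ofReal_ne_top]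
    refine lintegral_mono fun x => ?_
    simp only
    rw [ENNReal.tsum_mul_right, ← mul_assoc, rdGlue_pow (ht x) hq0.le,
      ← ENNReal.ofReal_mul (by positivity)]
    exact mul_le_mul_left (glue_tail (by positivity) hq) _
  have hconst : (11 * τ) ^ q * (1 + M ^ q * (2 * 2 ^ q)) ≤ (88 * M * τ) ^ q := by
    have h1 : 1 ≤ (2 * M) ^ q := Real.one_le_rpow (by linarith) hq0.le
    have h2 : (2 * M) ^ q = 2 ^ q * M ^ q := Real.mul_rpow (by norm_num) hM0.le
    have h3 : (4 : ℝ) ≤ 4 ^ q := Real.self_le_rpow_of_one_le (by norm_num) hq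
    have h4 : 1 + M ^ q * (2 * 2 ^ q) ≤ (4 * (2 * M)) ^ q := by
      rw [Real.mul_rpow (by norm_num) (by positivity)]
      nlinarith
    calc (11 * τ) ^ q * (1 + M ^ q * (2 * 2 ^ q)) ≤ (11 * τ) ^ q * (4 * (2 * M)) ^ q := by gcongr
      _ = (11 * τ * (4 * (2 * M))) ^ q := (Real.mul_rpow (by positivity) (by positivity)).symm
      _ = _ := by congr 1; ring
  calc ∫⁻ x, ENNReal.ofReal |ps φ a b x| ^ q * V x
      ≤ ∫⁻ x, ENNReal.ofReal ((11 * τ) ^ q) * (Y a x ^ q * V x +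
          ∑' n : ℤ, ENNReal.ofReal (((2 : ℝ) ^ n / ((2 : ℝ) ^ n * τ) ^ 2) ^ q) *
          ENNReal.ofReal |T n x - T (n - 1) x| ^ (2 * q) * V x) := by
        refine lintegral_mono fun x => ?_
        simp only
        rw [ENNReal.tsum_mul_right, ← add_mul, ← mul_assoc]
        refine mul_le_mul_left (rdGlue_point (T := fun n => T n x) (ht x) hq hτ0 ?_ ?_) _
        · simp only [hT]
          exact rdGlue_low an ht hz x
        · intro n hn
          rw [hT]
          exact rdGlue_high φ an b hn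
    _ = ENNReal.ofReal ((11 * τ) ^ q) * (I +
          ∑' n : ℤ, ∫⁻ x, ENNReal.ofReal (((2 : ℝ) ^ n / ((2 : ℝ) ^ n * τ) ^ 2) ^ q) *
          ENNReal.ofReal |T n x - T (n - 1) x| ^ (2 * q) * V x) := by
        rw [lintegral_const_mul' _ _ ENNReal.ofReal_ne_top,
          lintegral_add_left ((hmx.pow_const _).fun_mul hV),
          lintegral_tsum fun n => (((hZ n).const_mul _).fun_mul hV).aemeasurable]
    _ ≤ ENNReal.ofReal ((11 * τ) ^ q) * (I + ENNReal.ofReal (M ^ q) *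
          (ENNReal.ofReal (2 * 2 ^ q) * I)) := by
        refine mul_le_mul_right (add_le_add_right ?_ _) _
        refine (ENNReal.tsum_le_tsum lev).trans ?_
        rw [ENNReal.tsum_mul_left]
        exact mul_le_mul_right tail _
    _ = ENNReal.ofReal ((11 * τ) ^ q * (1 + M ^ q * (2 * 2 ^ q))) * I := by
        rw [ENNReal.ofReal_mul (p := (11 * τ) ^ q) (by positivity),
          ENNReal.ofReal_add zero_le_one (by positivity),
          ENNReal.ofReal_mul (p := M ^ q) (by positivity), ENNReal.ofReal_one]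
        ring
    _ ≤ _ := mul_le_mul_left (ENNReal.ofReal_le_ofReal hconst) _

theorem rdChain_pt {X Z : ℝ≥0∞} {β β' q : ℝ} (hβ : β.HolderConjugate β') (hq : 0 < q)
    (h : X = 0 ∨ (Z ≠ 0 ∧ Z ≠ ∞)) :
    (X ^ (1 / β) * Z ^ (1 / β')) ^ q * Z ^ (-(q - 1)) ≤ X ^ (q / β / 1) * Z ^ (-(q / β - 1)) := by
  have hb : 0 < β := hβ.pos
  rcases h with h | ⟨h0, ht⟩
  · rw [h, ENNReal.zero_rpow_of_pos (by positivity), zero_mul, ENNReal.zero_rpow_of_pos hq,
      zero_mul]
    exact zero_le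
  · have e : 1 / β' * q + -(q - 1) = -(q / β - 1) := by
      have h1 : β'⁻¹ = 1 - β⁻¹ := by
        have := hβ.inv_add_inv_eq_one
        linarith
      rw [one_div, h1, div_eq_mul_inv]
      ring
    rw [ENNReal.mul_rpow_of_nonneg _ _ hq.le, ← ENNReal.rpow_mul, ← ENNReal.rpow_mul, mul_assoc,
      ← ENNReal.rpow_add _ _ h0 ht, e]
    refine le_of_eq ?_
    congr 2
    ring

theorem rdChain_wt {s w β q : ℝ} (hs : 0 ≤ s) (hw : 0 < w) (hb : 0 < β) (hq : 0 < q) :
    ENNReal.ofReal |s ^ β * w ^ (1 - β)| ^ (q / β) * ENNReal.ofReal w ^ (-(q / β - 1)) =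
      ENNReal.ofReal s ^ q * ENNReal.ofReal w ^ (-(q - 1)) := by
  have h0 : ENNReal.ofReal w ≠ 0 := (ENNReal.ofReal_pos.2 hw).ne'
  have e1 : β * (q / β) = q := by field_simp
  have e2 : (1 - β) * (q / β) + -(q / β - 1) = -(q - 1) := by
    rw [sub_mul, e1]
    ring
  rw [abs_of_nonneg (by positivity), ENNReal.ofReal_mul (by positivity),
    ← ENNReal.ofReal_rpow_of_nonneg hs hb.le, ← ENNReal.ofReal_rpow_of_pos hw,
    ENNReal.mul_rpow_of_nonneg _ _ (by positivity), ← ENNReal.rpow_mul, ← ENNReal.rpow_mul,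
    mul_assoc, ← ENNReal.rpow_add _ _ h0 ENNReal.ofReal_ne_top, e1, e2]

theorem chain_pf {d : ℕ} : S_Chain d := by
  obtain ⟨C₀, hC₀, h3⟩ := mx_chain1 (d := d)
  refine ⟨2 * max C₀ 1, by positivity, fun w g A β β' q a b hw hg hβ hq => ?_⟩
  have hb1 : 1 < β := hβ.lt
  have hb : 0 < β := by linarith
  have hq0 : 0 < q := by linarith
  have hq2 : 2 ≤ q / β := by rwa [le_div_iff₀ hb]
  have hqq : q / β ≤ q := div_le_self hq0.le hb1.le
  have hA : 0 < A := zero_lt_one.trans_le hw.one_le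
  have hwm := hw.meas
  have hG : Measurable (gb β g w) := by
    unfold gb
    exact (hg.abs.pow_const _).mul (hwm.pow_const _)
  have h4 := h3 w A (q / β) hw (by linarith) (gb β g w) hG a b
  have e1 : (fun y => ENNReal.ofReal |gb β g w y| ^ (1 : ℝ)) =
      fun y => ENNReal.ofReal (gb β g w y) := by
    funext y
    have := hw.pos y
    rw [ENNReal.rpow_one, abs_of_nonneg]
    unfold gb
    positivity
  have e2 : (fun x => ENNReal.ofReal |gb β g w x| ^ (q / β) *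
      ENNReal.ofReal (w x) ^ (-(q / β - 1))) =
      fun x => ENNReal.ofReal |g x| ^ q * ENNReal.ofReal (w x) ^ (-(q - 1)) := by
    funext x
    exact rdChain_wt (abs_nonneg _) (hw.pos x) hb hq0
  rw [e1, e2] at h4
  have h7 : C₀ ^ (q / β) * (A * (q / β / (q / β - 1))) ≤ (2 * max C₀ 1) ^ q * A := by
    have f1 : C₀ ^ (q / β) ≤ max C₀ 1 ^ q :=
      (Real.rpow_le_rpow hC₀.le (le_max_left _ _) (by positivity)).trans
        (Real.rpow_le_rpow_of_exponent_le (le_max_right _ _) hqq)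
    have f2 : q / β / (q / β - 1) ≤ 2 := by
      rw [div_le_iff₀ (by linarith)]
      linarith
    have f3 : (2 : ℝ) ≤ 2 ^ q := Real.self_le_rpow_of_one_le one_le_two (by linarith)
    have f4 : 0 ≤ q / β / (q / β - 1) := div_nonneg (by linarith) (by linarith)
    rw [Real.mul_rpow zero_le_two (by positivity)]
    calc _ ≤ max C₀ 1 ^ q * (A * 2 ^ q) := by gcongr; exact f2.trans f3
      _ = _ := by ring
  refine le_trans (lintegral_mono fun x => ?_)
    (h4.trans (mul_le_mul_left (ENNReal.ofReal_le_ofReal h7) _))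
  refine rdChain_pt hβ hq0 ?_
  by_cases hab : a ≤ b
  · exact Or.inr ⟨((wt1_av_pos hw a x).trans_le (av_le_mx le_rfl hab _ x)).ne',
      wt1_mx_ne_top hw a b x⟩
  · refine Or.inl (le_antisymm (mx_le_iff.2 fun j h1 h2 => ?_) zero_le)
    exact absurd (h1.trans h2) hab

theorem rdLoc3_lc {d : ℕ} (θ : ℝ) (g : E d → ℝ) (z : Set (E d)) (b j : ℤ) :
    Lc j (moY θ g z b j) := fun x y e => by
  simp only [moY]
  refine iSup_congr fun i => iSup_congr fun hi => ?_
  have e' : ix i x = ix i y := ix_mono (Finset.mem_Icc.1 hi).1 e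
  have hc : cb i x = cb i y := by simp only [cb, e']
  by_cases hx : x ∈ loc z i
  · rw [indicator_of_mem hx, indicator_of_mem (loc_lm z i x y e' hx)]
    simp only [mo, hc]
  · rw [indicator_of_notMem hx, indicator_of_notMem fun hy => hx (loc_lm z i y x e'.symm hy)]

theorem rdLoc3_anti {d : ℕ} (θ : ℝ) (g : E d → ℝ) (z : Set (E d)) (b i j : ℤ) (x : E d) (h : i ≤ j) :
    moY θ g z b j x ≤ moY θ g z b i x :=
  iSup₂_le fun l hl => le_iSup₂_of_le (f := fun l (_ : l ∈ Finset.Icc i b) =>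
    (loc z l).indicator (mo θ g l) x) l (Finset.Icc_subset_Icc_left h hl) le_rfl

theorem rdLoc3_le {d : ℕ} (θ : ℝ) (g : E d → ℝ) {z : Set (E d)} {b j : ℤ} {x : E d} (h : j ≤ b)
    (hx : x ∈ loc z j) : mo θ g j x ≤ moY θ g z b j x :=
  le_iSup₂_of_le (f := fun l (_ : l ∈ Finset.Icc j b) => (loc z l).indicator (mo θ g l) x) j
    (Finset.mem_Icc.2 ⟨le_rfl, h⟩) (indicator_of_mem hx _).ge

theorem rdLoc3_top {d : ℕ} (θ : ℝ) (g : E d → ℝ) (z : Set (E d)) (b : ℤ) (x : E d) :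
    moY θ g z b (b + 1) x = 0 := by
  refine le_antisymm (iSup₂_le fun i hi => ?_) zero_le
  have := Finset.mem_Icc.1 hi
  omega

theorem rdLoc3_bdd {d : ℕ} {θ : ℝ} (h0 : 1 / 2 ≤ θ) (h1 : S_Vol d) {g : E d → ℝ} {B : ℝ}
    (hB : ∀ x, |g x| ≤ B) (j : ℤ) (x : E d) :
    mo θ g j x ≤ ENNReal.ofReal (B * (2 * (4 * d) ^ d)) := by
  have hB0 : 0 ≤ B := (abs_nonneg _).trans (hB 0)
  refine (mo_le_iff (by linarith) (by positivity)).2 fun n T hT => ?_
  have hv := h1 (cb j x) n T hT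
  have hs := (sz_pos (d := d) j).le
  have h2 : ‖∫ y in big (cb j x) ∩ T, |g y|‖ ≤ B * volume.real (big (cb j x) ∩ T) :=
    norm_setIntegral_le_of_norm_le_const (hv.trans_lt ENNReal.ofReal_lt_top)
      fun y _ => by rw [Real.norm_eq_abs, abs_abs]; exact hB y
  have h3 : volume.real (big (cb j x) ∩ T) ≤ 2 * (4 * d) ^ d * (1 / 2) ^ n * sz d j :=
    ENNReal.toReal_le_of_le_ofReal (by positivity) hv
  have h4 : (1 / 2 : ℝ) ^ n ≤ θ ^ n := pow_le_pow_left₀ (by norm_num) h0 n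
  rw [Real.norm_eq_abs] at h2
  refine (le_abs_self _).trans (h2.trans ((mul_le_mul_of_nonneg_left h3 hB0).trans ?_))
  calc B * (2 * (4 * d) ^ d * (1 / 2) ^ n * sz d j)
      = B * (2 * (4 * d) ^ d) * (1 / 2) ^ n * sz d j := by ring
    _ ≤ _ := by gcongr

theorem rdLoc3_zero {d : ℕ} {θ : ℝ} (h0 : 0 < θ) {k g : E d → ℝ} (hk : IsKer k) (hg : Nice g)
    {j : ℤ} {x : E d} (h : mo θ g j x ≤ 0) : cv k j g x = 0 := by
  have hM : Mor θ g (big (cb j x)) j 0 := (mo_le_iff h0 le_rfl).1 (by rwa [ENNReal.ofReal_zero])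
  have h2 := hM.mass
  rw [zero_mul] at h2
  have h5 := cv_le hk hg j x
  have h6 : 0 ≤ (4 : ℝ) ^ d / sz d j := div_nonneg (by positivity) (sz_pos j).le
  exact abs_nonpos_iff.1 (h5.trans (mul_nonpos_of_nonneg_of_nonpos h6 h2))

theorem loc_pf {d : ℕ} {θ : ℝ} (h0 : 1 / 2 ≤ θ) (h1 : S_Vol d) (h2 : S_Run d θ)
    (h3 : S_Single d θ) (h4 : S_Glue d) : S_Loc d θ := by
  have hθ : 0 < θ := by linarith
  obtain ⟨C2, hC2, h2⟩ := h2
  obtain ⟨C3, hC3, h3⟩ := h3
  refine ⟨88 * C3 * 2 * (1 + C2), by positivity, fun k g z a b q M V hk hg hq hM hV hF => ?_⟩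
  have hq0 : 0 < q := one_pos.trans_le hq
  have hτ : 0 < C3 * (2 * q + C2 * (2 * q)) := by positivity
  have e : 88 * C3 * 2 * (1 + C2) * M * q = 88 * M * (C3 * (2 * q + C2 * (2 * q))) := by ring
  rw [e]
  obtain ⟨B, hB⟩ := hg.bdd
  refine h4 (fun j => (loc z j).indicator (cv k j g)) (moY θ g z b) a b q _ M V
    (fun j => (cv_nice hk hg j).meas.indicator (loc_meas z j)) (rdLoc3_lc θ g z b)
    (rdLoc3_anti θ g z b) (rdLoc3_top θ g z b) (fun x => ?_) (fun j x _ hj hY => ?_) hq hτ hM hV hF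
    fun W μ hμ haW hWb hW => ?_
  · refine ne_top_of_le_ne_top (ENNReal.ofReal_ne_top (r := B * (2 * (4 * d) ^ d)))
      (iSup₂_le fun i _ => ?_)
    exact (indicator_le_self _ _ x).trans (rdLoc3_bdd h0 h1 hB i x)
  · by_cases hx : x ∈ loc z j
    · rw [indicator_of_mem hx]
      exact rdLoc3_zero hθ hk hg ((rdLoc3_le θ g hj hx).trans hY.le)
    · exact indicator_of_notMem hx _
  · have hloc : ∀ x ∈ cube W, ∀ j, j ≤ W.1 → x ∈ loc z j := fun x hx j hj => by
      by_contra hn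
      refine hW x hx (le_antisymm (iSup₂_le fun i hi => ?_) zero_le)
      exact (indicator_of_notMem
        (fun hi' => hn (loc_anti z (hj.trans (Finset.mem_Icc.1 hi).1) hi')) _).le
    have hS : Stop fun j => {x | moY θ g z b j x ≤ ENNReal.ofReal μ} :=
      ⟨fun j x y e hx => (rdLoc3_lc θ g z b j x y e).ge.trans hx,
        fun i j hij x hx => (rdLoc3_anti θ g z b i j x hij).trans hx⟩
    have hm : (1 : ℝ) ≤ 2 * q := by linarith
    have h5 := h3 k (2 * q) (C2 * (2 * q)) hk hm (by positivity) (h2 k hk _ hm) g hg _ hS W a μ hμ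
      fun j _ hj x hx hG =>
        (mo_le_iff hθ hμ.le).1 ((rdLoc3_le θ g (hj.trans hWb) (hloc x hx j hj)).trans hG)
    refine h5.mono (by positivity) (by positivity) le_rfl fun x hx => le_of_eq ?_
    congr 1
    refine Finset.sum_congr rfl fun j hj => ?_
    beta_reduce
    by_cases hG : x ∈ {x | moY θ g z b j x ≤ ENNReal.ofReal μ}
    · rw [indicator_of_mem hG, indicator_of_mem hG,
        indicator_of_mem (hloc x hx j (Finset.mem_Icc.1 hj).2)]
    · rw [indicator_of_notMem hG, indicator_of_notMem hG]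

theorem locw_pf {d : ℕ} {σ θ β β' : ℝ} (hβ : β.HolderConjugate β') (h0 : 0 < σ)
    (h1 : σ ^ (1 / β') ≤ θ) (h2 : S_Loc d θ) (h3 : S_Hold d) (h4 : S_Chain d) :
    S_LocW d σ β := by
  obtain ⟨M, hM, hfl⟩ := flat_mx (d := d)
  obtain ⟨C₂, hC₂, hloc⟩ := h2
  obtain ⟨C₃, hC₃, hch⟩ := h4
  refine ⟨C₂ * M * (3 * 2 ^ (d + 2)) ^ d * C₃, by positivity,
    fun k g w z A D q a b hk hg hw hrd hD hq => ?_⟩
  have hb1 : 1 < β := hβ.lt
  have hb' : 0 < β' := hβ.symm.pos
  have hq1 : 1 < q := by linarith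
  have hA : 0 < A := zero_lt_one.trans_le hw.one_le
  set W : E d → ℝ≥0∞ := fun y => ENNReal.ofReal (w y) with hW
  set G : E d → ℝ≥0∞ := fun y => ENNReal.ofReal (gb β g w y) with hG
  have hV : Measurable fun x => mx a (b + (d + 2 : ℕ)) W x ^ (-(q - 1)) := (mx_meas _ _ _).pow_const _
  have hF : Flat (fun x => mx a (b + (d + 2 : ℕ)) W x ^ (-(q - 1))) a b (M ^ q) := fun R h4 h5 =>
    hfl w A hw a (b + (d + 2 : ℕ)) q hq1 R h4 (by omega)
  have h5 := hloc k g z a b q M _ hk hg hq1.le hM hV hF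
  have h4 := hch w g A β β' q a (b + (d + 2 : ℕ)) hw hg.meas hβ hq
  have hpt : ∀ x, moY θ g z b a x ≤ ENNReal.ofReal ((3 * 2 ^ (d + 2)) ^ d * D) *
      (mx a (b + (d + 2 : ℕ)) G x ^ (1 / β) * mx a (b + (d + 2 : ℕ)) W x ^ (1 / β')) := by
    intro x
    refine iSup₂_le fun i hi => ?_
    obtain ⟨hi1, hi2⟩ := Finset.mem_Icc.1 hi
    by_cases hx : x ∈ loc z i
    · rw [indicator_of_mem hx]
      refine (h3 w g z A σ θ D β β' i x hw hg hrd hβ hD h0 h1 hx).trans ?_
      refine mul_le_mul_right (mul_le_mul' ?_ ?_) _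
      · exact ENNReal.rpow_le_rpow (av_le_mx hi1 (by omega) G x) (by positivity)
      · exact ENNReal.rpow_le_rpow (av_le_mx (by omega) (by omega) W x) (by positivity)
    · rw [indicator_of_notMem hx]
      exact zero_le
  have h6 : ∫⁻ x, moY θ g z b a x ^ q * mx a (b + (d + 2 : ℕ)) W x ^ (-(q - 1)) ≤
      ENNReal.ofReal (((3 * 2 ^ (d + 2)) ^ d * D) ^ q) *
        ∫⁻ x, (mx a (b + (d + 2 : ℕ)) G x ^ (1 / β) * mx a (b + (d + 2 : ℕ)) W x ^ (1 / β')) ^ q *
          mx a (b + (d + 2 : ℕ)) W x ^ (-(q - 1)) := by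
    rw [← lintegral_const_mul' _ _ ENNReal.ofReal_ne_top]
    refine lintegral_mono fun x => ?_
    rw [← mul_assoc, ← ENNReal.ofReal_rpow_of_pos (by positivity),
      ← ENNReal.mul_rpow_of_nonneg _ _ (by positivity)]
    exact mul_le_mul_left (ENNReal.rpow_le_rpow (hpt x) (by positivity)) _
  have h7 : A ^ (q - 1) * ((C₂ * M * q) ^ q * (((3 * 2 ^ (d + 2)) ^ d * D) ^ q * (C₃ ^ q * A))) =
      (C₂ * M * (3 * 2 ^ (d + 2)) ^ d * C₃ * D * q * A) ^ q := by
    have e1 : A ^ (q - 1) * A = A ^ q := by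
      rw [Real.rpow_sub_one hA.ne', div_mul_cancel₀ _ hA.ne']
    calc _ = A ^ (q - 1) * A * (C₂ * M * q) ^ q * ((3 * 2 ^ (d + 2)) ^ d * D) ^ q * C₃ ^ q := by ring
      _ = _ := by
          rw [e1, ← Real.mul_rpow hA.le (by positivity),
            ← Real.mul_rpow (by positivity) (by positivity),
            ← Real.mul_rpow (by positivity) hC₃.le]
          congr 1
          ring
  calc _ ≤ ∫⁻ x, ENNReal.ofReal (A ^ (q - 1)) *
        (ENNReal.ofReal |ps (fun j => (loc z j).indicator (cv k j g)) a b x| ^ q *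
          mx a (b + (d + 2 : ℕ)) W x ^ (-(q - 1))) := by
        refine lintegral_mono_ae ((w_le_mx hw a (b + (d + 2 : ℕ)) hq1).mono fun x hx => ?_)
        rw [mul_left_comm]
        exact mul_le_mul_right hx _
    _ = ENNReal.ofReal (A ^ (q - 1)) *
        ∫⁻ x, ENNReal.ofReal |ps (fun j => (loc z j).indicator (cv k j g)) a b x| ^ q *
          mx a (b + (d + 2 : ℕ)) W x ^ (-(q - 1)) :=
        lintegral_const_mul' _ _ ENNReal.ofReal_ne_top
    _ ≤ ENNReal.ofReal (A ^ (q - 1)) * (ENNReal.ofReal ((C₂ * M * q) ^ q) *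
        (ENNReal.ofReal (((3 * 2 ^ (d + 2)) ^ d * D) ^ q) * (ENNReal.ofReal (C₃ ^ q * A) *
          ∫⁻ x, ENNReal.ofReal |g x| ^ q * ENNReal.ofReal (w x) ^ (-(q - 1))))) :=
        mul_le_mul_right (h5.trans (mul_le_mul_right (h6.trans (mul_le_mul_right h4 _)) _)) _
    _ = _ := by
        rw [← h7, ENNReal.ofReal_mul (p := A ^ (q - 1)) (by positivity),
          ENNReal.ofReal_mul (p := (C₂ * M * q) ^ q) (by positivity),
          ENNReal.ofReal_mul (p := ((3 * 2 ^ (d + 2)) ^ d * D) ^ q) (by positivity)]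
        simp only [mul_assoc]

theorem rdHold3_pt {p q u w : ℝ} (h : p.HolderConjugate q) (hu : 0 ≤ u) (hw : 0 < w) :
    ENNReal.ofReal u =
      ENNReal.ofReal (u ^ p * w ^ (1 - p)) ^ (1 / p) * ENNReal.ofReal w ^ (1 / q) := by
  have hp := h.pos
  have hq := h.symm.pos
  have h1 : 0 ≤ u ^ p * w ^ (1 - p) := by positivity
  rw [ENNReal.ofReal_rpow_of_nonneg h1 (by positivity),
    ENNReal.ofReal_rpow_of_nonneg hw.le (by positivity), ← ENNReal.ofReal_mul (by positivity),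
    Real.mul_rpow (by positivity) (by positivity), ← Real.rpow_mul hu, ← Real.rpow_mul hw.le,
    mul_assoc, ← Real.rpow_add hw, mul_one_div_cancel hp.ne', Real.rpow_one]
  have h2 : (1 - p) * (1 / p) + 1 / q = 0 := by
    have h3 := h.inv_add_inv_eq_one
    rw [sub_mul, mul_one_div_cancel hp.ne', one_mul, one_div, one_div]
    linarith
  rw [h2, Real.rpow_zero, mul_one]

theorem rdHold3_real {p q a c D σ θ : ℝ} (n : ℕ) (h : p.HolderConjugate q) (ha : 0 ≤ a) (hac : a ≤ c)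
    (hc : 0 < c) (hD : 1 ≤ D) (hσ : 0 < σ) (hθ : σ ^ (1 / q) ≤ θ) :
    a ^ (1 / p) * ((D * σ ^ n) ^ (1 / q) * c ^ (1 / q)) ≤ D * θ ^ n * c := by
  have hp := h.pos
  have hq := h.symm.pos
  have h1 : a ^ (1 / p) ≤ c ^ (1 / p) := Real.rpow_le_rpow ha hac (by positivity)
  have h2 : c ^ (1 / p) * c ^ (1 / q) = c := by
    rw [← Real.rpow_add hc, one_div, one_div, h.inv_add_inv_eq_one, Real.rpow_one]
  have h3 : D ^ (1 / q) ≤ D := by
    refine (Real.rpow_le_rpow_of_exponent_le hD ?_).trans_eq (Real.rpow_one D)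
    rw [div_le_one hq]
    exact h.symm.lt.le
  have h4 : (σ ^ n) ^ (1 / q) ≤ θ ^ n := by
    rw [← Real.rpow_natCast σ n, ← Real.rpow_mul hσ.le, mul_comm, Real.rpow_mul hσ.le,
      Real.rpow_natCast]
    exact pow_le_pow_left₀ (by positivity) hθ n
  have hD0 : 0 ≤ D := by linarith
  have h5 : (D * σ ^ n) ^ (1 / q) ≤ D * θ ^ n := by
    rw [Real.mul_rpow hD0 (by positivity)]
    exact mul_le_mul h3 h4 (by positivity) hD0
  calc a ^ (1 / p) * ((D * σ ^ n) ^ (1 / q) * c ^ (1 / q))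
      ≤ c ^ (1 / p) * ((D * θ ^ n) * c ^ (1 / q)) :=
        mul_le_mul h1 (mul_le_mul_of_nonneg_right h5 (by positivity)) (by positivity)
          (by positivity)
    _ = D * θ ^ n * (c ^ (1 / p) * c ^ (1 / q)) := by ring
    _ = _ := by rw [h2]

theorem rdHold3_av {d : ℕ} (j : ℤ) (F : E d → ℝ≥0∞) (x : E d) :
    ∫⁻ y in big (cb j x), F y = av j F x * ENNReal.ofReal (3 ^ d * sz d j) := by
  have h : 0 < 3 ^ d * sz d j := mul_pos (by positivity) (sz_pos j)
  rw [av, ENNReal.div_mul_cancel (ENNReal.ofReal_pos.2 h).ne' ENNReal.ofReal_ne_top]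

theorem hold_pf {d : ℕ} : S_Hold d := by
  intro w g z A σ θ D β β' j x hw hg hR h hD hσ hθ hx
  have hp := h.pos
  have hq := h.symm.pos
  have hθ0 : 0 < θ := (Real.rpow_pos_of_pos hσ _).trans_le hθ
  have hs : 0 < sz d j := sz_pos j
  have hD0 : 0 ≤ D := by linarith
  refine iSup_le fun n => iSup_le fun T => iSup_le fun hT => ?_
  rw [ENNReal.ofReal_div_of_pos (by positivity)]
  refine ENNReal.div_le_of_le_mul ?_
  have m1 : Measurable fun y => ENNReal.ofReal (gb β g w y) :=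
    ((hg.meas.abs.pow_const β).mul (hw.meas.pow_const (1 - β))).ennreal_ofReal
  have m2 : Measurable fun y => ENNReal.ofReal (w y) := hw.meas.ennreal_ofReal
  have h1 := ENNReal.lintegral_mul_le_Lp_mul_Lq (volume.restrict (big (cb j x) ∩ T)) h
    (m1.pow_const (1 / β)).aemeasurable (m2.pow_const (1 / β')).aemeasurable
  simp only [Pi.mul_apply, ← ENNReal.rpow_mul, one_div_mul_cancel hp.ne', one_div_mul_cancel hq.ne',
    ENNReal.rpow_one] at h1
  have h2 : ENNReal.ofReal (∫ y in big (cb j x) ∩ T, |g y|) = ∫⁻ y in big (cb j x) ∩ T,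
      ENNReal.ofReal (gb β g w y) ^ (1 / β) * ENNReal.ofReal (w y) ^ (1 / β') := by
    rw [ofReal_integral_eq_lintegral_ofReal hg.abs.integrable.integrableOn
      (Filter.Eventually.of_forall fun y => abs_nonneg _)]
    exact lintegral_congr fun y => rdHold3_pt h (abs_nonneg _) (hw.pos y)
  have h3 : ∫⁻ y in big (cb j x) ∩ T, ENNReal.ofReal (gb β g w y) ≤
      av j (fun y => ENNReal.ofReal (gb β g w y)) x * ENNReal.ofReal (3 ^ d * sz d j) :=
    (lintegral_mono_set inter_subset_left).trans_eq (rdHold3_av j _ x)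
  have h4 := hR j x hx n T hT
  have h5 : 3 ^ d * sz d (j + (d + 2 : ℕ)) = (3 * 2 ^ (d + 2)) ^ d * sz d j := by
    rw [sz_add, ← mul_assoc, ← mul_pow]
  rw [rdHold3_av (j + (d + 2 : ℕ)) (fun y => ENNReal.ofReal (w y)) x, h5] at h4
  have h6 : (3 : ℝ) ^ d * sz d j ≤ (3 * 2 ^ (d + 2)) ^ d * sz d j :=
    mul_le_mul_of_nonneg_right (pow_le_pow_left₀ (by norm_num)
      (le_mul_of_one_le_right (by norm_num) (one_le_pow₀ one_le_two)) d) hs.le
  have h7 := ENNReal.ofReal_le_ofReal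
    (rdHold3_real n h (by positivity) h6 (by positivity) hD hσ hθ)
  rw [ENNReal.ofReal_mul (by positivity), ENNReal.ofReal_mul (by positivity),
    ← ENNReal.ofReal_rpow_of_nonneg (by positivity) (by positivity),
    ← ENNReal.ofReal_rpow_of_nonneg (by positivity) (by positivity),
    ← ENNReal.ofReal_rpow_of_nonneg (by positivity) (by positivity)] at h7
  have h8 : ENNReal.ofReal (D * θ ^ n * ((3 * 2 ^ (d + 2)) ^ d * sz d j)) =
      ENNReal.ofReal ((3 * 2 ^ (d + 2)) ^ d * D) * ENNReal.ofReal (θ ^ n * sz d j) := by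
    rw [← ENNReal.ofReal_mul (by positivity)]
    congr 1
    ring
  rw [h8] at h7
  rw [h2]
  refine h1.trans ((mul_le_mul' (ENNReal.rpow_le_rpow h3 (by positivity))
    (ENNReal.rpow_le_rpow h4 (by positivity))).trans ?_)
  rw [ENNReal.mul_rpow_of_nonneg _ _ (by positivity), ENNReal.mul_rpow_of_nonneg _ _ (by positivity),
    ENNReal.mul_rpow_of_nonneg _ _ (by positivity)]
  refine le_trans (le_of_eq ?_) ((mul_le_mul_right h7
    (av j (fun y => ENNReal.ofReal (gb β g w y)) x ^ (1 / β) *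
      av (j + (d + 2 : ℕ)) (fun y => ENNReal.ofReal (w y)) x ^ (1 / β'))).trans (le_of_eq ?_))
  · ring
  · ring

theorem rdHold3_lint {d : ℕ} {w : E d → ℝ} {A : ℝ} (hw : A1 w A) {S : Set (E d)}
    (hS : Bornology.IsBounded S) :
    ∫⁻ x in S, ENNReal.ofReal (w x) = ENNReal.ofReal (∫ x in S, w x) :=
  (ofReal_integral_eq_lintegral_ofReal (wt1_intOn hw.loc hS)
    (Filter.Eventually.of_forall fun x => (hw.pos x).le)).symm

theorem ball_pf {d : ℕ} : S_Ball d := by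
  intro w z A s D hw hs hD h j x hx n T hT
  rcases hT with ⟨rfl, rfl⟩ | ⟨u, v, a, b, hu, hv, huv, rfl⟩
  · rw [pow_zero, mul_one]
    exact (lintegral_mono_set (inter_subset_left.trans (big_mono (by omega) x))).trans
      (le_mul_of_one_le_left' (ENNReal.one_le_ofReal.2 hD))
  have h2 := cube_two j
  have hd0 : (0 : ℝ) ≤ d := Nat.cast_nonneg d
  have hn : (0 : ℝ) < 2 ^ n := by positivity
  have hR : 2 * ((2 * d + 1) * 2 ^ j : ℝ) ≤ 2 ^ (j + (d + 2 : ℕ)) := by
    have h3 : ((d + 1 : ℕ) : ℝ) ≤ 2 ^ d := by exact_mod_cast Nat.lt_two_pow_self (n := d)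
    have h4 := mul_le_mul_of_nonneg_left h3 h2.le
    rw [zpow_add₀ two_ne_zero, zpow_natCast, pow_add]
    push_cast at h4
    linarith
  have hr : (2 : ℝ) ^ (j - n) = 2 ^ j / 2 ^ n := by rw [zpow_sub₀ two_ne_zero, zpow_natCast]
  have hq : (2 : ℝ) ^ (j - n) / ((2 * d + 1) * 2 ^ j) ≤ (2 ^ n)⁻¹ := by
    rw [hr, div_right_comm, div_eq_mul_inv]
    refine mul_le_of_le_one_left (by positivity) ((div_le_one (by positivity)).2 ?_)
    nlinarith
  have hq1 : (2 : ℝ) ^ (j - n) ≤ (2 * d + 1) * 2 ^ j :=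
    (div_le_one (by positivity)).1 (hq.trans (inv_le_one_of_one_le₀ (one_le_pow₀ one_le_two)))
  have hq2 : ((2 : ℝ) ^ (j - n) / ((2 * d + 1) * 2 ^ j)) ^ s ≤ (2 ^ (-s)) ^ n := by
    refine (Real.rpow_le_rpow (by positivity) hq hs).trans (le_of_eq ?_)
    rw [Real.inv_rpow hn.le, ← Real.rpow_natCast, ← Real.rpow_natCast, ← Real.rpow_mul two_pos.le,
      ← Real.rpow_mul two_pos.le, neg_mul, Real.rpow_neg two_pos.le, mul_comm s]
  have s1 : big (cb j x) ⊆ Metric.ball x ((2 * d + 1) * 2 ^ j) := fun y hy => by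
    have h3 : ‖x - y‖ ≤ 2 * d * 2 ^ j := norm_sub_le_of_big (mem_cube_cb j x) hy
    rw [mem_ball_iff_norm']
    linarith
  have s2 : Metric.ball x (2 * ((2 * d + 1) * 2 ^ j)) ⊆ big (cb (j + (d + 2 : ℕ)) x) :=
    fun y hy => mem_big_of_norm ((mem_ball_iff_norm'.1 hy).le.trans hR)
  have key := h x u v a b _ _ hu hv huv (cube_two _) hq1 fun p hp =>
    hR.trans (hx x (cube_subset_big _ (mem_cube_cb j x)) p hp)
  refine (lintegral_mono_set (inter_subset_inter_left _ s1)).trans ?_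
  rw [rdHold3_lint hw (Metric.isBounded_ball.subset inter_subset_left)]
  refine (ENNReal.ofReal_le_ofReal key).trans ?_
  rw [ENNReal.ofReal_mul (by positivity), ← rdHold3_lint hw Metric.isBounded_ball]
  exact mul_le_mul' (ENNReal.ofReal_le_ofReal (mul_le_mul_of_nonneg_left hq2 (by linarith)))
    (lintegral_mono_set s2)

/-- every cube contains a subcube, `m` levels below, that stays away from a porous set -/
theorem rdPor_hole {d m : ℕ} {κ : ℝ} {z : Set (E d)} (hz : Por z κ)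
    (hm : (2 * d + 2 ^ (d + 2)) * 4 ≤ κ * 2 ^ m) (c : Cb d) :
    ∃ y ∈ cube c, cube (cb (c.1 - m) y) ⊆ loc z (c.1 - m) := by
  have h2 := cube_two c.1
  obtain ⟨y, hy, hu⟩ := hz (WithLp.toLp 2 fun i => ((c.2 i : ℝ) + 1 / 2) * 2 ^ c.1) (2 ^ c.1 / 4)
    (by positivity)
  refine ⟨y, cube_mem.2 fun i => ?_, fun x hx v hv u hu' => ?_⟩
  · have h1 := abs_le.1 ((geo_coord _ i).trans hy)
    rw [PiLp.sub_apply] at h1
    have h3 : -(2 ^ c.1 / 4) ≤ y i - ((c.2 i : ℝ) + 1 / 2) * 2 ^ c.1 := h1.1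
    have h4 : y i - ((c.2 i : ℝ) + 1 / 2) * 2 ^ c.1 ≤ 2 ^ c.1 / 4 := h1.2
    constructor <;> linarith
  · have e : cb (c.1 - m) x = cb (c.1 - m) y := cb_eq_of_mem (c := cb (c.1 - m) y) hx
    rw [e] at hv
    have h1 : ‖y - v‖ ≤ 2 * d * 2 ^ (c.1 - m) := norm_sub_le_of_big (mem_cube_cb _ y) hv
    have h3 := hu u hu'
    have h4 : ‖y - u‖ ≤ ‖y - v‖ + ‖v - u‖ := norm_sub_le_norm_sub_add_norm_sub y v u
    have h5 : (2 : ℝ) ^ c.1 = 2 ^ m * 2 ^ (c.1 - m) := by
      rw [← zpow_natCast, ← zpow_add₀ two_ne_zero]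
      congr 1
      ring
    have h6 := mul_le_mul_of_nonneg_right hm (cube_two (c.1 - m)).le
    rw [h5] at h3
    rw [zpow_add₀ two_ne_zero, zpow_natCast]
    nlinarith

theorem rdPor_int {d : ℕ} (z : Set (E d)) (J : Finset ℤ) (T : Set (E d)) :
    ∫⁻ x in T, ∑ j ∈ J, (loc z j)ᶜ.indicator (1 : E d → ℝ≥0∞) x =
      ∑ j ∈ J, volume ((loc z j)ᶜ ∩ T) := by
  rw [lintegral_finsetSum _ fun j _ => measurable_one.indicator (loc_meas z j).compl]
  refine Finset.sum_congr rfl fun j _ => ?_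
  rw [lintegral_indicator_one (loc_meas z j).compl, Measure.restrict_apply (loc_meas z j).compl]

theorem por_pf {d : ℕ} {κ : ℝ} (hκ : 0 < κ) : S_Por d κ := by
  obtain ⟨n, hn⟩ := pow_unbounded_of_one_lt ((2 * d + 2 ^ (d + 2)) * 4 / κ) (one_lt_two (α := ℝ))
  rw [div_lt_iff₀ hκ] at hn
  obtain ⟨m, hm1, hm⟩ : ∃ m : ℕ, 1 ≤ m ∧ (2 * d + 2 ^ (d + 2)) * 4 ≤ κ * 2 ^ m := by
    refine ⟨n + 1, by omega, ?_⟩
    have h1 : 0 < 2 ^ n * κ := by positivity
    rw [pow_succ (2 : ℝ) n]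
    linarith
  have hm0 : (0 : ℝ) < m := by exact_mod_cast hm1
  refine ⟨m * (2 ^ m) ^ d, by positivity, fun z hz a => ?_⟩
  have key : ∀ (N : ℕ) (c : Cb d), c.1 < a + N → ∑ j ∈ Finset.Icc a c.1,
      volume ((loc z j)ᶜ ∩ cube c) ≤ ENNReal.ofReal (m * (2 ^ m) ^ d * sz d c.1) := by
    intro N
    induction N with
    | zero =>
      intro c hc
      rw [Finset.Icc_eq_empty (by omega), Finset.sum_empty]
      exact zero_le
    | succ N ih =>
      intro c hc
      obtain ⟨y, hy, hh⟩ := rdPor_hole hz hm c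
      have hsub : cube (cb (c.1 - m) y) ⊆ cube c :=
        (lm_cube c).cube_subset (by simp [cb]) (mem_cube_cb _ y) hy
      have hs := sz_pos (d := d) (c.1 - m)
      have hsz : sz d c.1 = (2 ^ m) ^ d * sz d (c.1 - m) := by
        rw [← sz_add, sub_add_cancel]
      have hM : (1 : ℝ) ≤ (2 ^ m) ^ d := one_le_pow₀ (one_le_pow₀ one_le_two)
      have hlm : LM (c.1 - m) (cube c \ cube (cb (c.1 - m) y)) := fun x x' e hx =>
        ⟨(lm_cube c).mono (by omega) x x' e hx.1,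
          fun h => hx.2 (lm_cube (cb (c.1 - m) y) x' x e.symm h)⟩
      have hvol : volume (cube c \ cube (cb (c.1 - m) y)) =
          ENNReal.ofReal (sz d c.1 - sz d (c.1 - m)) := by
        rw [measure_sdiff hsub (measurableSet_cube _).nullMeasurableSet
          (by rw [volume_cube]; exact ENNReal.ofReal_ne_top), volume_cube, volume_cube,
          ENNReal.ofReal_sub _ hs.le]
        rfl
      have low : ∑ j ∈ Finset.Icc a (c.1 - m), volume ((loc z j)ᶜ ∩ cube c) ≤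
          ENNReal.ofReal (m * (2 ^ m) ^ d * (sz d c.1 - sz d (c.1 - m))) := by
        have h1 := hlm.lintegral_le
          (F := fun x => ∑ j ∈ Finset.Icc a (c.1 - m), (loc z j)ᶜ.indicator (1 : E d → ℝ≥0∞) x)
          (H := fun _ => ENNReal.ofReal (m * (2 ^ m) ^ d)) fun c' hc' _ => by
            rw [rdPor_int, setLIntegral_const, volume_cube, ← ENNReal.ofReal_mul (by positivity),
              ← hc']
            exact ih c' (by omega)
        rw [rdPor_int, setLIntegral_const, hvol, ← ENNReal.ofReal_mul (by positivity)] at h1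
        refine le_trans (Finset.sum_le_sum fun j hj => measure_mono fun x hx => ?_) h1
        exact ⟨hx.1, hx.2, fun h => hx.1 (loc_anti z (Finset.mem_Icc.1 hj).2 (hh h))⟩
      have top : ∑ j ∈ Finset.Ioc (c.1 - m) c.1, volume ((loc z j)ᶜ ∩ cube c) ≤
          ENNReal.ofReal (m * sz d c.1) := by
        refine (Finset.sum_le_card_nsmul _ _ (volume (cube c))
          fun j _ => measure_mono inter_subset_right).trans_eq ?_
        rw [Int.card_Ioc, sub_sub_cancel, Int.toNat_natCast, volume_cube, nsmul_eq_mul,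
          ENNReal.ofReal_mul hm0.le, ENNReal.ofReal_natCast]
      have hU : Finset.Icc a c.1 ⊆ Finset.Icc a (c.1 - m) ∪ Finset.Ioc (c.1 - m) c.1 := by
        intro j hj
        simp only [Finset.mem_union, Finset.mem_Icc, Finset.mem_Ioc] at hj ⊢
        omega
      have hD : Disjoint (Finset.Icc a (c.1 - m)) (Finset.Ioc (c.1 - m) c.1) := by
        refine Finset.disjoint_left.2 fun j h1 h2 => ?_
        simp only [Finset.mem_Icc, Finset.mem_Ioc] at h1 h2
        omega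
      refine (Finset.sum_le_sum_of_subset hU).trans ?_
      rw [Finset.sum_union hD]
      refine (add_le_add low top).trans_eq ?_
      have h0 : 0 ≤ sz d c.1 - sz d (c.1 - m) := by rw [hsz]; nlinarith
      rw [← ENNReal.ofReal_add (by positivity) (mul_nonneg hm0.le (sz_pos _).le)]
      congr 1
      rw [hsz]
      ring
  intro c
  exact key ((c.1 - a).toNat + 1) c (by omega)

theorem rdGlob2_count {d : ℕ} {Λ m : ℝ} (hΛ : 0 < Λ) {z : Set (E d)} (hz : Car z Λ) (hm : 1 ≤ m)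
    (a : ℤ) {G : ℤ → Set (E d)} (hG : Stop G) (W : Cb d) :
    Mom (ps (fun j => (G j).indicator ((loc z j)ᶜ.indicator fun _ => (1 : ℝ))) a W.1) W m
      (24 * (3 * Λ + 1 * (1 : ℕ)) * m) := by
  refine class_mom (φ := fun j => (loc z j)ᶜ.indicator fun _ => (1 : ℝ)) (L := 1) le_rfl (r := 0)
    zero_le_one hΛ hm (fun j x y e => ?_) (fun j x _ => by simp) (fun j x => ?_)
    (fun G' _ c => ?_) hG W
  · have e' : ix j x = ix j y := ix_mono (by omega) e
    by_cases hx : x ∈ loc z j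
    · simp [hx, loc_lm z j x y e' hx]
    · have hy : y ∉ loc z j := fun hy => hx (loc_lm z j y x e'.symm hy)
      simp [hx, hy]
  · by_cases hx : x ∈ loc z j <;> simp [hx]
  · refine le_trans ?_ (hz a c)
    calc _ ≤ ∫⁻ x in cube c, ∑ j ∈ Finset.Icc a c.1, (loc z j)ᶜ.indicator (1 : E d → ℝ≥0∞) x := by
          refine lintegral_mono fun x => ?_
          refine (ENNReal.ofReal_le_ofReal (Finset.abs_sum_le_sum_abs _ _)).trans ?_
          rw [ENNReal.ofReal_sum_of_nonneg fun j _ => abs_nonneg _]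
          refine Finset.sum_le_sum fun j _ => ?_
          by_cases hx : x ∈ loc z j <;> by_cases hx' : x ∈ G' j <;> simp [hx, hx']
      _ = _ := by
          rw [lintegral_finsetSum _ fun j _ => measurable_one.indicator (loc_meas z j).compl]
          refine Finset.sum_congr rfl fun j _ => ?_
          rw [lintegral_indicator_one (loc_meas z j).compl,
            Measure.restrict_apply (loc_meas z j).compl]

theorem rdGlob2_mom {d : ℕ} {Λ m μ : ℝ} (hΛ : 0 < Λ) {k g : E d → ℝ} {z : Set (E d)}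
    (hk : IsKer k) (hz : Car z Λ) (hg : Nice g) (hm : 1 ≤ m) (hμ : 0 < μ) (a : ℤ) {b : ℤ}
    {W : Cb d} (hb : W.1 ≤ b) :
    Mom (ps (fun j => {x | mx j b (fun y => ENNReal.ofReal |g y| ^ (1 : ℝ)) x ≤
      ENNReal.ofReal μ}.indicator ((loc z j)ᶜ.indicator (cv k j g))) a W.1) W m
      (μ * (12 ^ d * (24 * (3 * Λ + 1) * m))) := by
  have h1 := (rdGlob2_count hΛ hz hm a (stop_mx b (fun y => ENNReal.ofReal |g y| ^ (1 : ℝ))
    (ENNReal.ofReal μ)) W).const_mul (by linarith) (by positivity)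
    (c := μ * 12 ^ d) (by positivity)
  refine h1.mono (by linarith) (by positivity) (le_of_eq (by push_cast; ring)) fun x _ => ?_
  refine le_trans ?_ (le_abs_self _)
  unfold ps
  rw [Finset.mul_sum]
  refine (Finset.abs_sum_le_sum_abs _ _).trans (Finset.sum_le_sum fun j hj => ?_)
  have hj2 := (Finset.mem_Icc.1 hj).2
  by_cases hx : x ∈ {x | mx j b (fun y => ENNReal.ofReal |g y| ^ (1 : ℝ)) x ≤ ENNReal.ofReal μ}
  swap
  · simp only [indicator_of_notMem hx, abs_zero, mul_zero, le_refl]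
  simp only [indicator_of_mem hx]
  by_cases hx' : x ∈ (loc z j)ᶜ
  swap
  · simp only [indicator_of_notMem hx', abs_zero, mul_zero, le_refl]
  simp only [indicator_of_mem hx', mul_one]
  have h2 := av_one hg hμ (j := j) (x := x) (by
    rw [ENNReal.rpow_one (ENNReal.ofReal μ)]
    exact (glue_av_le_mx (hj2.trans hb) _ x).trans hx)
  have hs := sz_pos (d := d) j
  refine (cv_le hk hg j x).trans ((mul_le_mul_of_nonneg_left h2 (by positivity)).trans
    (le_of_eq ?_))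
  rw [show (12 : ℝ) = 4 * 3 by norm_num, mul_pow]
  field_simp

theorem glob_pf {d : ℕ} {Λ : ℝ} (hΛ : 0 < Λ) (h1 : S_Glue d) : S_Glob d Λ := by
  obtain ⟨M, hM, h2⟩ := flat_mx (d := d)
  obtain ⟨C₂, hC₂, h3⟩ := mx_chain1 (d := d)
  set T : ℝ := 12 ^ d * (24 * (3 * Λ + 1) * 2) with hT
  have hT0 : 0 < T := by positivity
  refine ⟨88 * M * T * C₂ * 2, by positivity, fun k g w z A q a b hk hz hg hw hq => ?_⟩
  have hq1 : 1 < q := by linarith
  have hq0 : 0 < q := by linarith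
  have h4 := h3 w A q hw hq1 g hg.meas a b
  rw [div_one] at h4
  have hA : 0 < A := zero_lt_one.trans_le hw.one_le
  have hV : Measurable fun x => mx a b (fun y => ENNReal.ofReal (w y)) x ^ (-(q - 1)) :=
    (mx_meas _ _ _).pow_const _
  have h5 := h1 (fun j => (loc z j)ᶜ.indicator (cv k j g))
    (fun j => mx j b fun y => ENNReal.ofReal |g y| ^ (1 : ℝ)) a b q (T * q) M _
    (fun j => (cv_nice hk hg j).meas.indicator (loc_meas z j).compl)
    (fun j x y e => mx_congr b _ e) (fun i j x h => mx_anti h b _ x)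
    (fun x => by simp [mx]) (glue_mx_ne_top hg one_pos a b)
    (fun j x _ hj h0 => by
      have := glue_cv_zero hk hg one_pos (j := j) (x := x)
        (le_antisymm ((glue_av_le_mx hj _ x).trans h0.le) bot_le)
      simp only [indicator_apply_eq_zero]
      exact fun _ => this)
    hq1.le (by positivity) hM hV (h2 w A hw a b q hq1)
    (fun W μ hμ _ hb _ => by
      have := rdGlob2_mom (m := 2 * q) hΛ hk hz hg (by linarith) hμ a hb
      rwa [show (12 : ℝ) ^ d * (24 * (3 * Λ + 1) * (2 * q)) = T * q by rw [hT]; ring] at this)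
  set p := q / (q - 1) with hp
  have hp0 : 0 ≤ p := div_nonneg hq0.le (by linarith)
  have hp2 : p ≤ 2 ^ q := by
    refine le_trans ?_ (Real.self_le_rpow_of_one_le one_le_two hq1.le)
    rw [hp, div_le_iff₀ (by linarith)]
    linarith
  have h7 : A ^ (q - 1) * ((88 * M * (T * q)) ^ q * (C₂ ^ q * (A * p))) ≤
      (88 * M * T * C₂ * 2 * q * A) ^ q := by
    have e1 : A ^ (q - 1) * A = A ^ q := by
      rw [Real.rpow_sub_one hA.ne', div_mul_cancel₀ _ hA.ne']
    calc _ = A ^ (q - 1) * A * (88 * M * (T * q)) ^ q * C₂ ^ q * p := by ring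
      _ ≤ A ^ q * (88 * M * (T * q)) ^ q * C₂ ^ q * 2 ^ q := by rw [e1]; gcongr
      _ = _ := by
          rw [← Real.mul_rpow hA.le (by positivity), ← Real.mul_rpow (by positivity) hC₂.le,
            ← Real.mul_rpow (by positivity) zero_le_two]
          congr 1
          ring
  set U := ps (fun j => (loc z j)ᶜ.indicator (cv k j g)) a b with hU
  calc _ ≤ ∫⁻ x, ENNReal.ofReal (A ^ (q - 1)) * (ENNReal.ofReal |U x| ^ q *
        mx a b (fun y => ENNReal.ofReal (w y)) x ^ (-(q - 1))) := by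
        refine lintegral_mono_ae ((w_le_mx hw a b hq1).mono fun x hx => ?_)
        rw [mul_left_comm]
        exact mul_le_mul_right hx _
    _ = ENNReal.ofReal (A ^ (q - 1)) * ∫⁻ x, ENNReal.ofReal |U x| ^ q *
        mx a b (fun y => ENNReal.ofReal (w y)) x ^ (-(q - 1)) :=
        lintegral_const_mul' _ _ ENNReal.ofReal_ne_top
    _ ≤ ENNReal.ofReal (A ^ (q - 1)) * (ENNReal.ofReal ((88 * M * (T * q)) ^ q) *
        (ENNReal.ofReal (C₂ ^ q * (A * p)) *
          ∫⁻ x, ENNReal.ofReal |g x| ^ q * ENNReal.ofReal (w x) ^ (-(q - 1)))) :=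
        mul_le_mul_right (h5.trans (mul_le_mul_right h4 _)) _
    _ ≤ _ := by
        rw [← mul_assoc, ← mul_assoc, mul_assoc (ENNReal.ofReal (A ^ (q - 1))),
          ← ENNReal.ofReal_mul (by positivity), ← ENNReal.ofReal_mul (by positivity)]
        exact mul_le_mul_left (ENNReal.ofReal_le_ofReal h7) _

theorem rdMain_dual {d : ℕ} {σ β Λ : ℝ} (hβ : 1 ≤ β) (h1 : S_LocW d σ β) (h2 : S_Glob d Λ) :
    ∃ C : ℝ, 0 < C ∧ ∀ (k g w : E d → ℝ) (z : Set (E d)) (A D q : ℝ) (a b : ℤ), IsKer k →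
    Car z Λ → Nice g → A1 w A → RD w z σ D → 1 ≤ D → 2 * β ≤ q →
    ∫⁻ x, ENNReal.ofReal |TT k a b g x| ^ q * ENNReal.ofReal (w x) ^ (-(q - 1)) ≤
      ENNReal.ofReal ((C * D * q * A) ^ q) *
        ∫⁻ x, ENNReal.ofReal |g x| ^ q * ENNReal.ofReal (w x) ^ (-(q - 1)) := by
  obtain ⟨C₁, hC₁, h1⟩ := h1
  obtain ⟨C₂, hC₂, h2⟩ := h2
  refine ⟨4 * (C₁ + C₂), by positivity, fun k g w z A D q a b hk hh hg hw hr hD hq => ?_⟩
  have hq2 : 2 ≤ q := by linarith
  have hA : 0 < A := zero_lt_one.trans_le hw.one_le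
  have a1 := h1 k g w z A D q a b hk hg hw hr hD hq
  have a2 := h2 k g w z A q a b hk hh hg hw hq2
  set X := ps (fun j => (loc z j).indicator (cv k j g)) a b with hX
  set Y := ps (fun j => (loc z j)ᶜ.indicator (cv k j g)) a b with hY
  set I := ∫⁻ x, ENNReal.ofReal |g x| ^ q * ENNReal.ofReal (w x) ^ (-(q - 1)) with hI
  have e : ∀ x, TT k a b g x = X x + Y x := fun x => by
    simp only [TT, hX, hY, ps, ← Finset.sum_add_distrib, indicator_self_add_compl_apply]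
  have hXm : Measurable X := by
    unfold X ps
    exact Finset.measurable_sum _ fun j _ => (cv_nice hk hg j).meas.indicator (loc_meas z j)
  have hm : Measurable fun x => ENNReal.ofReal |X x| ^ q * ENNReal.ofReal (w x) ^ (-(q - 1)) :=
    (hXm.abs.ennreal_ofReal.pow_const q).mul (hw.meas.ennreal_ofReal.pow_const _)
  have h2q : (2 : ℝ≥0∞) ^ (q - 1) ≤ ENNReal.ofReal (2 ^ q) := by
    rw [← ENNReal.ofReal_rpow_of_pos two_pos, ENNReal.ofReal_ofNat]
    exact ENNReal.rpow_le_rpow_of_exponent_le one_le_two (by linarith)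
  set B : ℝ := (C₁ + C₂) * D * q * A with hB
  have hB0 : 0 < B := by positivity
  have b1 : (C₁ * D * q * A) ^ q ≤ B ^ q := by
    refine Real.rpow_le_rpow (by positivity) ?_ (by linarith)
    rw [hB]
    gcongr
    linarith
  have b2 : (C₂ * q * A) ^ q ≤ B ^ q := by
    refine Real.rpow_le_rpow (by positivity) ?_ (by linarith)
    calc C₂ * q * A = C₂ * 1 * q * A := by ring
      _ ≤ _ := by
        rw [hB]
        gcongr
        linarith
  have b3 : 2 ^ q * (B ^ q + B ^ q) ≤ (4 * (C₁ + C₂) * D * q * A) ^ q := by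
    have p1 : (2 : ℝ) ≤ 2 ^ q := Real.self_le_rpow_of_one_le one_le_two (by linarith)
    have p2 : 0 ≤ B ^ q := by positivity
    calc _ = 2 ^ q * (2 * B ^ q) := by ring
      _ ≤ 2 ^ q * (2 ^ q * B ^ q) := by gcongr
      _ = (2 * (2 * B)) ^ q := by
          rw [Real.mul_rpow (x := 2) (y := 2 * B) (by norm_num) (by positivity),
            Real.mul_rpow (x := 2) (y := B) (by norm_num) hB0.le]
      _ = _ := by
          congr 1
          rw [hB]
          ring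
  calc _ ≤ ∫⁻ x, ENNReal.ofReal (2 ^ q) *
        (ENNReal.ofReal |X x| ^ q * ENNReal.ofReal (w x) ^ (-(q - 1)) +
          ENNReal.ofReal |Y x| ^ q * ENNReal.ofReal (w x) ^ (-(q - 1))) := by
        refine lintegral_mono fun x => ?_
        simp only
        rw [← add_mul, ← mul_assoc]
        refine mul_le_mul_left ?_ _
        calc _ ≤ (ENNReal.ofReal |X x| + ENNReal.ofReal |Y x|) ^ q := by
              refine ENNReal.rpow_le_rpow ?_ (by linarith)
              rw [← ENNReal.ofReal_add (abs_nonneg _) (abs_nonneg _), e]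
              exact ENNReal.ofReal_le_ofReal (abs_add_le _ _)
          _ ≤ _ := (ENNReal.rpow_add_le_mul_rpow_add_rpow _ _ (by linarith)).trans
              (mul_le_mul_left h2q _)
    _ ≤ ENNReal.ofReal (2 ^ q) * (ENNReal.ofReal (B ^ q) * I + ENNReal.ofReal (B ^ q) * I) := by
        rw [lintegral_const_mul' _ _ ENNReal.ofReal_ne_top, lintegral_add_left hm]
        exact mul_le_mul_right (add_le_add
          (a1.trans (mul_le_mul_left (ENNReal.ofReal_le_ofReal b1) _))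
          (a2.trans (mul_le_mul_left (ENNReal.ofReal_le_ofReal b2) _))) _
    _ ≤ _ := by
        rw [← add_mul, ← mul_assoc, ← ENNReal.ofReal_add (by positivity) (by positivity),
          ← ENNReal.ofReal_mul (by positivity)]
        exact mul_le_mul_left (ENNReal.ofReal_le_ofReal b3) _

theorem main_pf {d : ℕ} {σ β Λ : ℝ} (hd : 1 ≤ d) (hβ : 1 ≤ β) (h1 : S_LocW d σ β)
    (h2 : S_Glob d Λ) : S_Main d σ Λ := by
  obtain ⟨C₁, hC₁, h1⟩ := rdMain_dual hβ h1 h2
  obtain ⟨C₂, hC₂, h2⟩ := kb_main hd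
  refine ⟨C₁ + C₂ * (2 * β), by positivity, fun k f w z A D p a b hk hh hf hw hr hD hp => ?_⟩
  have hA : 0 < A := zero_lt_one.trans_le hw.one_le
  have hp1 : 0 < p - 1 := sub_pos.2 hp
  have hp0 : 0 < p := by linarith
  set q := p / (p - 1) with hq
  have hq1 : 1 < q := by rw [hq, lt_div_iff₀ hp1]; linarith
  rcases le_total (2 * β) q with h | h
  · have h4 := dual_bound hk hw hp (B := C₁ * D * q * A) (by positivity) a b
      (fun g hg => h1 _ g w z A D q a b hk.rf hh hg hw hr hD h) hf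
    rw [nrm_eq hw.meas hp0 (TT_nice hk hf a b).meas, nrm_eq hw.meas hp0 hf.meas]
    refine (ENNReal.rpow_le_rpow h4 (by positivity)).trans ?_
    rw [ENNReal.mul_rpow_of_nonneg _ _ (by positivity), ENNReal.ofReal_rpow_of_nonneg
      (by positivity) (by positivity), one_div, Real.rpow_rpow_inv (by positivity) hp0.ne']
    refine mul_le_mul_left (ENNReal.ofReal_le_ofReal ?_) _
    calc C₁ * D * q * A = C₁ * D * (1 * q * A) := by ring
      _ ≤ _ := by
        gcongr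
        exact le_add_of_nonneg_right (by positivity)
  · refine (h2 k p (2 * β) hk hp (by linarith) (Or.inl h) w f A a b hw hf).trans
      (mul_le_mul_left (ENNReal.ofReal_le_ofReal ?_) _)
    calc C₂ * p * q * (2 * β) * A = C₂ * (2 * β) * 1 * (p * q * A) := by ring
      _ ≤ _ := by
        gcongr
        exact le_add_of_nonneg_left hC₁.le

theorem rd_main {d : ℕ} (hd : 1 ≤ d) {s κ : ℝ} (hs : 0 < s) (hκ : 0 < κ) :
    ∃ Λ : ℝ, (∀ z : Set (E d), Por z κ → Car z Λ) ∧ S_Main d (2 ^ (-s)) Λ := by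
  obtain ⟨Λ, hΛ, hp⟩ := por_pf (d := d) hκ
  refine ⟨Λ, hp, ?_⟩
  have hσ : (0 : ℝ) < 2 ^ (-s) := Real.rpow_pos_of_pos two_pos _
  set θ : ℝ := max (((2 : ℝ) ^ (-s)) ^ (1 / 2 : ℝ)) (1 / 2) with hθ
  have h2 : 1 / 2 ≤ θ := le_max_right _ _
  have h0 : 0 < θ := by linarith
  have h1 : θ < 1 := max_lt (Real.rpow_lt_one hσ.le
    (Real.rpow_lt_one_of_one_lt_of_neg one_lt_two (by linarith)) (by norm_num)) (by norm_num)
  exact main_pf hd one_le_two
    (locw_pf Real.HolderConjugate.two_two hσ (le_max_left _ _)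
      (loc_pf h2 vol_pf (run_pf hd (pe_pf h0
        (shift_pf h0 h1 (high_pf mult_pf tube_pf avg_pf good_pf cov_pf)) (win_pf h0 h1.le)))
        (single_pf hd h2 h1.le vol_pf) glue_pf) hold_pf chain_pf)
    (glob_pf hΛ glue_pf)

end Pool.Agent.MP_418f02_an
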