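import Pool.Agent.MP_418f02_an.Rd.St

/-! Examples: radial weights, doubling weights, reverse doubling on balls. -/

set_option autoImplicit false

open MeasureTheory Set
open scoped ENNReal RealInnerProductSpace

namespace Pool.Agent.MP_418f02_an

theorem rdRad_rot {d : ℕ} (V : ℝ → ℝ≥0∞) (z y c : E d) (ρ : ℝ) (h : ‖y - z‖ = ‖c - z‖) :
    ∫⁻ x in Metric.ball c ρ, V ‖x - z‖ = ∫⁻ x in Metric.ball y ρ, V ‖x - z‖ := by
  obtain ⟨T, hT⟩ : ∃ T : E d ≃ₗᵢ[ℝ] E d, T (y - z) = c - z := ⟨_, Submodule.reflection_sub h⟩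
  let φ : E d ≃ₜ E d := (Homeomorph.subRight z).trans (T.toHomeomorph.trans (Homeomorph.addLeft z))
  have hφ : ∀ x, φ x = z + T (x - z) := fun _ => rfl
  have mp : MeasurePreserving φ volume volume :=
    (measurePreserving_add_left volume z).comp
      (T.measurePreserving.comp (measurePreserving_sub_right volume z))
  rw [← mp.setLIntegral_comp_preimage_emb φ.measurableEmbedding]
  have e : φ ⁻¹' Metric.ball c ρ = Metric.ball y ρ := by
    ext x
    simp only [mem_preimage, mem_ball_iff_norm, hφ]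
    rw [show z + T (x - z) - c = T (x - z) - (c - z) by abel, ← hT, ← map_sub, T.norm_map,
      sub_sub_sub_cancel_right]
  rw [e]
  refine lintegral_congr fun x => ?_
  rw [hφ, add_sub_cancel_left, T.norm_map]

/-- radial projection onto the sphere of radius `r` around `z` -/
noncomputable def rdRad_p {d : ℕ} (z : E d) (r : ℝ) (c : E d) : E d := z + (r / ‖c - z‖) • (c - z)

theorem rdRad_meas {d : ℕ} (z : E d) (r : ℝ) : Measurable (rdRad_p z r) := by
  unfold rdRad_p
  fun_prop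

theorem rdRad_geo {d : ℕ} {z y c : E d} {R : ℝ} (hR : 0 < R) (hr : R ≤ ‖y - z‖)
    (hc : c ∈ Metric.ball y (R / 4)) :
    ‖rdRad_p z ‖y - z‖ c - z‖ = ‖y - z‖ ∧ ‖rdRad_p z ‖y - z‖ c - y‖ ≤ R / 2 ∧
      |‖c - z‖ - ‖y - z‖| ≤ R / 4 ∧
      c - z = (‖c - z‖ / ‖y - z‖) • (rdRad_p z ‖y - z‖ c - z) := by
  rw [mem_ball_iff_norm] at hc
  have h1 : |‖c - z‖ - ‖y - z‖| ≤ R / 4 := by
    have := abs_norm_sub_norm_le (c - z) (y - z)
    rw [sub_sub_sub_cancel_right] at this
    linarith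
  have h2 := abs_le.1 h1
  have h3 : 0 < ‖c - z‖ := by linarith [h2.1]
  have h4 : 0 < ‖y - z‖ := by linarith
  have e : rdRad_p z ‖y - z‖ c - z = (‖y - z‖ / ‖c - z‖) • (c - z) := by
    unfold rdRad_p; abel
  refine ⟨?_, ?_, h1, ?_⟩
  · rw [e, norm_smul, Real.norm_of_nonneg (by positivity)]
    field_simp
  · have e2 : rdRad_p z ‖y - z‖ c - y = (‖y - z‖ / ‖c - z‖ - 1) • (c - z) + (c - y) := by
      unfold rdRad_p; rw [sub_smul, one_smul]; abel
    have e3 : ‖(‖y - z‖ / ‖c - z‖ - 1) • (c - z)‖ = |‖c - z‖ - ‖y - z‖| := by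
      rw [norm_smul, Real.norm_eq_abs, ← abs_of_pos h3, ← abs_mul, abs_of_pos h3, abs_sub_comm]
      congr 1
      field_simp
    rw [e2]
    refine (norm_add_le _ _).trans ?_
    rw [e3]
    linarith
  · rw [e, smul_smul, show ‖c - z‖ / ‖y - z‖ * (‖y - z‖ / ‖c - z‖) = 1 by field_simp, one_smul]

theorem rdRad_tube {d : ℕ} {z y x : E d} {ρ R : ℝ} (hρ : 0 < ρ) (hR : ρ ≤ R) (hr : R ≤ ‖y - z‖)
    (hx : x ∈ Metric.ball y R) :
    volume {c : E d | c ∈ Metric.ball y (R / 4) ∧ x ∈ Metric.ball (rdRad_p z ‖y - z‖ c) ρ} ≤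
      ENNReal.ofReal (2 * R / ρ * (3 * ρ) ^ d) * volume (Metric.ball (0 : E d) 1) := by
  have hR0 : 0 < R := hρ.trans_le hR
  obtain ⟨r, hr'⟩ : ∃ r, r = ‖y - z‖ := ⟨_, rfl⟩
  have hr0 : 0 < r := by rw [hr']; linarith
  have hxz : ‖x - z‖ ≤ 2 * r := by
    rw [mem_ball_iff_norm] at hx
    have := norm_add_le (x - y) (y - z)
    rw [sub_add_sub_cancel] at this
    linarith
  have sub : {c : E d | c ∈ Metric.ball y (R / 4) ∧ x ∈ Metric.ball (rdRad_p z ‖y - z‖ c) ρ} ⊆
      ⋃ k ∈ Finset.range (⌊R / ρ⌋₊ + 1),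
        Metric.ball (z + ((r - R / 4 + k * (ρ / 2)) / r) • (x - z)) (3 * ρ) := by
    rintro c ⟨hc, hxc⟩
    obtain ⟨-, -, g3, g4⟩ := rdRad_geo hR0 hr hc
    rw [← hr'] at g3 g4 hxc hr
    obtain ⟨s, hs⟩ : ∃ s, s = ‖c - z‖ := ⟨_, rfl⟩
    rw [← hs] at g3 g4
    have g := abs_le.1 g3
    have t0 : 0 ≤ (s - (r - R / 4)) / (ρ / 2) := div_nonneg (by linarith [g.1]) (by positivity)
    have f1 := Nat.floor_le t0
    have f2 := Nat.lt_floor_add_one ((s - (r - R / 4)) / (ρ / 2))
    have f3 : ⌊(s - (r - R / 4)) / (ρ / 2)⌋₊ ≤ ⌊R / ρ⌋₊ := by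
      refine Nat.floor_le_floor ?_
      rw [div_le_div_iff₀ (by positivity) hρ]
      nlinarith [g.2]
    obtain ⟨k, hk⟩ : ∃ k, k = ⌊(s - (r - R / 4)) / (ρ / 2)⌋₊ := ⟨_, rfl⟩
    rw [← hk] at f1 f2 f3
    rw [le_div_iff₀ (by positivity)] at f1
    rw [div_lt_iff₀ (by positivity)] at f2
    simp only [mem_iUnion, Finset.mem_range, exists_prop]
    refine ⟨k, by omega, ?_⟩
    rw [mem_ball_iff_norm] at hxc ⊢
    have e : c - (z + ((r - R / 4 + k * (ρ / 2)) / r) • (x - z)) =
        ((s - (r - R / 4 + k * (ρ / 2))) / r) • (x - z) - (s / r) • (x - rdRad_p z r c) := by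
      rw [← sub_sub, g4, sub_div, sub_smul (s / r),
        show x - rdRad_p z r c = (x - z) - (rdRad_p z r c - z) by abel, smul_sub (s / r) (x - z)]
      abel
    rw [e]
    refine (norm_sub_le _ _).trans_lt ?_
    have s0 : 0 ≤ s := by rw [hs]; positivity
    rw [norm_smul, norm_smul, Real.norm_of_nonneg (div_nonneg (by linarith) hr0.le),
      Real.norm_of_nonneg (div_nonneg s0 hr0.le)]
    have a1 : (s - (r - R / 4 + k * (ρ / 2))) / r * ‖x - z‖ ≤ (ρ / 2) / r * (2 * r) :=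
      mul_le_mul (div_le_div_of_nonneg_right (by linarith) hr0.le) hxz (norm_nonneg _)
        (by positivity)
    have a2 : (ρ / 2) / r * (2 * r) = ρ := by field_simp
    have a3 : s / r ≤ 5 / 4 := by rw [div_le_iff₀ hr0]; linarith [g.2]
    have a4 : s / r * ‖x - rdRad_p z r c‖ ≤ 5 / 4 * ρ :=
      mul_le_mul a3 hxc.le (norm_nonneg _) (by norm_num)
    linarith
  refine (measure_mono sub).trans ((measure_biUnion_finset_le _ _).trans ?_)
  have hb : ∀ a : E d, volume (Metric.ball a (3 * ρ)) =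
      ENNReal.ofReal ((3 * ρ) ^ d) * volume (Metric.ball (0 : E d) 1) := fun a => by
    rw [Measure.addHaar_ball_of_pos _ _ (by positivity : 0 < 3 * ρ), finrank_euclideanSpace_fin]
  simp only [hb, Finset.sum_const, Finset.card_range, nsmul_eq_mul]
  rw [← mul_assoc, ENNReal.ofReal_mul (by positivity)]
  gcongr
  rw [← ENNReal.ofReal_natCast]
  refine ENNReal.ofReal_le_ofReal ?_
  have f1 := Nat.floor_le (by positivity : 0 ≤ R / ρ)
  have f2 : 1 ≤ R / ρ := by rw [le_div_iff₀ hρ]; linarith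
  push_cast
  rw [mul_div_assoc]
  linarith

theorem rdRad_main {d : ℕ} (V : ℝ → ℝ≥0∞) (z y : E d) (hV : AEMeasurable fun x : E d => V ‖x - z‖)
    {ρ R : ℝ} (hρ : 0 < ρ) (hR : 2 * ρ ≤ R) (hr : R ≤ ‖y - z‖) :
    (∫⁻ x in Metric.ball y ρ, V ‖x - z‖) * ENNReal.ofReal ((R / 4) ^ d) ≤
      (∫⁻ x in Metric.ball y R, V ‖x - z‖) * ENNReal.ofReal (2 * R / ρ * (3 * ρ) ^ d) := by
  have hR0 : 0 < R := by linarith
  obtain ⟨g, gm, hg⟩ := hV
  have hgi : ∀ s : Set (E d), ∫⁻ x in s, V ‖x - z‖ = ∫⁻ x in s, g x := fun s =>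
    lintegral_congr_ae (ae_restrict_of_ae hg)
  let S : Set (E d × E d) :=
    {q | q.1 ∈ Metric.ball y (R / 4) ∧ q.2 ∈ Metric.ball (rdRad_p z ‖y - z‖ q.1) ρ}
  have hS : MeasurableSet S := by
    refine (measurable_fst measurableSet_ball).inter ?_
    have := rdRad_meas z ‖y - z‖
    exact measurableSet_lt (f := fun q : E d × E d => dist q.2 (rdRad_p z ‖y - z‖ q.1))
      (measurable_snd.dist (this.comp measurable_fst)) measurable_const
  have hω0 : volume (Metric.ball (0 : E d) 1) ≠ 0 := (Metric.measure_ball_pos _ _ one_pos).ne'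
  have hω1 : volume (Metric.ball (0 : E d) 1) ≠ ∞ := measure_ball_lt_top.ne
  rw [← ENNReal.mul_le_mul_iff_left hω0 hω1, mul_assoc, mul_assoc]
  have hb : volume (Metric.ball y (R / 4)) =
      ENNReal.ofReal ((R / 4) ^ d) * volume (Metric.ball (0 : E d) 1) := by
    rw [Measure.addHaar_ball_of_pos _ _ (by positivity : 0 < R / 4), finrank_euclideanSpace_fin]
  rw [← hb]
  calc (∫⁻ x in Metric.ball y ρ, V ‖x - z‖) * volume (Metric.ball y (R / 4))
      = ∫⁻ c, ∫⁻ x, S.indicator (fun q => g q.2) (c, x) := by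
        rw [← setLIntegral_const, ← lintegral_indicator measurableSet_ball]
        refine lintegral_congr fun c => ?_
        by_cases hc : c ∈ Metric.ball y (R / 4)
        · rw [indicator_of_mem hc, ← rdRad_rot V z y _ ρ (rdRad_geo hR0 hr hc).1.symm, hgi,
            ← lintegral_indicator measurableSet_ball]
          refine lintegral_congr fun x => ?_
          by_cases hx : x ∈ Metric.ball (rdRad_p z ‖y - z‖ c) ρ
          · rw [indicator_of_mem hx, indicator_of_mem (show (c, x) ∈ S from ⟨hc, hx⟩)]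
          · rw [indicator_of_notMem hx, indicator_of_notMem (show (c, x) ∉ S from fun h => hx h.2)]
        · rw [indicator_of_notMem hc]
          refine (lintegral_eq_zero_of_ae_eq_zero (Filter.Eventually.of_forall fun x => ?_)).symm
          exact indicator_of_notMem (show (c, x) ∉ S from fun h => hc h.1) _
    _ = ∫⁻ x, ∫⁻ c, S.indicator (fun q => g q.2) (c, x) :=
        lintegral_lintegral_swap ((gm.comp measurable_snd).indicator hS).aemeasurable
    _ ≤ ∫⁻ x, (Metric.ball y R).indicator g x *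
          (ENNReal.ofReal (2 * R / ρ * (3 * ρ) ^ d) * volume (Metric.ball (0 : E d) 1)) := by
        refine lintegral_mono fun x => ?_
        have hm : MeasurableSet {c : E d | (c, x) ∈ S} := measurable_prodMk_right hS
        have e : ∫⁻ c, S.indicator (fun q => g q.2) (c, x) = g x * volume {c : E d | (c, x) ∈ S} := by
          rw [← setLIntegral_const, ← lintegral_indicator hm]
          rfl
        simp only [e]
        by_cases hx : x ∈ Metric.ball y R
        · rw [indicator_of_mem hx]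
          exact mul_le_mul_right (rdRad_tube hρ (by linarith) hr hx) _
        · have : {c : E d | (c, x) ∈ S} = ∅ := by
            refine eq_empty_of_forall_notMem fun c hc => hx ?_
            have h1 := (rdRad_geo hR0 hr hc.1).2.1
            have h2 := hc.2
            rw [mem_ball_iff_norm] at h2 ⊢
            have := norm_add_le (x - rdRad_p z ‖y - z‖ c) (rdRad_p z ‖y - z‖ c - y)
            rw [sub_add_sub_cancel] at this
            simp only at h2
            linarith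
          rw [this]
          simp
    _ = _ := by
        rw [lintegral_mul_const _ (gm.indicator measurableSet_ball),
          lintegral_indicator measurableSet_ball, hgi]

theorem rad_pf {d : ℕ} (hd : 1 ≤ d) : ∃ D : ℝ, 0 < D ∧ ∀ (v : ℝ → ℝ) (z : E d), (∀ t, 0 ≤ v t) → LocallyIntegrable (fun x : E d => v ‖x - z‖) volume → ∀ (y : E d) (ρ R : ℝ), 0 < ρ → ρ ≤ R → R ≤ ‖y - z‖ → ∫ x in Metric.ball y ρ, v ‖x - z‖ ≤ D * (ρ / R) ^ ((d : ℝ) - 1) * ∫ x in Metric.ball y R, v ‖x - z‖ := by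
  obtain ⟨n, rfl⟩ : ∃ n, d = n + 1 := ⟨d - 1, by omega⟩
  refine ⟨2 * 12 ^ (n + 1), by positivity, fun v z hv hi y ρ R hρ hR hr => ?_⟩
  have hR0 : 0 < R := hρ.trans_le hR
  have hI : ∀ a : ℝ, IntegrableOn (fun x : E (n + 1) => v ‖x - z‖) (Metric.ball y a) := fun a =>
    (hi.integrableOn_isCompact (isCompact_closedBall y a)).mono_set Metric.ball_subset_closedBall
  have h0 : ∀ a : ℝ, 0 ≤ ∫ x in Metric.ball y a, v ‖x - z‖ := fun a =>
    integral_nonneg fun _ => hv _
  rw [show ((n + 1 : ℕ) : ℝ) - 1 = (n : ℝ) by push_cast; ring, Real.rpow_natCast]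
  by_cases c : 2 * ρ ≤ R
  · have h := rdRad_main (fun t => ENNReal.ofReal (v t)) z y
      hi.aestronglyMeasurable.aemeasurable.ennreal_ofReal hρ c hr
    have e : ∀ a : ℝ, ∫⁻ x in Metric.ball y a, ENNReal.ofReal (v ‖x - z‖) =
        ENNReal.ofReal (∫ x in Metric.ball y a, v ‖x - z‖) := fun a =>
      (ofReal_integral_eq_lintegral_ofReal (hI a) (Filter.Eventually.of_forall fun _ => hv _)).symm
    rw [e, e, ← ENNReal.ofReal_mul (h0 _), ← ENNReal.ofReal_mul (h0 _),
      ENNReal.ofReal_le_ofReal_iff (mul_nonneg (h0 _) (by positivity))] at h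
    have p : 0 < (R / 4) ^ (n + 1) := by positivity
    refine le_of_mul_le_mul_right (h.trans_eq ?_) p
    rw [show (12 : ℝ) = 3 * 4 by norm_num]
    simp only [mul_pow, div_pow, pow_succ]
    field_simp
  · have a1 : ∫ x in Metric.ball y ρ, v ‖x - z‖ ≤ ∫ x in Metric.ball y R, v ‖x - z‖ :=
      setIntegral_mono_set (hI R) (Filter.Eventually.of_forall fun _ => hv _)
        (Metric.ball_subset_ball hR).eventuallyLE
    have a2 : (1 : ℝ) ≤ (12 * (ρ / R)) ^ n := one_le_pow₀ (by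
      rw [← mul_div_assoc, le_div_iff₀ hR0]; linarith)
    have a3 : (1 : ℝ) ≤ 2 * 12 ^ (n + 1) * (ρ / R) ^ n := by
      rw [mul_pow] at a2
      rw [pow_succ]
      linarith
    exact a1.trans (le_mul_of_one_le_left (h0 R) a3)

theorem rdDbl3_lip {d : ℕ} {u : E d} (hu : ‖u‖ = 1) (x z : E d) :
    |⟪x, u⟫ - ⟪z, u⟫| ≤ dist x z := by
  rw [← inner_sub_left, dist_eq_norm]
  exact (abs_real_inner_le_norm _ _).trans (by rw [hu, mul_one])

theorem rdDbl3_meas {d : ℕ} (u : E d) (a t : ℝ) : MeasurableSet {x : E d | |⟪x, u⟫ - a| ≤ t} :=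
  (isClosed_le (by fun_prop) continuous_const).measurableSet

theorem rdDbl3_avg {d : ℕ} (μ : Measure (E d)) [SFinite μ] {K : ℝ≥0∞} {t : ℝ} (ht : 0 < t)
    {X Y Z : Set (E d)} (v : E d) (hX : MeasurableSet X) (hY : MeasurableSet Y)
    (hZ : MeasurableSet Z) (h1 : ∀ x ∈ X, Metric.ball x t ⊆ Z)
    (h2 : ∀ p ∈ Z, Metric.ball (p + v) t ⊆ Y)
    (h3 : ∀ p, μ (Metric.ball p t) ≤ K * μ (Metric.ball (p + v) t)) : μ X ≤ K * μ Y := by
  have hS : ∀ z : E d, MeasurableSet {q : E d × E d | q.1 ∈ Z ∧ dist q.2 (q.1 + z) < t} :=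
    fun z => (measurable_fst hZ).inter (isOpen_lt (f := fun q : E d × E d => dist q.2 (q.1 + z))
      (by fun_prop) continuous_const).measurableSet
  have hV0 : volume (Metric.ball (0 : E d) t) ≠ 0 := (Metric.measure_ball_pos _ _ ht).ne'
  have hV1 : volume (Metric.ball (0 : E d) t) ≠ ∞ := measure_ball_lt_top.ne
  have a1 : volume (Metric.ball (0 : E d) t) * μ X ≤
      (volume.prod μ) {q : E d × E d | q.1 ∈ Z ∧ dist q.2 (q.1 + 0) < t} := by
    rw [Measure.prod_apply_symm (hS 0), ← lintegral_indicator_const hX]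
    refine lintegral_mono fun x => ?_
    by_cases hx : x ∈ X
    swap
    · exact (indicator_of_notMem hx _).le.trans zero_le
    rw [indicator_of_mem hx, ← Measure.addHaar_ball_center volume x]
    refine measure_mono fun p hp => ⟨h1 x hx hp, ?_⟩
    rw [add_zero, dist_comm]
    exact hp
  have a2 : (volume.prod μ) {q : E d × E d | q.1 ∈ Z ∧ dist q.2 (q.1 + v) < t} ≤
      volume (Metric.ball (0 : E d) t) * μ Y := by
    rw [Measure.prod_apply_symm (hS v), ← lintegral_indicator_const hY]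
    refine lintegral_mono fun x => ?_
    by_cases hx : x ∈ Y
    · rw [indicator_of_mem hx, ← Measure.addHaar_ball_center volume (x - v)]
      refine measure_mono fun p hp => ?_
      have h4 : dist x (p + v) < t := hp.2
      rwa [Metric.mem_ball, dist_comm, dist_sub_eq_dist_add_left]
    · rw [indicator_of_notMem hx]
      exact (measure_mono (t := ∅) fun p hp => hx (h2 p hp.1 hp.2)).trans measure_empty.le
  have a3 : (volume.prod μ) {q : E d × E d | q.1 ∈ Z ∧ dist q.2 (q.1 + 0) < t} ≤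
      K * (volume.prod μ) {q : E d × E d | q.1 ∈ Z ∧ dist q.2 (q.1 + v) < t} := by
    rw [Measure.prod_apply (hS 0), Measure.prod_apply (hS v),
      ← lintegral_const_mul K (measurable_measure_prodMk_left (hS v))]
    refine lintegral_mono fun p => ?_
    by_cases hp : p ∈ Z
    · refine (measure_mono (t := Metric.ball p t) fun x hx => ?_).trans ((h3 p).trans ?_)
      · have h4 : dist x (p + 0) < t := hx.2
        rwa [add_zero] at h4
      · exact mul_le_mul_right (measure_mono fun x hx => And.intro hp hx) K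
    · exact (measure_mono (t := ∅) fun x hx => hp hx.1).trans (measure_empty.le.trans zero_le)
  have a4 := a1.trans (a3.trans (mul_le_mul_right a2 K))
  rwa [mul_left_comm, ENNReal.mul_le_mul_iff_right hV0 hV1] at a4

theorem rdDbl3_step {d : ℕ} (μ : Measure (E d)) [SFinite μ] {c : ℝ} (hc : 1 ≤ c)
    (hf : ∀ y ρ, μ (Metric.ball y ρ) ≠ ∞)
    (hD : ∀ y R, 0 < R → μ (Metric.ball y (2 * R)) ≤ ENNReal.ofReal c * μ (Metric.ball y R))
    (y : E d) {u : E d} (hu : ‖u‖ = 1) (a ρ : ℝ) {t : ℝ} (ht : 0 < t) :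
    μ.real (Metric.ball y ρ ∩ {x : E d | |⟪x, u⟫ - a| ≤ t}) ≤ c ^ 3 / (1 + c ^ 3) *
      μ.real (Metric.ball y (ρ + 6 * t) ∩ {x : E d | |⟪x, u⟫ - a| ≤ 7 * t}) := by
  have hn : ‖(4 * t) • u‖ = 4 * t := by
    rw [norm_smul, hu, mul_one, Real.norm_eq_abs, abs_of_pos (by positivity)]
  have h1 := rdDbl3_avg μ (K := ENNReal.ofReal c ^ 3) ht
    (X := Metric.ball y ρ ∩ {x : E d | |⟪x, u⟫ - a| ≤ t})
    (Y := (Metric.ball y (ρ + 6 * t) ∩ {x : E d | |⟪x, u⟫ - a| ≤ 7 * t}) \
      {x : E d | |⟪x, u⟫ - a| ≤ t})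
    (Z := Metric.ball y (ρ + t) ∩ {x : E d | |⟪x, u⟫ - a| ≤ 2 * t}) ((4 * t) • u)
    (measurableSet_ball.inter (rdDbl3_meas u a _))
    ((measurableSet_ball.inter (rdDbl3_meas u a _)).diff (rdDbl3_meas u a _))
    (measurableSet_ball.inter (rdDbl3_meas u a _)) (fun x hx p hp => ?_) (fun p hp x hx => ?_)
    fun p => ?_
  · have f1 : ∀ (ρ : ℝ) (S : Set (E d)), μ (Metric.ball y ρ ∩ S) ≠ ∞ := fun ρ S =>
      ne_top_of_le_ne_top (hf y ρ) (measure_mono inter_subset_left)
    have f2 := ne_top_of_le_ne_top (f1 (ρ + 6 * t) {x : E d | |⟪x, u⟫ - a| ≤ 7 * t})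
      (measure_mono (sdiff_subset (t := {x : E d | |⟪x, u⟫ - a| ≤ t})))
    have h2 := ENNReal.toReal_mono
      (ENNReal.mul_ne_top (ENNReal.pow_ne_top ENNReal.ofReal_ne_top) f2) h1
    rw [ENNReal.toReal_mul, ENNReal.toReal_pow, ENNReal.toReal_ofReal (by linarith),
      ← measureReal_def, ← measureReal_def] at h2
    have h3 := measureReal_inter_add_sdiff (μ := μ) (rdDbl3_meas u a t)
      (f1 (ρ + 6 * t) {x : E d | |⟪x, u⟫ - a| ≤ 7 * t})
    have h4 : μ.real (Metric.ball y ρ ∩ {x : E d | |⟪x, u⟫ - a| ≤ t}) ≤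
        μ.real (Metric.ball y (ρ + 6 * t) ∩ {x : E d | |⟪x, u⟫ - a| ≤ 7 * t} ∩
          {x : E d | |⟪x, u⟫ - a| ≤ t}) := by
      refine measureReal_mono (fun x hx => ⟨⟨Metric.ball_subset_ball (by linarith) hx.1, ?_⟩,
        hx.2⟩) (by rw [inter_assoc]; exact f1 _ _)
      exact le_trans (b := t) hx.2 (by linarith)
    have h5 : 0 < c ^ 3 := by positivity
    rw [div_mul_eq_mul_div, le_div_iff₀ (by linarith), ← h3]
    nlinarith
  · have b1 : dist x y < ρ := hx.1
    have b2 : |⟪x, u⟫ - a| ≤ t := hx.2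
    have b3 : dist p x < t := hp
    have b4 := abs_le.1 (rdDbl3_lip hu p x)
    have b5 := abs_le.1 b2
    have b6 : |⟪p, u⟫ - a| ≤ 2 * t :=
      abs_le.2 ⟨by linarith [b4.1, b5.1], by linarith [b4.2, b5.2]⟩
    exact ⟨(dist_triangle p x y).trans_lt (by linarith), b6⟩
  · have b1 : dist p y < ρ + t := hp.1
    have b2 : |⟪p, u⟫ - a| ≤ 2 * t := hp.2
    have b3 : dist x (p + (4 * t) • u) < t := hx
    have b4 := abs_le.1 (rdDbl3_lip hu x (p + (4 * t) • u))
    have b5 := abs_le.1 b2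
    have b6 : dist (p + (4 * t) • u) p = 4 * t := by rw [dist_self_add_left, hn]
    rw [inner_add_left, real_inner_smul_left, real_inner_self_eq_norm_sq, hu] at b4
    have b8 : |⟪x, u⟫ - a| ≤ 7 * t :=
      abs_le.2 ⟨by linarith [b4.1, b5.1], by linarith [b4.2, b5.2]⟩
    refine ⟨⟨(dist_triangle4 x (p + (4 * t) • u) p y).trans_lt (by linarith), b8⟩, fun h => ?_⟩
    have b7 : |⟪x, u⟫ - a| ≤ t := h
    linarith [b4.1, b5.1, (abs_le.1 b7).2]
  · have b6 : dist p (p + (4 * t) • u) = 4 * t := by rw [dist_self_add_right, hn]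
    calc μ (Metric.ball p t) ≤ μ (Metric.ball (p + (4 * t) • u) (2 * (2 * (2 * t)))) :=
          measure_mono (Metric.ball_subset_ball' (by linarith))
      _ ≤ ENNReal.ofReal c * (ENNReal.ofReal c * (ENNReal.ofReal c *
            μ (Metric.ball (p + (4 * t) • u) t))) :=
          (hD _ _ (by linarith)).trans (mul_le_mul_right ((hD _ _ (by linarith)).trans
            (mul_le_mul_right (hD _ _ ht) _)) _)
      _ = _ := by ring

theorem dbl_pf {d : ℕ} (hd : 1 ≤ d) {c : ℝ} (hc : 1 ≤ c) : ∃ s D : ℝ, 0 < s ∧ 1 ≤ D ∧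
    ∀ w : E d → ℝ, (∀ x, 0 ≤ w x) → LocallyIntegrable w volume →
    (∀ (y : E d) (R : ℝ), 0 < R →
      ∫ x in Metric.ball y (2 * R), w x ≤ c * ∫ x in Metric.ball y R, w x) →
    ∀ (y u : E d) (a r R : ℝ), ‖u‖ = 1 → 0 < r → r ≤ R →
      ∫ x in Metric.ball y R ∩ {x : E d | |⟪x, u⟫ - a| ≤ r}, w x ≤
        D * (r / R) ^ s * ∫ x in Metric.ball y (2 * R), w x := by
  have h5 : 0 < c ^ 3 := by positivity
  obtain ⟨q, hq⟩ : ∃ q, c ^ 3 / (1 + c ^ 3) = q := ⟨_, rfl⟩
  have q0 : 0 < q := by rw [← hq]; positivity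
  have q1 : q < 1 := by rw [← hq, div_lt_one (by linarith)]; linarith
  have hs : 0 < Real.logb 7 q⁻¹ := Real.logb_pos (by norm_num) ((one_lt_inv₀ q0).2 q1)
  refine ⟨Real.logb 7 q⁻¹, q⁻¹, hs, (one_le_inv₀ q0).2 q1.le,
    fun w hw hl hD y u a r R hu hr hR => ?_⟩
  obtain ⟨μ, hμ⟩ : ∃ μ, volume.withDensity (fun x => ENNReal.ofReal (w x)) = μ := ⟨_, rfl⟩
  have : SFinite μ := by rw [← hμ]; infer_instance
  have e1 : ∀ S : Set (E d), MeasurableSet S → ∫ x in S, w x = μ.real S := fun S hS => by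
    rw [integral_eq_lintegral_of_nonneg_ae (Filter.Eventually.of_forall hw)
      hl.aestronglyMeasurable.restrict, measureReal_def, ← hμ, withDensity_apply _ hS]
  have hf : ∀ y ρ, μ (Metric.ball y ρ) ≠ ∞ := fun y ρ => by
    rw [← hμ, withDensity_apply _ measurableSet_ball]
    exact ((hl.integrableOn_isCompact (isCompact_closedBall y ρ)).mono_set
      Metric.ball_subset_closedBall).lintegral_lt_top.ne
  have hD' : ∀ y R, 0 < R → μ (Metric.ball y (2 * R)) ≤ ENNReal.ofReal c * μ (Metric.ball y R) :=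
    fun y R hR => by
      have h1 := ENNReal.ofReal_le_ofReal (hD y R hR)
      rwa [e1 _ measurableSet_ball, e1 _ measurableSet_ball, ENNReal.ofReal_mul (by linarith),
        ofReal_measureReal (hf _ _), ofReal_measureReal (hf _ _)] at h1
  have h1 : ∀ n : ℕ, μ.real (Metric.ball y R ∩ {x : E d | |⟪x, u⟫ - a| ≤ r}) ≤ q ^ n *
      μ.real (Metric.ball y (R + r * (7 ^ n - 1)) ∩ {x : E d | |⟪x, u⟫ - a| ≤ r * 7 ^ n}) := by
    intro n
    induction n with
    | zero => simp
    | succ n ih =>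
      have h2 := rdDbl3_step μ hc hf hD' y hu a (R + r * (7 ^ n - 1))
        (t := r * 7 ^ n) (by positivity)
      rw [hq, show R + r * (7 ^ n - 1) + 6 * (r * 7 ^ n) = R + r * (7 ^ (n + 1) - 1) by ring,
        show 7 * (r * 7 ^ n) = r * 7 ^ (n + 1) by ring] at h2
      rw [pow_succ q, mul_assoc]
      exact ih.trans (mul_le_mul_of_nonneg_left h2 (by positivity))
  obtain ⟨n, n1, n2⟩ := exists_nat_pow_near ((one_le_div hr).2 hR) (by norm_num : (1 : ℝ) < 7)
  rw [le_div_iff₀ hr] at n1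
  have hR0 : 0 < R := hr.trans_le hR
  have h3 : q ^ n ≤ q⁻¹ * (r / R) ^ Real.logb 7 q⁻¹ := by
    have b1 : (R / r) ^ Real.logb 7 q⁻¹ ≤ q⁻¹ ^ (n + 1) := by
      refine (Real.rpow_le_rpow (by positivity) n2.le hs.le).trans (le_of_eq ?_)
      rw [← Real.rpow_natCast, ← Real.rpow_mul (by norm_num), mul_comm,
        Real.rpow_mul (by norm_num), Real.rpow_logb (by norm_num) (by norm_num) (by positivity),
        Real.rpow_natCast]
    rw [← inv_div R r, Real.inv_rpow (by positivity), le_inv_mul_iff₀ q0, ← pow_succ',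
      le_inv_comm₀ (by positivity) (by positivity), ← inv_pow]
    exact b1
  rw [e1 _ (measurableSet_ball.inter (rdDbl3_meas u a r)), e1 _ measurableSet_ball]
  refine (h1 n).trans (mul_le_mul h3 (measureReal_mono (fun x hx => ?_) (hf _ _))
    measureReal_nonneg (by positivity))
  exact Metric.ball_subset_ball (by linarith) hx.1

theorem rdFro3_vol {n : ℕ} (y u v : E (n + 2)) (a b : ℝ) {r R : ℝ} (hr : 0 ≤ r) (hR : 0 ≤ R)
    (hu : ‖u‖ = 1) (hv : ‖v‖ = 1) (huv : ⟪u, v⟫ = 0) :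
    volume (Metric.ball y R ∩ pl u v a b r) ≤ ENNReal.ofReal ((2 * r) ^ 2 * (2 * R) ^ n) := by
  have hvu : ⟪v, u⟫ = 0 := by rw [real_inner_comm, huv]
  obtain ⟨B, hB⟩ := Orthonormal.exists_orthonormalBasis_extension_of_card_eq (𝕜 := ℝ)
    (E := E (n + 2)) (ι := Fin (n + 2)) (by simp)
    (v := fun i => if i = 0 then u else v) (s := {0, 1}) (by
      rw [orthonormal_iff_ite]
      rintro ⟨i, rfl | rfl⟩ ⟨j, rfl | rfl⟩ <;> simp [hu, hv, huv, hvu, Subtype.ext_iff])
  have b0 : B 0 = u := by simpa using hB 0 (by simp)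
  have b1 : B 1 = v := by simpa using hB 1 (by simp)
  let c : Fin (n + 2) → ℝ := Fin.cons a (Fin.cons b fun i => B.repr y i.succ.succ)
  let ρ : Fin (n + 2) → ℝ := Fin.cons r (Fin.cons r fun _ => R)
  have hs : Metric.ball y R ∩ pl u v a b r ⊆
      B.repr ⁻¹' {x : E (n + 2) | ∀ i, x i ∈ Icc (c i - ρ i) (c i + ρ i)} := by
    rintro p ⟨h1, h2, h3⟩ i
    have key : |B.repr p i - c i| ≤ ρ i := by
      refine Fin.cases ?_ (fun i => Fin.cases ?_ (fun i => ?_) i) i
      · rw [B.repr_apply_apply, b0, real_inner_comm]; exact h2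
      · rw [B.repr_apply_apply, Fin.succ_zero_eq_one, b1, real_inner_comm]; exact h3
      · have := PiLp.norm_apply_le (B.repr (p - y)) i.succ.succ
        rw [B.repr.norm_map, map_sub, PiLp.sub_apply, Real.norm_eq_abs] at this
        exact this.trans (mem_ball_iff_norm.1 h1).le
    rw [abs_le] at key
    exact ⟨by linarith [key.1], by linarith [key.2]⟩
  refine (measure_mono hs).trans ((B.measurePreserving_repr.measure_preimage ?_).trans_le ?_)
  · rw [ofPred_forall]
    exact (MeasurableSet.iInter fun i => measurableSet_Icc.preimage (by fun_prop)).nullMeasurableSet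
  · rw [cube_vol_Icc, Fin.prod_univ_succ, Fin.prod_univ_succ]
    have e : ∀ x t : ℝ, x + t - (x - t) = 2 * t := fun x t => by ring
    simp only [e, ρ, Fin.cons_zero, Fin.cons_succ, Finset.prod_const, Finset.card_univ,
      Fintype.card_fin]
    rw [← ENNReal.ofReal_pow (by positivity), ← ENNReal.ofReal_mul (by positivity),
      ← ENNReal.ofReal_mul (by positivity)]
    exact le_of_eq (congrArg _ (by ring))

theorem rdFro3_avg {d : ℕ} (μ : Measure (E d)) [SFinite μ] {X Z : Set (E d)}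
    (hX : MeasurableSet X) (hZ : MeasurableSet Z) {r : ℝ} {B : ℝ≥0∞}
    (h1 : ∀ x ∈ X, Metric.ball x r ⊆ Z) (h2 : ∀ p ∈ Z, μ (Metric.ball p r) ≤ B) :
    volume (Metric.ball (0 : E d) r) * μ X ≤ B * volume Z := by
  have hS : MeasurableSet {q : E d × E d | q.1 ∈ Z ∧ dist q.1 q.2 < r} :=
    (measurable_fst hZ).inter (measurableSet_lt measurable_dist measurable_const)
  rw [← lintegral_indicator_const hX, ← lintegral_indicator_const hZ]
  refine le_trans (lintegral_mono fun x => ?_) ((Measure.prod_apply_symm (μ := volume) (ν := μ)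
    hS).symm.trans_le ((Measure.prod_apply hS).trans_le (lintegral_mono fun p => ?_)))
  · by_cases hx : x ∈ X
    · rw [indicator_of_mem hx, ← Measure.addHaar_ball_center volume x]
      exact measure_mono fun p hp => ⟨h1 x hx hp, hp⟩
    · simp [hx]
  · by_cases hp : p ∈ Z
    · rw [indicator_of_mem hp]
      exact le_trans (measure_mono fun x hx => Metric.mem_ball'.2 hx.2) (h2 p hp)
    · simp [hp]

theorem fro_pf {d : ℕ} (hd : 2 ≤ d) : ∃ K : ℝ, 1 ≤ K ∧ ∀ (w : E d → ℝ) (z : Set (E d)) (s D : ℝ), (∀ x, 0 ≤ w x) → LocallyIntegrable w volume → (d : ℝ) - 2 ≤ s → s ≤ d → 1 ≤ D → (∀ (y : E d) (r R : ℝ), 0 < r → r ≤ R → (∀ p ∈ z, R ≤ ‖y - p‖) → ∫ x in Metric.ball y r, w x ≤ D * (r / R) ^ s * ∫ x in Metric.ball y R, w x) → ∀ (y u v : E d) (a b r R : ℝ), ‖u‖ = 1 → ‖v‖ = 1 → ⟪u, v⟫ = 0 → 0 < r → r ≤ R → (∀ p ∈ z, 2 * R ≤ ‖y - p‖) → ∫ x in Metric.ball y R ∩ pl u v a b r, w x ≤ K * D * (r / R) ^ (s - (d - 2)) * ∫ x in Metric.ball y (2 * R), w x := by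
  obtain ⟨n, rfl⟩ := Nat.exists_eq_add_of_le' hd
  obtain ⟨c, hc, ec⟩ : ∃ c : ℝ, 0 < c ∧ volume (Metric.ball (0 : E (n + 2)) 1) = ENNReal.ofReal c :=
    ⟨_, ENNReal.toReal_pos (Metric.measure_ball_pos _ _ one_pos).ne' measure_ball_lt_top.ne,
      (ENNReal.ofReal_toReal measure_ball_lt_top.ne).symm⟩
  obtain ⟨K, hK⟩ : ∃ K : ℝ, K = 16 * 3 ^ n * 2 ^ (n + 2) / c := ⟨_, rfl⟩
  have hK0 : 0 < K := by rw [hK]; positivity
  refine ⟨4 + K, by linarith, fun w z s D hw hl s1 s2 hD hyp y u v a b r R hu hv huv hr hrR hz => ?_⟩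
  have hR : 0 < R := hr.trans_le hrR
  have e0 : s - (((n + 2 : ℕ) : ℝ) - 2) = s - n := by push_cast; ring
  rw [e0]
  push_cast at s1 s2
  have hI : ∀ (p : E (n + 2)) (t : ℝ), IntegrableOn w (Metric.ball p t) := fun p t =>
    (hl.integrableOn_isCompact (isCompact_closedBall p t)).mono_set Metric.ball_subset_closedBall
  have hm : ∀ {S : Set (E (n + 2))}, S ⊆ Metric.ball y (2 * R) →
      ∫ x in S, w x ≤ ∫ x in Metric.ball y (2 * R), w x := fun h =>
    setIntegral_mono_set (hI _ _) (Filter.Eventually.of_forall hw) h.eventuallyLE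
  have hW : 0 ≤ ∫ x in Metric.ball y (2 * R), w x := integral_nonneg hw
  have hq : 0 < r / R := by positivity
  have ht := Real.rpow_pos_of_pos hq (s - n)
  generalize hW2 : ∫ x in Metric.ball y (2 * R), w x = W at hm hW ⊢
  rcases le_or_gt r (R / 2) with h | h
  · have hXm : MeasurableSet (Metric.ball y R ∩ pl u v a b r) :=
      measurableSet_ball.inter (pl_meas _ _ _ _ _)
    have hμ : ∀ {S : Set (E (n + 2))}, MeasurableSet S → IntegrableOn w S →
        volume.withDensity (fun x => ENNReal.ofReal (w x)) S = ENNReal.ofReal (∫ x in S, w x) :=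
      fun h1 h2 => by
        rw [withDensity_apply _ h1,
          ofReal_integral_eq_lintegral_ofReal h2 (Filter.Eventually.of_forall hw)]
    have k := rdFro3_avg (volume.withDensity fun x => ENNReal.ofReal (w x)) hXm
      (Z := Metric.ball y (3 * R / 2) ∩ pl u v a b (2 * r))
      (measurableSet_ball.inter (pl_meas _ _ _ _ _)) (r := r)
      (B := ENNReal.ofReal (D * (r / (R / 2)) ^ s * W)) ?_ ?_
    · rw [hμ hXm ((hI y R).mono_set inter_subset_left), Measure.addHaar_ball_of_pos _ _ hr, ec,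
        finrank_euclideanSpace, Fintype.card_fin] at k
      have k2 := k.trans (mul_le_mul_right
        (rdFro3_vol y u v a b (by positivity) (by positivity) hu hv huv) _)
      have hD0 : 0 < D := by linarith
      rw [← ENNReal.ofReal_mul (by positivity), ← ENNReal.ofReal_mul (by positivity),
        ← ENNReal.ofReal_mul (by positivity), ENNReal.ofReal_le_ofReal_iff (by positivity)] at k2
      have e1 : (r / (R / 2)) ^ s = 2 ^ s * ((r / R) ^ (s - n) * (r / R) ^ n) := by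
        rw [← Real.rpow_natCast, ← Real.rpow_add hq, sub_add_cancel,
          ← Real.mul_rpow two_pos.le hq.le]
        congr 1
        field_simp
      have e2 : (2 : ℝ) ^ s ≤ 2 ^ (n + 2) := by
        rw [← Real.rpow_natCast]
        exact Real.rpow_le_rpow_of_exponent_le one_le_two (by push_cast; exact s2)
      have e3 : (r / R) ^ n * ((2 * (2 * r)) ^ 2 * (2 * (3 * R / 2)) ^ n) =
          16 * 3 ^ n * r ^ (n + 2) := by
        rw [show 2 * (3 * R / 2) = 3 * R by ring, mul_pow 3, div_pow]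
        field_simp
        ring
      have e4 : r ^ (n + 2) * c * ∫ x in Metric.ball y R ∩ pl u v a b r, w x ≤
          r ^ (n + 2) * c * (K * D * (r / R) ^ (s - n) * W) := by
        refine k2.trans ?_
        rw [e1]
        calc _ = 2 ^ s * (D * (r / R) ^ (s - n) * W * ((r / R) ^ n *
              ((2 * (2 * r)) ^ 2 * (2 * (3 * R / 2)) ^ n))) := by ring
          _ ≤ 2 ^ (n + 2) * (D * (r / R) ^ (s - n) * W * (16 * 3 ^ n * r ^ (n + 2))) := by
              rw [e3]; exact mul_le_mul_of_nonneg_right e2 (by positivity)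
          _ = _ := by rw [hK]; field_simp
      refine (le_of_mul_le_mul_left e4 (by positivity)).trans ?_
      gcongr
      linarith
    · rintro x ⟨h1, h2, h3⟩ p hp
      rw [mem_ball_iff_norm] at h1 hp
      have key : ∀ (e : E (n + 2)) (t : ℝ), ‖e‖ = 1 → |⟪x, e⟫ - t| ≤ r → |⟪p, e⟫ - t| ≤ 2 * r := by
        intro e t he h4
        have h5 := abs_real_inner_le_norm (p - x) e
        rw [he, inner_sub_left] at h5
        have := abs_add_le (⟪p, e⟫ - ⟪x, e⟫) (⟪x, e⟫ - t)
        rw [sub_add_sub_cancel] at this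
        linarith
      refine ⟨mem_ball_iff_norm.2 ?_, key u a hu h2, key v b hv h3⟩
      have := norm_add_le (p - x) (x - y)
      rw [sub_add_sub_cancel] at this
      linarith
    · rintro p ⟨h1, -⟩
      rw [hμ measurableSet_ball (hI p r)]
      refine ENNReal.ofReal_le_ofReal ((hyp p r (R / 2) hr h fun q hq => ?_).trans ?_)
      · have := norm_add_le (y - p) (p - q)
        rw [sub_add_sub_cancel] at this
        linarith [hz q hq, mem_ball_iff_norm'.1 h1]
      · refine mul_le_mul_of_nonneg_left (hm (Metric.ball_subset_ball' ?_)) (by positivity)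
        linarith [Metric.mem_ball.1 h1]
  · have h1 := hm (S := Metric.ball y R ∩ pl u v a b r)
      (inter_subset_left.trans (Metric.ball_subset_ball (by linarith)))
    have h2 : (r / R) ^ (2 : ℕ) ≤ (r / R) ^ (s - n) := by
      rw [← Real.rpow_natCast]
      exact Real.rpow_le_rpow_of_exponent_ge hq ((div_le_one hR).2 hrR) (by push_cast; linarith)
    have h3 : 1 / 2 ≤ r / R := by rw [le_div_iff₀ hR]; linarith
    have h4 : 1 ≤ (4 + K) * D * (r / R) ^ (s - n) := by
      have : 4 ≤ (4 + K) * D := by nlinarith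
      nlinarith
    exact h1.trans (le_mul_of_one_le_left hW h4)

end Pool.Agent.MP_418f02_an
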