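import Pool.Agent.Mg.F418f02a.Ge9a0aa

/-! Rough singular integrals and weights with reverse doubling: objects and steps. -/

set_option autoImplicit false

open MeasureTheory Set
open scoped ENNReal RealInnerProductSpace

namespace Pool.Agent.MP_418f02_an

noncomputable section

/-- the intersection of two slabs -/
def pl {d : ℕ} (u v : E d) (a b r : ℝ) : Set (E d) := {y | |⟪y, u⟫ - a| ≤ r ∧ |⟪y, v⟫ - b| ≤ r}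

/-- test sets `n` levels below level `j`: neighbourhoods of planes of codimension two -/
def Tst {d : ℕ} (j : ℤ) (n : ℕ) (T : Set (E d)) : Prop :=
  (n = 0 ∧ T = univ) ∨ ∃ (u v : E d) (a b : ℝ), ‖u‖ = 1 ∧ ‖v‖ = 1 ∧ ⟪u, v⟫ = 0 ∧
    T = pl u v a b (2 ^ (j - n))

/-- Morrey type bound for `g` inside `S`, relative to level `j` -/
def Mor {d : ℕ} (θ : ℝ) (g : E d → ℝ) (S : Set (E d)) (j : ℤ) (μ : ℝ) : Prop :=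
  ∀ (n : ℕ) (T : Set (E d)), Tst j n T → ∫ y in S ∩ T, |g y| ≤ μ * θ ^ n * sz d j

/-- every atom has a Morrey bound at its own level -/
def MorA {d : ℕ} (θ : ℝ) (P : Finset (Cb d)) (b : Cb d → E d → ℝ) : Prop :=
  ∀ Q ∈ P, Mor θ (b Q) (cube Q) Q.1 1

/-- the Morrey norm of `g` near `x` at level `j` -/
def mo {d : ℕ} (θ : ℝ) (g : E d → ℝ) (j : ℤ) (x : E d) : ℝ≥0∞ :=
  ⨆ (n : ℕ) (T : Set (E d)) (_ : Tst j n T),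
    ENNReal.ofReal ((∫ y in big (cb j x) ∩ T, |g y|) / (θ ^ n * sz d j))

/-- points whose level `j` neighbourhood stays away from the set `z` -/
def loc {d : ℕ} (z : Set (E d)) (j : ℤ) : Set (E d) :=
  {x | ∀ y ∈ big (cb j x), ∀ u ∈ z, (2 : ℝ) ^ (j + (d + 2 : ℕ)) ≤ ‖y - u‖}

/-- the local Morrey maximal function over the levels in `[j, b]` -/
def moY {d : ℕ} (θ : ℝ) (g : E d → ℝ) (z : Set (E d)) (b j : ℤ) (x : E d) : ℝ≥0∞ :=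
  ⨆ i ∈ Finset.Icc j b, (loc z i).indicator (mo θ g i) x

/-- every ball contains a point far from the set `z` -/
def Por {d : ℕ} (z : Set (E d)) (κ : ℝ) : Prop :=
  ∀ (c : E d) (r : ℝ), 0 < r → ∃ y, ‖y - c‖ ≤ r ∧ ∀ u ∈ z, κ * r ≤ ‖y - u‖

/-- the cubes close to the set `z` satisfy a packing condition -/
def Car {d : ℕ} (z : Set (E d)) (Λ : ℝ) : Prop :=
  ∀ (a : ℤ) (c : Cb d), ∑ j ∈ Finset.Icc a c.1, volume ((loc z j)ᶜ ∩ cube c) ≤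
    ENNReal.ofReal (Λ * sz d c.1)

/-- dyadic reverse doubling away from `z` -/
def RD {d : ℕ} (w : E d → ℝ) (z : Set (E d)) (σ D : ℝ) : Prop :=
  ∀ (j : ℤ) (x : E d), x ∈ loc z j → ∀ (n : ℕ) (T : Set (E d)), Tst j n T →
    ∫⁻ y in big (cb j x) ∩ T, ENNReal.ofReal (w y) ≤
      ENNReal.ofReal (D * σ ^ n) * ∫⁻ y in big (cb (j + (d + 2 : ℕ)) x), ENNReal.ofReal (w y)

/-- the errors of the delayed averages are small -/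
def PeB {d : ℕ} (k : E d → ℝ) (P : Finset (Cb d)) (b : Cb d → E d → ℝ) (N : ℕ) (Λ : ℝ) : Prop :=
  ∀ (t : ℕ) (a : ℤ) (c : Cb d), ∑ j ∈ Finset.Icc a c.1,
    ∫⁻ x in cube c, ENNReal.ofReal |pe k P b N j t x| ≤
      ENNReal.ofReal (Λ * (1 / 2) ^ t * sz d c.1)

/-- moment bound for sums of atoms with a Morrey bound -/
def AtM {d : ℕ} (θ : ℝ) (k : E d → ℝ) (m β : ℝ) : Prop :=
  ∀ (P : Finset (Cb d)) (b : Cb d → E d → ℝ), Atoms P b 1 → MorA θ P b →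
    ∀ G : ℤ → Set (E d), Stop G →
    ∀ (W : Cb d) (j₀ : ℤ), (∀ j, j₀ ≤ j → j ≤ W.1 → ∀ x ∈ cube W, x ∈ G j → ∀ Q ∈ P,
      (cube Q ∩ big (cb j x)).Nonempty → Q.1 < j) →
    Mom (TG k G j₀ W.1 fun x => ∑ Q ∈ P, b Q x) W m β

/-- the density `|g| ^ β * w ^ (1 - β)` -/
def gb {d : ℕ} (β : ℝ) (g w : E d → ℝ) (y : E d) : ℝ := |g y| ^ β * w y ^ (1 - β)

def S_Mult (d : ℕ) : Prop := ∃ C : ℝ, 0 < C ∧ ∀ k : E d → ℝ, IsKer k → ∀ (n : ℕ) (ξ : E d),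
  (2 : ℝ) ^ n ≤ ‖ξ‖ → ‖FT (KK k 1) ξ‖ ≤ C * (n + 1) / 2 ^ n

def S_Vol (d : ℕ) : Prop := ∀ (c : Cb d) (n : ℕ) (T : Set (E d)), Tst c.1 n T →
  volume (big c ∩ T) ≤ ENNReal.ofReal (2 * (4 * d) ^ d * (1 / 2) ^ n * sz d c.1)

def S_Tube (d : ℕ) : Prop := ∀ (u : E d) (a b : ℝ), ‖u‖ = 1 → 0 ≤ a → 0 ≤ b →
  volume {ξ : E d | ‖ξ‖ ≤ a ∧ ‖ξ - ⟪ξ, u⟫ • u‖ ≤ b} ≤ ENNReal.ofReal (2 * a * (2 * b) ^ (d - 1))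

def S_Avg (d : ℕ) : Prop := ∀ (H : E d → ℝ) (ξ : E d) (l η μ : ℝ), Nice H → 0 < l →
  ∫ y, |H y| ≤ μ → (∀ c : ℝ, ∫ y in {y : E d | |⟪y, ξ⟫ - c| ≤ l}, |H y| ≤ η) →
  ∫ s in (1 : ℝ)..2, ‖FT H (s⁻¹ • ξ)‖ ^ 2 ≤ 4 * (μ * η + μ ^ 2 / l)

def S_Good (d : ℕ) : Prop := ∀ (k H : E d → ℝ) (l B : ℝ) (G : Set (E d)), IsKer k → Nice H →
  0 < l → 0 ≤ B → MeasurableSet G →
  (∀ ξ ∈ G, ∀ t ∈ Icc (1 : ℝ) 2, ∫ s in (1 : ℝ)..2, ‖FT H (s⁻¹ • t • ξ)‖ ^ 2 ≤ B) →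
  ∫⁻ ξ in G, ENNReal.ofReal (‖FT (KK k l) ξ‖ ^ 2 * ‖FT H ξ‖ ^ 2) ≤
    ENNReal.ofReal (4 ^ d * B / l ^ d)

def S_Cov (d : ℕ) : Prop := ∀ (H : E d → ℝ) (μ ε ρ l R : ℝ) (N : ℕ), Nice H → 0 < ρ → 0 < l →
  0 < R → 0 < N → ∫ y, |H y| ≤ μ →
  (∀ (u v : E d) (a b : ℝ), ‖u‖ = 1 → ‖v‖ = 1 → ⟪u, v⟫ = 0 →
    ∫ y in pl u v a b (3 * l / R), |H y| ≤ ε) → N ^ 2 * ε ≤ 2 * μ →
  ∃ F : Finset (E d), F.card ≤ N ∧ (∀ u ∈ F, ‖u‖ = 1) ∧ ∀ ξ : E d, ρ ≤ ‖ξ‖ → ‖ξ‖ ≤ 2 * ρ →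
    (∃ c : ℝ, 2 * μ / N < ∫ y in {y : E d | |⟪y, ξ⟫ - c| ≤ l}, |H y|) →
    ∃ u ∈ F, ‖ξ - ⟪ξ, u⟫ • u‖ ≤ R

def S_High (d : ℕ) : Prop := ∃ C : ℝ, 0 < C ∧ ∀ (k H : E d → ℝ) (l μ ε : ℝ) (i b n₀ : ℕ),
  IsKer k → Nice H → 0 < l → ∫ y, |H y| ≤ μ →
  (∀ (u v : E d) (a a' : ℝ), ‖u‖ = 1 → ‖v‖ = 1 → ⟪u, v⟫ = 0 →
    ∫ y in pl u v a a' (4 * l * 2 ^ i / 2 ^ b), |H y| ≤ ε) → 4 ^ i * ε ≤ 2 * μ →
  ∫⁻ ξ in {ξ : E d | 2 ^ n₀ ≤ l * ‖ξ‖}, ENNReal.ofReal (‖FT (KK k l) ξ‖ ^ 2 * ‖FT H ξ‖ ^ 2) ≤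
    ENNReal.ofReal (C * (μ ^ 2 / l ^ d) * ((1 / 2) ^ i + 2 ^ i * (2 ^ b) ^ d * (2 / 3) ^ n₀))

def S_Shift (d : ℕ) (θ : ℝ) : Prop := ∃ C ϑ : ℝ, 0 < C ∧ 0 < ϑ ∧ ϑ < 1 ∧
  ∀ k H : E d → ℝ, IsKer k → Nice H → ∀ (j : ℤ) (Λ : ℝ), 0 ≤ Λ → Mor θ H univ j Λ →
  ∀ (u : ℕ) (v : E d), ‖v‖ ≤ d * 2 ^ (j - u) →
  ∫ x, (cv k j H (x + v) - cv k j H x) ^ 2 ≤ C * Λ ^ 2 * ϑ ^ u * sz d j

def S_Win (d : ℕ) (θ : ℝ) : Prop := ∀ (P : Finset (Cb d)) (b : Cb d → E d → ℝ), Atoms P b 1 →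
  MorA θ P b → ∀ (c : Cb d) (t : ℕ),
  Mor θ (Bw P b (c.1 - t) c.1) (big c) c.1 (3 ^ d * (θ ^ t)⁻¹)

def S_Pe (d : ℕ) (θ : ℝ) : Prop := ∃ (N : ℕ) (Λ : ℝ), 1 ≤ N ∧ 0 ≤ Λ ∧
  ∀ (k : E d → ℝ) (P : Finset (Cb d)) (b : Cb d → E d → ℝ), IsKer k → Atoms P b 1 → MorA θ P b →
  PeB k P b N Λ

def S_Run (d : ℕ) (θ : ℝ) : Prop := ∃ C : ℝ, 0 < C ∧ ∀ k : E d → ℝ, IsKer k → ∀ m : ℝ, 1 ≤ m →
  AtM θ k m (C * m)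

def S_Cz (d : ℕ) : Prop := ∀ (B : Cb d → Prop) (W : Cb d) (j₀ : ℤ), j₀ ≤ W.1 →
  (∀ Q : Cb d, Q.1 = W.1 → cube Q ⊆ big W → ¬ B Q) →
  ∃ P : Finset (Cb d), Dj P ∧ big W = ⋃ Q ∈ P, cube Q ∧
    ∀ Q ∈ P, Q.1 < W.1 ∧ (j₀ ≤ Q.1 → B Q) ∧ ∀ x ∈ cube Q, ¬ B (cb (Q.1 + 1) x)

def S_Single (d : ℕ) (θ : ℝ) : Prop := ∃ C : ℝ, 0 < C ∧ ∀ (k : E d → ℝ) (m β : ℝ), IsKer k →
  1 ≤ m → 0 ≤ β → AtM θ k m β → ∀ g : E d → ℝ, Nice g → ∀ G : ℤ → Set (E d), Stop G →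
  ∀ (W : Cb d) (j₀ : ℤ) (μ : ℝ), 0 < μ →
  (∀ j, j₀ ≤ j → j ≤ W.1 → ∀ x ∈ cube W, x ∈ G j → Mor θ g (big (cb j x)) j μ) →
  Mom (TG k G j₀ W.1 g) W m (μ * (C * (m + β)))

def S_Glue (d : ℕ) : Prop := ∀ (φ : ℤ → E d → ℝ) (Y : ℤ → E d → ℝ≥0∞) (a b : ℤ) (q τ M : ℝ)
  (V : E d → ℝ≥0∞), (∀ j, Measurable (φ j)) → (∀ j, Lc j (Y j)) →
  (∀ i j x, i ≤ j → Y j x ≤ Y i x) → (∀ x, Y (b + 1) x = 0) → (∀ x, Y a x ≠ ∞) →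
  (∀ j x, a ≤ j → j ≤ b → Y j x = 0 → φ j x = 0) → 1 ≤ q → 0 < τ → 1 ≤ M → Measurable V →
  Flat V a b (M ^ q) →
  (∀ (W : Cb d) (μ : ℝ), 0 < μ → a ≤ W.1 → W.1 ≤ b → (∀ x ∈ cube W, Y W.1 x ≠ 0) →
    Mom (ps (fun j => {x | Y j x ≤ ENNReal.ofReal μ}.indicator (φ j)) a W.1) W (2 * q) (μ * τ)) →
  ∫⁻ x, ENNReal.ofReal |ps φ a b x| ^ q * V x ≤
    ENNReal.ofReal ((88 * M * τ) ^ q) * ∫⁻ x, Y a x ^ q * V x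

def S_Loc (d : ℕ) (θ : ℝ) : Prop := ∃ C : ℝ, 0 < C ∧ ∀ (k g : E d → ℝ) (z : Set (E d)) (a b : ℤ)
  (q M : ℝ) (V : E d → ℝ≥0∞), IsKer k → Nice g → 1 ≤ q → 1 ≤ M → Measurable V →
  Flat V a b (M ^ q) →
  ∫⁻ x, ENNReal.ofReal |ps (fun j => (loc z j).indicator (cv k j g)) a b x| ^ q * V x ≤
    ENNReal.ofReal ((C * M * q) ^ q) * ∫⁻ x, moY θ g z b a x ^ q * V x

def S_Hold (d : ℕ) : Prop := ∀ (w g : E d → ℝ) (z : Set (E d)) (A σ θ D β β' : ℝ) (j : ℤ)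
  (x : E d), A1 w A → Nice g → RD w z σ D → β.HolderConjugate β' → 1 ≤ D → 0 < σ → σ ^ (1 / β') ≤ θ →
  x ∈ loc z j → mo θ g j x ≤ ENNReal.ofReal ((3 * 2 ^ (d + 2)) ^ d * D) *
    (av j (fun y => ENNReal.ofReal (gb β g w y)) x ^ (1 / β) *
      av (j + (d + 2 : ℕ)) (fun y => ENNReal.ofReal (w y)) x ^ (1 / β'))

def S_Ball (d : ℕ) : Prop := ∀ (w : E d → ℝ) (z : Set (E d)) (A s D : ℝ), A1 w A → 0 ≤ s →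
  1 ≤ D → (∀ (y u v : E d) (a b r R : ℝ), ‖u‖ = 1 → ‖v‖ = 1 → ⟪u, v⟫ = 0 → 0 < r → r ≤ R →
    (∀ p ∈ z, 2 * R ≤ ‖y - p‖) → ∫ x in Metric.ball y R ∩ pl u v a b r, w x ≤
      D * (r / R) ^ s * ∫ x in Metric.ball y (2 * R), w x) → RD w z (2 ^ (-s)) D

def S_Chain (d : ℕ) : Prop := ∃ C : ℝ, 0 < C ∧ ∀ (w g : E d → ℝ) (A β β' q : ℝ) (a b : ℤ),
  A1 w A → Measurable g → β.HolderConjugate β' → 2 * β ≤ q →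
  ∫⁻ x, (mx a b (fun y => ENNReal.ofReal (gb β g w y)) x ^ (1 / β) *
      mx a b (fun y => ENNReal.ofReal (w y)) x ^ (1 / β')) ^ q *
      mx a b (fun y => ENNReal.ofReal (w y)) x ^ (-(q - 1)) ≤
    ENNReal.ofReal (C ^ q * A) *
      ∫⁻ x, ENNReal.ofReal |g x| ^ q * ENNReal.ofReal (w x) ^ (-(q - 1))

def S_LocW (d : ℕ) (σ β : ℝ) : Prop := ∃ C : ℝ, 0 < C ∧ ∀ (k g w : E d → ℝ) (z : Set (E d))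
  (A D q : ℝ) (a b : ℤ), IsKer k → Nice g → A1 w A → RD w z σ D → 1 ≤ D → 2 * β ≤ q →
  ∫⁻ x, ENNReal.ofReal |ps (fun j => (loc z j).indicator (cv k j g)) a b x| ^ q *
      ENNReal.ofReal (w x) ^ (-(q - 1)) ≤ ENNReal.ofReal ((C * D * q * A) ^ q) *
    ∫⁻ x, ENNReal.ofReal |g x| ^ q * ENNReal.ofReal (w x) ^ (-(q - 1))

def S_Por (d : ℕ) (κ : ℝ) : Prop := ∃ Λ : ℝ, 0 < Λ ∧ ∀ z : Set (E d), Por z κ → Car z Λ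

def S_Glob (d : ℕ) (Λ : ℝ) : Prop := ∃ C : ℝ, 0 < C ∧ ∀ (k g w : E d → ℝ) (z : Set (E d))
  (A q : ℝ) (a b : ℤ), IsKer k → Car z Λ → Nice g → A1 w A → 2 ≤ q →
  ∫⁻ x, ENNReal.ofReal |ps (fun j => (loc z j)ᶜ.indicator (cv k j g)) a b x| ^ q *
      ENNReal.ofReal (w x) ^ (-(q - 1)) ≤ ENNReal.ofReal ((C * q * A) ^ q) *
    ∫⁻ x, ENNReal.ofReal |g x| ^ q * ENNReal.ofReal (w x) ^ (-(q - 1))

def S_Main (d : ℕ) (σ Λ : ℝ) : Prop := ∃ C : ℝ, 0 < C ∧ ∀ (k f w : E d → ℝ) (z : Set (E d))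
  (A D p : ℝ) (a b : ℤ), IsKer k → Car z Λ → Nice f → A1 w A → RD w z σ D → 1 ≤ D → 1 < p →
  nrm w p (TT k a b f) ≤ ENNReal.ofReal (C * D * (p * (p / (p - 1)) * A)) * nrm w p f

end

/-! Toolbox. -/

theorem loc_lm {d : ℕ} (z : Set (E d)) (j : ℤ) : LM j (loc z j) := fun x y e hx => by
  have : cb j y = cb j x := by simp only [cb, e]
  simpa only [loc, mem_ofPred_eq, this] using hx

theorem loc_meas {d : ℕ} (z : Set (E d)) (j : ℤ) : MeasurableSet (loc z j) := (loc_lm z j).meas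

theorem loc_anti {d : ℕ} (z : Set (E d)) {i j : ℤ} (h : i ≤ j) : loc z j ⊆ loc z i :=
  fun x hx y hy u hu => (zpow_le_zpow_right₀ one_le_two (by omega)).trans
    (hx y (big_mono h x hy) u hu)

theorem mo_le_iff {d : ℕ} {θ : ℝ} (hθ : 0 < θ) {g : E d → ℝ} {j : ℤ} {x : E d} {μ : ℝ}
    (hμ : 0 ≤ μ) : mo θ g j x ≤ ENNReal.ofReal μ ↔ Mor θ g (big (cb j x)) j μ := by
  simp only [mo, Mor, iSup_le_iff, ENNReal.ofReal_le_ofReal_iff hμ]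
  refine forall_congr' fun n => forall_congr' fun T => forall_congr' fun _ => ?_
  rw [div_le_iff₀ (mul_pos (pow_pos hθ n) (sz_pos j)), mul_assoc]

theorem slab_meas {d : ℕ} (u : E d) (a r : ℝ) : MeasurableSet {y : E d | |⟪y, u⟫ - a| ≤ r} :=
  measurableSet_le (by fun_prop) (by fun_prop)

theorem pl_meas {d : ℕ} (u v : E d) (a b r : ℝ) : MeasurableSet (pl u v a b r) :=
  (slab_meas u a r).inter (slab_meas v b r)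

theorem Tst.meas {d : ℕ} {j : ℤ} {n : ℕ} {T : Set (E d)} (h : Tst j n T) : MeasurableSet T := by
  rcases h with ⟨-, rfl⟩ | ⟨u, v, a, b, -, -, -, rfl⟩
  · exact MeasurableSet.univ
  · exact pl_meas _ _ _ _ _

theorem Mor.subset {d : ℕ} {θ μ : ℝ} {g : E d → ℝ} {S S' : Set (E d)} {j : ℤ}
    (h : Mor θ g S j μ) (hg : Nice g) (hS : S' ⊆ S) : Mor θ g S' j μ := fun n T hT =>
  (setIntegral_mono_set hg.abs.integrable.integrableOn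
    (Filter.Eventually.of_forall fun _ => abs_nonneg _)
    (inter_subset_inter_left T hS).eventuallyLE).trans (h n T hT)

theorem Mor.mass {d : ℕ} {θ μ : ℝ} {g : E d → ℝ} {S : Set (E d)} {j : ℤ} (h : Mor θ g S j μ) :
    ∫ y in S, |g y| ≤ μ * sz d j := by
  simpa using h 0 univ (Or.inl ⟨rfl, rfl⟩)

end Pool.Agent.MP_418f02_an
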